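import Pool.Agent.LibBW4.Defs2

/-!
Row A0 (SHORT): linear form of `bvD`. `∑_{m ≡ c} a m - (∑_{(m,q)=1} a m)/φ(q) = ∑ a m dd q c m` (`Finset.sum_filter`), norm of a real number. Consequences: subadditivity.
-/

open Finset

namespace Pool.Agent.LibBW4

theorem bvD_eq (a : ℕ → ℝ) (u v q c : ℕ) : bvD a u v q c = ‖∑ m ∈ Ioc u v, (a m : ℂ) * dd q c m‖ := by
  have h : ∑ m ∈ Ioc u v, (a m : ℂ) * dd q c m =
      ((∑ m ∈ (Ioc u v).filter (fun m => m ≡ c [MOD q]), a m -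
        (∑ m ∈ (Ioc u v).filter (fun m => m.Coprime q), a m) / (q.totient : ℝ) : ℝ) : ℂ) := by
    rw [Finset.sum_filter, Finset.sum_filter]
    push_cast
    rw [Finset.sum_div, ← Finset.sum_sub_distrib]
    refine Finset.sum_congr rfl (fun m _ => ?_)
    unfold dd
    split_ifs <;> simp <;> ring
  rw [h, Complex.norm_real, Real.norm_eq_abs]
  rfl

theorem bvD_add (a a' : ℕ → ℝ) (u v q c : ℕ) : bvD (fun n => a n + a' n) u v q c ≤ bvD a u v q c + bvD a' u v q c := by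
  rw [bvD_eq, bvD_eq, bvD_eq]
  have h : ∑ m ∈ Ioc u v, ((a m + a' m : ℝ) : ℂ) * dd q c m =
      ∑ m ∈ Ioc u v, (a m : ℂ) * dd q c m + ∑ m ∈ Ioc u v, (a' m : ℂ) * dd q c m := by
    rw [← Finset.sum_add_distrib]
    refine Finset.sum_congr rfl (fun m _ => ?_)
    push_cast
    ring
  rw [h]
  exact norm_add_le _ _

theorem bvD_sub (a a' : ℕ → ℝ) (u v q c : ℕ) : bvD (fun n => a n - a' n) u v q c ≤ bvD a u v q c + bvD a' u v q c := by
  rw [bvD_eq, bvD_eq, bvD_eq]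
  have h : ∑ m ∈ Ioc u v, ((a m - a' m : ℝ) : ℂ) * dd q c m =
      ∑ m ∈ Ioc u v, (a m : ℂ) * dd q c m - ∑ m ∈ Ioc u v, (a' m : ℂ) * dd q c m := by
    rw [← Finset.sum_sub_distrib]
    refine Finset.sum_congr rfl (fun m _ => ?_)
    push_cast
    ring
  rw [h]
  exact norm_sub_le _ _

theorem bvD_congr (a a' : ℕ → ℝ) (u v q c : ℕ) (h : ∀ n ∈ Ioc u v, a n = a' n) : bvD a u v q c = bvD a' u v q c := by
  rw [bvD_eq, bvD_eq]
  congr 1
  refine Finset.sum_congr rfl (fun m hm => ?_)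
  rw [h m hm]

theorem bvD_split (a : ℕ → ℝ) (u w v q c : ℕ) (h : u ≤ w) (h' : w ≤ v) : bvD a u v q c ≤ bvD a u w q c + bvD a w v q c := by
  rw [bvD_eq, bvD_eq, bvD_eq]
  have hu : Ioc u v = Ioc u w ∪ Ioc w v := (Finset.Ioc_union_Ioc_eq_Ioc h h').symm
  have hd : Disjoint (Ioc u w) (Ioc w v) := by
    rw [Finset.disjoint_left]
    intro x hx hx'
    rw [Finset.mem_Ioc] at hx hx'
    omega
  rw [hu, Finset.sum_union hd]
  exact norm_add_le _ _

private theorem norm_dd (q c n : ℕ) : ‖dd q c n‖ ≤ 2 := by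
  unfold dd
  have h1 : ‖(if n ≡ c [MOD q] then (1 : ℂ) else 0)‖ ≤ 1 := by
    split_ifs <;> simp
  have h2 : ‖(if n.Coprime q then (1 : ℂ) else 0) / (q.totient : ℂ)‖ ≤ 1 := by
    rw [norm_div]
    have h3 : ‖(if n.Coprime q then (1 : ℂ) else 0)‖ ≤ 1 := by
      split_ifs <;> simp
    rcases Nat.eq_zero_or_pos q.totient with h0 | h0
    · rw [h0]; simp
    · rw [Complex.norm_natCast]
      have h4 : (1 : ℝ) ≤ (q.totient : ℝ) := by exact_mod_cast h0
      rw [div_le_one (by linarith)]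
      linarith
  calc ‖(if n ≡ c [MOD q] then (1 : ℂ) else 0) - (if n.Coprime q then (1 : ℂ) else 0) / (q.totient : ℂ)‖
      ≤ ‖(if n ≡ c [MOD q] then (1 : ℂ) else 0)‖ +
        ‖(if n.Coprime q then (1 : ℂ) else 0) / (q.totient : ℂ)‖ := norm_sub_le _ _
    _ ≤ 2 := by linarith

/-- trivial bound -/
theorem bvD_triv (a : ℕ → ℝ) (u v q c : ℕ) : bvD a u v q c ≤ 2 * ∑ m ∈ Ioc u v, |a m| := by
  rw [bvD_eq, Finset.mul_sum]
  refine (norm_sum_le _ _).trans (Finset.sum_le_sum (fun m _ => ?_))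
  rw [norm_mul, Complex.norm_real, Real.norm_eq_abs]
  have h1 := norm_dd q c m
  have h2 := abs_nonneg (a m)
  nlinarith

private theorem card_class (u v q c N : ℕ) (hq : 1 ≤ q) (hv : v ≤ N) :
    (((Ioc u v).filter (fun m => m ≡ c [MOD q])).card : ℝ) ≤ (N : ℝ) / q + 1 := by
  have h := Nat.Ioc_filter_modEq_card u v (r := q) hq c
  have hq0 : (0 : ℚ) < (q : ℚ) := by exact_mod_cast hq
  have h1 : ((((Ioc u v).filter (fun m => m ≡ c [MOD q])).card : ℤ) : ℚ) ≤ (N : ℚ) / q + 1 := by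
    rw [h]
    push_cast
    apply max_le
    · have e1 : ((⌊((v : ℚ) - c) / (q : ℚ)⌋ : ℤ) : ℚ) ≤ ((v : ℚ) - c) / (q : ℚ) := Int.floor_le _
      have e2 : ((u : ℚ) - c) / (q : ℚ) - 1 < ((⌊((u : ℚ) - c) / (q : ℚ)⌋ : ℤ) : ℚ) :=
        Int.sub_one_lt_floor _
      have e3 : ((v : ℚ) - c) / (q : ℚ) - ((u : ℚ) - c) / (q : ℚ) ≤ (N : ℚ) / q := by
        rw [← sub_div]
        apply div_le_div_of_nonneg_right _ hq0.le
        have hv' : (v : ℚ) ≤ N := by exact_mod_cast hv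
        have hu' : (0 : ℚ) ≤ u := by positivity
        linarith
      linarith
    · positivity
  have h2 : (((((Ioc u v).filter (fun m => m ≡ c [MOD q])).card : ℤ) : ℚ) : ℝ) ≤
      (((N : ℚ) / q + 1 : ℚ) : ℝ) := by exact_mod_cast h1
  push_cast at h2
  exact h2

/-- trivial bound for bounded coefficients -/
theorem bvD_triv' (a : ℕ → ℝ) (ha : ∀ m, |a m| ≤ 1) (u v N q c : ℕ) (hq : 1 ≤ q) (hqN : q ≤ N) (hv : v ≤ N) :
    bvD a u v q c ≤ 3 * N / (q.totient : ℝ) := by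
  have hφ : 0 < q.totient := Nat.totient_pos.mpr hq
  have hφ' : (0 : ℝ) < (q.totient : ℝ) := by exact_mod_cast hφ
  have hq' : (0 : ℝ) < (q : ℝ) := by exact_mod_cast hq
  have hφq : (q.totient : ℝ) ≤ (q : ℝ) := by exact_mod_cast Nat.totient_le q
  have hqN' : (q : ℝ) ≤ N := by exact_mod_cast hqN
  unfold bvD
  have h1 : |∑ m ∈ (Ioc u v).filter (fun m => m ≡ c [MOD q]), a m| ≤ (N : ℝ) / q + 1 := by
    refine (Finset.abs_sum_le_sum_abs _ _).trans ?_
    refine (Finset.sum_le_card_nsmul _ _ 1 (fun m _ => ha m)).trans ?_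
    rw [nsmul_eq_mul, mul_one]
    exact card_class u v q c N hq hv
  have h2 : |∑ m ∈ (Ioc u v).filter (fun m => m.Coprime q), a m| ≤ (N : ℝ) := by
    refine (Finset.abs_sum_le_sum_abs _ _).trans ?_
    refine (Finset.sum_le_card_nsmul _ _ 1 (fun m _ => ha m)).trans ?_
    rw [nsmul_eq_mul, mul_one]
    have : ((Ioc u v).filter (fun m => m.Coprime q)).card ≤ N := by
      refine (Finset.card_filter_le _ _).trans ?_
      rw [Nat.card_Ioc]
      omega
    exact_mod_cast this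
  have h3 : |(∑ m ∈ (Ioc u v).filter (fun m => m.Coprime q), a m) / (q.totient : ℝ)| ≤
      (N : ℝ) / (q.totient : ℝ) := by
    rw [abs_div, abs_of_pos hφ']
    exact div_le_div_of_nonneg_right h2 hφ'.le
  have h4 : (N : ℝ) / q ≤ (N : ℝ) / (q.totient : ℝ) :=
    div_le_div_of_nonneg_left (by positivity) hφ' hφq
  have h5 : (1 : ℝ) ≤ (N : ℝ) / (q.totient : ℝ) := by
    rw [one_le_div hφ']
    linarith
  have h6 : 3 * (N : ℝ) / (q.totient : ℝ) = (N : ℝ) / (q.totient : ℝ) + (N : ℝ) / (q.totient : ℝ) +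
      (N : ℝ) / (q.totient : ℝ) := by ring
  rw [h6]
  refine (abs_sub _ _).trans ?_
  linarith

end Pool.Agent.LibBW4
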