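import Pool.Agent.LibBW4.Defs2

/-!
Row A1 (SHORT/MEDIUM): orthogonality. `∑_χ χ(c⁻¹) χ(n) = φ(q) [n ≡ c]` (`DirichletCharacter.sum_char_inv_mul_char_eq`), and the principal character contributes `[(n,q) = 1]`; so
`dd q c n = (1/φ(q)) ∑_{χ ≠ 1} χ(c⁻¹) χ(n)`, `|χ(c⁻¹)| ≤ 1`, `χ(m k) = χ(m) χ(k)`.
-/

open Finset

namespace Pool.Agent.LibBW4

theorem dd_eq (q c n : ℕ) (hq : 1 ≤ q) (hc : c.Coprime q) :
    dd q c n = (1 / (q.totient : ℂ)) * ∑ χ ∈ NP q,
      χ ((c : ZMod q)⁻¹) * χ (n : ZMod q) := by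
  classical
  haveI : NeZero q := ⟨by omega⟩
  have hcu : IsUnit (c : ZMod q) := (ZMod.isUnit_iff_coprime c q).mpr hc
  have hall := DirichletCharacter.sum_char_inv_mul_char_eq (R := ℂ) hcu (n : ZMod q)
  have hciu : IsUnit ((c : ZMod q)⁻¹) := by
    refine IsUnit.of_mul_eq_one (c : ZMod q) ?_
    exact ZMod.inv_mul_of_unit _ hcu
  have hsplit : ∑ χ ∈ NP q, χ ((c : ZMod q)⁻¹) * χ (n : ZMod q) =
      (if (c : ZMod q) = (n : ZMod q) then (q.totient : ℂ) else 0) -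
        (if n.Coprime q then 1 else 0) := by
    have h1 : NP q = (univ : Finset (DirichletCharacter ℂ q)).erase 1 := by
      ext χ
      simp [NP]
    have h2 := Finset.sum_erase_add (univ : Finset (DirichletCharacter ℂ q))
      (fun χ => χ ((c : ZMod q)⁻¹) * χ (n : ZMod q)) (Finset.mem_univ 1)
    rw [h1, ← hall, ← h2]
    have h3 : (1 : DirichletCharacter ℂ q) ((c : ZMod q)⁻¹) *
        (1 : DirichletCharacter ℂ q) (n : ZMod q) = if n.Coprime q then 1 else 0 := by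
      rw [MulChar.one_apply hciu, one_mul]
      by_cases hn : n.Coprime q
      · rw [if_pos hn, MulChar.one_apply ((ZMod.isUnit_iff_coprime n q).mpr hn)]
      · rw [if_neg hn]
        exact MulChar.map_nonunit _ (fun h => hn ((ZMod.isUnit_iff_coprime n q).mp h))
    rw [h3]
    ring
  rw [hsplit]
  have hφ : (q.totient : ℂ) ≠ 0 := by
    have : 0 < q.totient := Nat.totient_pos.mpr hq
    exact_mod_cast this.ne'
  have hmod : ((c : ZMod q) = (n : ZMod q)) ↔ n ≡ c [MOD q] := by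
    rw [ZMod.natCast_eq_natCast_iff]
    exact ⟨fun h => h.symm, fun h => h.symm⟩
  unfold dd
  by_cases h1 : n ≡ c [MOD q]
  · rw [if_pos h1, if_pos (hmod.mpr h1)]
    field_simp
  · rw [if_neg h1, if_neg (fun h => h1 (hmod.mp h))]
    ring

theorem rect_le (α β : ℕ → ℂ) (u v u' v' q c : ℕ) (hq : 1 ≤ q) (hc : c.Coprime q) :
    ‖rect α β u v u' v' q c‖ ≤ (1 / (q.totient : ℝ)) * ∑ χ ∈ NP q,
      ‖cs α u v 1 χ‖ * ‖cs β u' v' 1 χ‖ := by
  have hcs : ∀ (α : ℕ → ℂ) (u v : ℕ) (χ : DirichletCharacter ℂ q),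
      cs α u v 1 χ = ∑ m ∈ Ioc u v, α m * χ (m : ZMod q) := by
    intro α u v χ
    unfold cs
    rw [Finset.filter_true_of_mem (fun m _ => Nat.coprime_one_right m)]
  have h : rect α β u v u' v' q c = (1 / (q.totient : ℂ)) * ∑ χ ∈ NP q,
      χ ((c : ZMod q)⁻¹) * (cs α u v 1 χ * cs β u' v' 1 χ) := by
    unfold rect
    have e1 : ∀ m ∈ Ioc u v, ∑ k ∈ Ioc u' v', α m * β k * dd q c (m * k) =
        ∑ χ ∈ NP q, ∑ k ∈ Ioc u' v', (1 / (q.totient : ℂ)) * (χ ((c : ZMod q)⁻¹) *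
          ((α m * χ (m : ZMod q)) * (β k * χ (k : ZMod q)))) := by
      intro m _
      rw [Finset.sum_comm]
      refine Finset.sum_congr rfl (fun k _ => ?_)
      rw [dd_eq q c (m * k) hq hc, Finset.mul_sum, Finset.mul_sum]
      refine Finset.sum_congr rfl (fun χ _ => ?_)
      rw [Nat.cast_mul, map_mul]
      ring
    rw [Finset.sum_congr rfl e1, Finset.sum_comm, Finset.mul_sum]
    refine Finset.sum_congr rfl (fun χ _ => ?_)
    rw [hcs, hcs, Finset.sum_mul_sum, Finset.mul_sum, Finset.mul_sum]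
    refine Finset.sum_congr rfl (fun m _ => ?_)
    rw [Finset.mul_sum, Finset.mul_sum]
  rw [h, norm_mul]
  have h1 : ‖(1 / (q.totient : ℂ))‖ = 1 / (q.totient : ℝ) := by
    rw [norm_div, norm_one, Complex.norm_natCast]
  rw [h1]
  apply mul_le_mul_of_nonneg_left _ (by positivity)
  refine (norm_sum_le _ _).trans (Finset.sum_le_sum (fun χ _ => ?_))
  rw [norm_mul, norm_mul]
  have h2 : ‖χ ((c : ZMod q)⁻¹)‖ ≤ 1 := DirichletCharacter.norm_le_one χ _
  have h3 : 0 ≤ ‖cs α u v 1 χ‖ * ‖cs β u' v' 1 χ‖ := by positivity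
  calc ‖χ ((c : ZMod q)⁻¹)‖ * (‖cs α u v 1 χ‖ * ‖cs β u' v' 1 χ‖)
      ≤ 1 * (‖cs α u v 1 χ‖ * ‖cs β u' v' 1 χ‖) := mul_le_mul_of_nonneg_right h2 h3
    _ = _ := one_mul _

end Pool.Agent.LibBW4
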