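import Pool.Agent.LibBW4.Defs2

/-!
Row A2 (MEDIUM): reduction to primitive characters. For `χ ≠ 1` modulo `q` let `r = χ.conductor`, `ψ = χ.primitiveCharacter` (primitive, `r ∣ q`, `r ≠ 1`, `χ = changeLevel ψ`). `χ(m) = ψ(m)` if `(m,q) = 1`
and `0` otherwise, so `cs α u v 1 χ = cs α u v (q/r) ψ` (if `(m, q/r) = 1` and `ψ(m) ≠ 0` then `(m, r) = 1`, so `(m, q) = 1`). The map `χ ↦ (r, ψ)` is injective.
-/

open Finset

namespace Pool.Agent.LibBW4

theorem cs_prim (α : ℕ → ℂ) (u v q : ℕ) (hq : 1 ≤ q) (χ : DirichletCharacter ℂ q) :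
    cs α u v 1 χ = cs α u v (q / χ.conductor) χ.primitiveCharacter := by
  have hne : NeZero q := ⟨by omega⟩
  have hd : χ.conductor ∣ q := χ.conductor_dvd_level
  have hmul : χ.conductor * (q / χ.conductor) = q := Nat.mul_div_cancel' hd
  unfold cs
  rw [Finset.sum_filter, Finset.sum_filter]
  refine Finset.sum_congr rfl fun m _ => ?_
  rw [if_pos (Nat.coprime_one_right m)]
  by_cases hm : m.Coprime q
  · have h1 : m.Coprime (q / χ.conductor) :=
      Nat.Coprime.coprime_dvd_right (Nat.div_dvd_of_dvd hd) hm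
    have h2 := DirichletCharacter.primitiveCharacter_apply_of_isCoprime (χ := χ) (a := (m : ℤ))
      (Nat.isCoprime_iff_coprime.mpr hm)
    push_cast at h2
    rw [if_pos h1, h2]
  · have h3 : χ (m : ZMod q) = 0 := by
      apply MulChar.map_nonunit
      rw [ZMod.isUnit_iff_coprime]
      exact hm
    rw [h3, mul_zero]
    by_cases h1 : m.Coprime (q / χ.conductor)
    · have h2 : ¬ m.Coprime χ.conductor := by
        intro h4
        apply hm
        rw [← hmul]
        exact Nat.Coprime.mul_right h4 h1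
      have h5 : χ.primitiveCharacter (m : ZMod χ.conductor) = 0 := by
        apply MulChar.map_nonunit
        rw [ZMod.isUnit_iff_coprime]
        exact h2
      rw [if_pos h1, h5, mul_zero]
    · rw [if_neg h1]

theorem sum_prim (α β : ℕ → ℂ) (u v u' v' q : ℕ) (hq : 1 ≤ q) :
    ∑ χ ∈ NP q, ‖cs α u v 1 χ‖ * ‖cs β u' v' 1 χ‖ ≤
      ∑ r ∈ q.divisors.erase 1, ∑ ψ ∈ Prm r, ‖cs α u v (q / r) ψ‖ * ‖cs β u' v' (q / r) ψ‖ := by
  classical
  have hne : NeZero q := ⟨by omega⟩
  have hq0 : q ≠ 0 := by omega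
  rw [Finset.sum_sigma']
  set i : DirichletCharacter ℂ q → (Σ r : ℕ, DirichletCharacter ℂ r) :=
    fun χ => ⟨χ.conductor, χ.primitiveCharacter⟩ with hi
  have hinj : Function.Injective i := by
    intro χ ψ h
    have hgen : ∀ (r : Σ r : ℕ, DirichletCharacter ℂ r) (hr : r.1 ∣ q)
        (s : Σ r : ℕ, DirichletCharacter ℂ r) (hs : s.1 ∣ q), r = s →
        DirichletCharacter.changeLevel hr r.2 = DirichletCharacter.changeLevel hs s.2 := by
      rintro r hr s hs rfl
      rfl
    have h1 := hgen (i χ) χ.conductor_dvd_level (i ψ) ψ.conductor_dvd_level h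
    have h2 : DirichletCharacter.changeLevel χ.conductor_dvd_level χ.primitiveCharacter =
        DirichletCharacter.changeLevel ψ.conductor_dvd_level ψ.primitiveCharacter := h1
    rw [DirichletCharacter.changeLevel_primitiveCharacter,
      DirichletCharacter.changeLevel_primitiveCharacter] at h2
    exact h2
  have hmap : ∀ χ ∈ NP q, i χ ∈ (q.divisors.erase 1).sigma Prm := by
    intro χ hχ
    have hχ1 : χ ≠ 1 := by
      simp only [NP, Finset.mem_filter] at hχ
      exact hχ.2
    have hd : χ.conductor ∣ q := χ.conductor_dvd_level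
    have hc1 : χ.conductor ≠ 1 := fun h => hχ1 (DirichletCharacter.eq_one_iff_conductor_eq_one.2 h)
    rw [Finset.mem_sigma, Finset.mem_erase, Nat.mem_divisors]
    refine ⟨⟨hc1, hd, hq0⟩, ?_⟩
    unfold Prm
    rw [Finset.mem_filter]
    exact ⟨Finset.mem_univ _, DirichletCharacter.primitiveCharacter_isPrimitive χ⟩
  calc ∑ χ ∈ NP q, ‖cs α u v 1 χ‖ * ‖cs β u' v' 1 χ‖
      = ∑ χ ∈ NP q, ‖cs α u v (q / (i χ).1) (i χ).2‖ * ‖cs β u' v' (q / (i χ).1) (i χ).2‖ := by
        refine Finset.sum_congr rfl fun χ _ => ?_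
        rw [cs_prim α u v q hq χ, cs_prim β u' v' q hq χ]
    _ = ∑ r ∈ (NP q).image i, ‖cs α u v (q / r.1) r.2‖ * ‖cs β u' v' (q / r.1) r.2‖ := by
        rw [Finset.sum_image fun a _ b _ h => hinj h]
    _ ≤ _ := by
        apply Finset.sum_le_sum_of_subset_of_nonneg
        · intro r hr
          rw [Finset.mem_image] at hr
          obtain ⟨χ, hχ, rfl⟩ := hr
          exact hmap χ hχ
        · intro r _ _
          positivity

end Pool.Agent.LibBW4
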