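import Pool.Agent.LibBW4.A1
import Pool.Agent.LibBW4.A2

/-!
Row A3 (SHORT/MEDIUM): sum over `q ≤ Q`. A1, A2, `q = r s`, `φ(r s) ≥ φ(r) φ(s)` (`Nat.totient_super_multiplicative`); the pairs `(r, s)` with `2 ≤ r ≤ Q`, `1 ≤ s ≤ Q` contain all the pairs `(r, q/r)`.
-/

open Finset

namespace Pool.Agent.LibBW4

theorem sum_rect (α β : ℕ → ℂ) (u v u' v' Q : ℕ) (c : ℕ → ℕ) (hc : ∀ q, (c q).Coprime q) :
    ∑ q ∈ Icc 1 Q, ‖rect α β u v u' v' q (c q)‖ ≤
      ∑ s ∈ Icc 1 Q, 1 / (s.totient : ℝ) * ∑ r ∈ Icc 2 Q, 1 / (r.totient : ℝ) *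
        ∑ ψ ∈ Prm r, ‖cs α u v s ψ‖ * ‖cs β u' v' s ψ‖ := by
  classical
  set F : ℕ → ℕ → ℝ := fun r s => ∑ ψ ∈ Prm r, ‖cs α u v s ψ‖ * ‖cs β u' v' s ψ‖ with hF
  have hF0 : ∀ r s, 0 ≤ F r s := fun r s => Finset.sum_nonneg fun ψ _ => by positivity
  have h1 : ∀ q ∈ Icc 1 Q, ‖rect α β u v u' v' q (c q)‖ ≤
      ∑ r ∈ q.divisors.erase 1, 1 / ((q / r).totient : ℝ) * (1 / (r.totient : ℝ) * F r (q / r)) := by
    intro q hq
    rw [Finset.mem_Icc] at hq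
    refine (rect_le α β u v u' v' q (c q) hq.1 (hc q)).trans ?_
    refine (mul_le_mul_of_nonneg_left (sum_prim α β u v u' v' q hq.1) (by positivity)).trans ?_
    rw [Finset.mul_sum]
    refine Finset.sum_le_sum fun r hr => ?_
    rw [Finset.mem_erase, Nat.mem_divisors] at hr
    obtain ⟨s, rfl⟩ := hr.2.1
    have hr0 : 0 < r := Nat.pos_of_ne_zero fun h => by simp [h] at hq
    have hs0 : 0 < s := Nat.pos_of_ne_zero fun h => by simp [h] at hq
    rw [Nat.mul_div_cancel_left s hr0, ← mul_assoc]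
    refine mul_le_mul_of_nonneg_right ?_ (hF0 r s)
    have h2 := Nat.totient_super_multiplicative r s
    have h3 : (0 : ℝ) < r.totient := by exact_mod_cast Nat.totient_pos.2 hr0
    have h4 : (0 : ℝ) < s.totient := by exact_mod_cast Nat.totient_pos.2 hs0
    rw [div_mul_div_comm, one_mul]
    refine one_div_le_one_div_of_le (by positivity) ?_
    rw [mul_comm]
    exact_mod_cast h2
  refine (Finset.sum_le_sum h1).trans ?_
  have h5 : ∑ q ∈ Icc 1 Q, ∑ r ∈ q.divisors.erase 1,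
        1 / ((q / r).totient : ℝ) * (1 / (r.totient : ℝ) * F r (q / r)) =
      ∑ y ∈ ((Icc 1 Q).sigma fun q => q.divisors.erase 1).image fun x => (x.1 / x.2, x.2),
        1 / (y.1.totient : ℝ) * (1 / (y.2.totient : ℝ) * F y.2 y.1) := by
    rw [Finset.sum_image, Finset.sum_sigma]
    rintro ⟨q, r⟩ hx ⟨q', r'⟩ hx' he
    simp only [Finset.coe_sigma, Set.mem_sigma_iff, Finset.mem_coe, Finset.mem_erase,
      Nat.mem_divisors] at hx hx'
    simp only [Prod.mk.injEq] at he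
    obtain ⟨he1, rfl⟩ := he
    have h6 : q = q / r * r := (Nat.div_mul_cancel hx.2.2.1).symm
    have h7 : q' = q' / r * r := (Nat.div_mul_cancel hx'.2.2.1).symm
    have h8 : q = q' := by rw [h6, h7, he1]
    subst h8
    rfl
  rw [h5]
  have h9 : ∑ s ∈ Icc 1 Q, 1 / (s.totient : ℝ) * ∑ r ∈ Icc 2 Q, 1 / (r.totient : ℝ) * F r s =
      ∑ y ∈ Icc 1 Q ×ˢ Icc 2 Q, 1 / (y.1.totient : ℝ) * (1 / (y.2.totient : ℝ) * F y.2 y.1) := by
    rw [Finset.sum_product]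
    exact Finset.sum_congr rfl fun s _ => Finset.mul_sum _ _ _
  rw [h9]
  refine Finset.sum_le_sum_of_subset_of_nonneg ?_ fun y _ _ => ?_
  · intro y hy
    rw [Finset.mem_image] at hy
    obtain ⟨⟨q, r⟩, hx, rfl⟩ := hy
    simp only [Finset.mem_sigma, Finset.mem_Icc, Finset.mem_erase, Nat.mem_divisors] at hx
    simp only [Finset.mem_product, Finset.mem_Icc]
    obtain ⟨⟨hq1, hq2⟩, hr1, hr2, hr3⟩ := hx
    have hr0 : 0 < r := Nat.pos_of_dvd_of_pos hr2 hq1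
    have hrq : r ≤ q := Nat.le_of_dvd hq1 hr2
    exact ⟨⟨Nat.div_pos hrq hr0, (Nat.div_le_self q r).trans hq2⟩, by omega, hrq.trans hq2⟩
  · have := hF0 y.2 y.1
    positivity

end Pool.Agent.LibBW4
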