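import Mathlib

/-!
LibBW4: the Bombieri-Vinogradov theorem (level 1/2) for primes and for products of two primes: definitions.
-/

open Finset

namespace Pool.Agent.LibBW4

/-- the error of `a` on `(u, v]` in the class `c` modulo `q` -/
noncomputable def bvD (a : ℕ → ℝ) (u v q c : ℕ) : ℝ :=
  |∑ m ∈ (Ioc u v).filter (fun m => m ≡ c [MOD q]), a m -
    (∑ m ∈ (Ioc u v).filter (fun m => m.Coprime q), a m) / (q.totient : ℝ)|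

/-- the indicator of the primes -/
noncomputable def pr (m : ℕ) : ℝ := if m.Prime then 1 else 0

/-- products `m = p p'` of two primes, `z < p < p'`, with the weight `v p` -/
noncomputable def e2 (v : ℕ → ℝ) (z m : ℕ) : ℝ :=
  ∑ p ∈ (range (m + 1)).filter (fun p => p.Prime ∧ z < p ∧ p ∣ m ∧ (m / p).Prime ∧ p < m / p), v p

/-- Bombieri-Vinogradov for primes -/
def BVprimes : Prop := ∀ (A C : ℕ) (θ : ℝ), θ < 1 / 2 → ∃ N0 : ℕ, ∀ N ≥ N0, ∀ u v : ℕ, v ≤ N →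
  ∀ c : ℕ → ℕ, (∀ q, (c q).Coprime q) →
    ∑ q ∈ Icc 1 ⌊(N : ℝ) ^ θ⌋₊, (C : ℝ) ^ q.primeFactors.card * bvD pr u v q (c q) ≤ N / Real.log N ^ A

/-- Bombieri-Vinogradov for products of two primes -/
def BVe2 : Prop := ∀ (A C : ℕ) (θ η : ℝ), θ < 1 / 2 → 0 < η → ∃ N0 : ℕ, ∀ N ≥ N0, ∀ z : ℕ, (N : ℝ) ^ η ≤ z →
  ∀ w : ℕ → ℝ, (∀ p, |w p| ≤ 1) → ∀ u v : ℕ, v ≤ N → ∀ c : ℕ → ℕ, (∀ q, (c q).Coprime q) →
    ∑ q ∈ Icc 1 ⌊(N : ℝ) ^ θ⌋₊, (C : ℝ) ^ q.primeFactors.card * bvD (e2 w z) u v q (c q) ≤ N / Real.log N ^ A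

end Pool.Agent.LibBW4
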