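import Pool.Agent.LibBW4.Defs

/-!
LibBW4: definitions of the character part.
-/

open Finset

namespace Pool.Agent.LibBW4

/-- the deviation function of the class `c` modulo `q` -/
noncomputable def dd (q c n : ℕ) : ℂ :=
  (if n ≡ c [MOD q] then (1 : ℂ) else 0) - (if n.Coprime q then (1 : ℂ) else 0) / (q.totient : ℂ)

/-- `∑ α(m) ψ(m)` over `u < m ≤ v`, `(m, s) = 1` -/
noncomputable def cs (α : ℕ → ℂ) (u v s : ℕ) {r : ℕ} (ψ : DirichletCharacter ℂ r) : ℂ :=
  ∑ m ∈ (Ioc u v).filter (fun m => m.Coprime s), α m * ψ (m : ZMod r)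

/-- the primitive characters modulo `r` -/
noncomputable def Prm (r : ℕ) : Finset (DirichletCharacter ℂ r) :=
  open scoped Classical in univ.filter fun ψ => ψ.IsPrimitive

/-- the nonprincipal characters modulo `q` -/
noncomputable def NP (q : ℕ) : Finset (DirichletCharacter ℂ q) :=
  open scoped Classical in univ.filter fun χ => χ ≠ 1

/-- the rectangle sum -/
noncomputable def rect (α β : ℕ → ℂ) (u v u' v' q c : ℕ) : ℂ :=
  ∑ m ∈ Ioc u v, ∑ k ∈ Ioc u' v', α m * β k * dd q c (m * k)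

/-- the sum over the region `u < m ≤ v`, `1 ≤ k ≤ f m` -/
noncomputable def regn (α β : ℕ → ℂ) (u v : ℕ) (f : ℕ → ℕ) (q c : ℕ) : ℂ :=
  ∑ m ∈ Ioc u v, ∑ k ∈ Icc 1 (f m), α m * β k * dd q c (m * k)

/-- the bound of a rectangle with `X` values of `m`, `Y` values of `k`, square sums `A2`, `B2`, sum of `|α|` at most `A1`, and bound `E` for the small conductors -/
noncomputable def bd (Q L : ℕ) (X Y A1 A2 B2 E : ℝ) : ℝ :=
  L * A1 * E + 200 * Real.sqrt (A2 * B2) *
    (Real.sqrt (X * Y) / L + (Real.sqrt X + Real.sqrt Y) * (Nat.log 2 Q + 1) + Q)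

/-- `∑ 1/φ(s)` -/
noncomputable def tS (Q : ℕ) : ℝ := ∑ s ∈ Icc 1 Q, 1 / (s.totient : ℝ)

end Pool.Agent.LibBW4
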