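import Pool.Agent.LibBW4.Defs2

/-!
Row E1 (MEDIUM): products of two primes as regions. `su = √u`, `sv = √v` (`Nat.sqrt`). The pairs `(p, k)` of primes, `z < p < k`, `u < p k ≤ v`: `p² < p k ≤ v`, so `p ≤ sv`. If `p ≤ su`: `p² ≤ u < p k`, so `k > p` is automatic, and `k ∈ (u/p, v/p]`. If `su < p ≤ sv`: `p² > u`, so `k > p`
implies `p k > u`, and `k ∈ (p, v/p]` (`p ≤ v/p`). `e2 w z n = ∑` over the pairs with `p k = n`.
-/

open Finset

namespace Pool.Agent.LibBW4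

/-- the coefficients of the smaller prime -/
noncomputable def al (w : ℕ → ℝ) (m : ℕ) : ℂ := if m.Prime then ((w m : ℝ) : ℂ) else 0

/-- the coefficients of the larger prime -/
noncomputable def be (k : ℕ) : ℂ := ((pr k : ℝ) : ℂ)

private theorem E1_diff (g : ℕ → ℂ) {a b : ℕ} (h : a ≤ b) :
    ∑ k ∈ Icc 1 b, g k - ∑ k ∈ Icc 1 a, g k = ∑ k ∈ Ioc a b, g k := by
  have e : ∀ n : ℕ, Icc 1 n = Ioc 0 n := fun n => by
    ext x
    simp only [mem_Icc, mem_Ioc]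
    omega
  rw [e, e, ← Finset.sum_Ioc_consecutive g (Nat.zero_le a) h]
  ring

private theorem E1_split (g : ℕ → ℂ) {z a b : ℕ} (h : a ≤ b) :
    ∑ m ∈ Ioc z a, g m + ∑ m ∈ Ioc (max z a) b, g m = ∑ m ∈ Ioc z b, g m := by
  rcases le_total z a with hz | hz
  · rw [max_eq_right hz, Finset.sum_Ioc_consecutive g hz h]
  · rw [max_eq_left hz, Finset.Ioc_eq_empty (by omega), Finset.sum_empty, zero_add]

private theorem E1_al_be (w : ℕ → ℝ) (m k : ℕ) (x : ℂ) :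
    al w m * be k * x = if m.Prime ∧ k.Prime then ((w m : ℝ) : ℂ) * x else 0 := by
  unfold al be pr
  by_cases hm : m.Prime <;> by_cases hk : k.Prime <;> simp [hm, hk]

theorem e2_dec (w : ℕ → ℝ) (z u v q c : ℕ) (huv : u ≤ v) :
    ∑ n ∈ Ioc u v, ((e2 w z n : ℝ) : ℂ) * dd q c n =
      (regn (al w) be z (Nat.sqrt u) (fun m => v / m) q c - regn (al w) be z (Nat.sqrt u) (fun m => u / m) q c) +
      (regn (al w) be (max z (Nat.sqrt u)) (Nat.sqrt v) (fun m => v / m) q c -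
        regn (al w) be (max z (Nat.sqrt u)) (Nat.sqrt v) (fun m => m) q c) := by
  have h1 : regn (al w) be z (Nat.sqrt u) (fun m => v / m) q c -
      regn (al w) be z (Nat.sqrt u) (fun m => u / m) q c =
      ∑ m ∈ Ioc z (Nat.sqrt u), ∑ k ∈ Ioc (max (u / m) m) (v / m),
        al w m * be k * dd q c (m * k) := by
    unfold regn
    rw [← Finset.sum_sub_distrib]
    refine Finset.sum_congr rfl fun m hm => ?_
    rw [mem_Ioc] at hm
    have hm0 : 0 < m := by omega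
    have hmm : m ≤ u / m := (Nat.le_div_iff_mul_le hm0).mpr (Nat.le_sqrt.mp hm.2)
    rw [max_eq_left hmm]
    exact E1_diff _ (Nat.div_le_div_right huv)
  have h2 : regn (al w) be (max z (Nat.sqrt u)) (Nat.sqrt v) (fun m => v / m) q c -
      regn (al w) be (max z (Nat.sqrt u)) (Nat.sqrt v) (fun m => m) q c =
      ∑ m ∈ Ioc (max z (Nat.sqrt u)) (Nat.sqrt v), ∑ k ∈ Ioc (max (u / m) m) (v / m),
        al w m * be k * dd q c (m * k) := by
    unfold regn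
    rw [← Finset.sum_sub_distrib]
    refine Finset.sum_congr rfl fun m hm => ?_
    rw [mem_Ioc, max_lt_iff] at hm
    have hm0 : 0 < m := by omega
    have hmm : m ≤ v / m := (Nat.le_div_iff_mul_le hm0).mpr (Nat.le_sqrt.mp hm.2)
    have hum : u / m ≤ m := by
      have : u < m * m := Nat.sqrt_lt.mp hm.1.2
      exact Nat.le_of_lt ((Nat.div_lt_iff_lt_mul hm0).mpr this)
    rw [max_eq_right hum]
    exact E1_diff _ hmm
  rw [h1, h2, E1_split (fun m => ∑ k ∈ Ioc (max (u / m) m) (v / m),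
        al w m * be k * dd q c (m * k)) (Nat.sqrt_le_sqrt huv)]
  have hL : ∑ n ∈ Ioc u v, ((e2 w z n : ℝ) : ℂ) * dd q c n =
      ∑ n ∈ Ioc u v, ∑ p ∈ (range (n + 1)).filter
        (fun p => p.Prime ∧ z < p ∧ p ∣ n ∧ (n / p).Prime ∧ p < n / p),
        ((w p : ℝ) : ℂ) * dd q c n := by
    refine Finset.sum_congr rfl fun n _ => ?_
    unfold e2
    push_cast
    rw [Finset.sum_mul]
  have hR : ∑ m ∈ Ioc z (Nat.sqrt v), ∑ k ∈ Ioc (max (u / m) m) (v / m),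
        al w m * be k * dd q c (m * k) =
      ∑ m ∈ Ioc z (Nat.sqrt v), ∑ k ∈ (Ioc (max (u / m) m) (v / m)).filter
        (fun k => m.Prime ∧ k.Prime), ((w m : ℝ) : ℂ) * dd q c (m * k) := by
    refine Finset.sum_congr rfl fun m _ => ?_
    rw [Finset.sum_filter]
    exact Finset.sum_congr rfl fun k _ => E1_al_be w m k _
  rw [hL, hR, Finset.sum_sigma', Finset.sum_sigma']
  refine Finset.sum_nbij' (fun x => ⟨x.2, x.1 / x.2⟩) (fun y => ⟨y.1 * y.2, y.1⟩) ?_ ?_ ?_ ?_ ?_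
  · rintro ⟨n, p⟩ hx
    simp only [mem_sigma, mem_Ioc, mem_filter, mem_range] at hx ⊢
    obtain ⟨⟨hun, hnv⟩, _, hp, hzp, hpn, hnp, hlt⟩ := hx
    have hp0 : 0 < p := hp.pos
    have hmul : p * (n / p) = n := Nat.mul_div_cancel' hpn
    refine ⟨⟨hzp, ?_⟩, ⟨?_, Nat.div_le_div_right hnv⟩, hp, hnp⟩
    · rw [Nat.le_sqrt]
      calc p * p ≤ p * (n / p) := Nat.mul_le_mul_left p hlt.le
        _ = n := hmul
        _ ≤ v := hnv
    · rw [max_lt_iff]
      refine ⟨?_, hlt⟩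
      rw [Nat.div_lt_iff_lt_mul hp0, mul_comm, hmul]
      exact hun
  · rintro ⟨m, k⟩ hy
    simp only [mem_sigma, mem_Ioc, mem_filter, mem_range, max_lt_iff] at hy ⊢
    obtain ⟨⟨hzm, _⟩, ⟨⟨hum, hmk⟩, hkv⟩, hm, hk⟩ := hy
    have hm0 : 0 < m := hm.pos
    rw [Nat.div_lt_iff_lt_mul hm0, mul_comm] at hum
    rw [Nat.le_div_iff_mul_le hm0, mul_comm] at hkv
    rw [Nat.mul_div_cancel_left k hm0]
    exact ⟨⟨hum, hkv⟩, Nat.lt_succ_of_le (Nat.le_mul_of_pos_right m hk.pos), hm, hzm,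
      Dvd.intro k rfl, hk, hmk⟩
  · rintro ⟨n, p⟩ hx
    simp only [mem_sigma, mem_Ioc, mem_filter, mem_range] at hx
    obtain ⟨_, _, _, _, hpn, _, _⟩ := hx
    show (⟨p * (n / p), p⟩ : (_ : ℕ) × ℕ) = ⟨n, p⟩
    rw [Nat.mul_div_cancel' hpn]
  · rintro ⟨m, k⟩ hy
    simp only [mem_sigma, mem_Ioc, mem_filter] at hy
    obtain ⟨_, _, hm, _⟩ := hy
    show (⟨m, m * k / m⟩ : (_ : ℕ) × ℕ) = ⟨m, k⟩
    rw [Nat.mul_div_cancel_left k hm.pos]
  · rintro ⟨n, p⟩ hx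
    simp only [mem_sigma, mem_Ioc, mem_filter, mem_range] at hx
    obtain ⟨_, _, _, _, hpn, _, _⟩ := hx
    show ((w p : ℝ) : ℂ) * dd q c n = ((w p : ℝ) : ℂ) * dd q c (p * (n / p))
    rw [Nat.mul_div_cancel' hpn]

theorem e2_abs (w : ℕ → ℝ) (hw : ∀ p, |w p| ≤ 1) (z m : ℕ) : |e2 w z m| ≤ 1 := by
  unfold e2
  have hcard : ((range (m + 1)).filter
      (fun p => p.Prime ∧ z < p ∧ p ∣ m ∧ (m / p).Prime ∧ p < m / p)).card ≤ 1 := by
    rw [Finset.card_le_one]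
    intro p hp p' hp'
    rw [mem_filter] at hp hp'
    obtain ⟨_, h1, _, h3, h4, h5⟩ := hp
    obtain ⟨_, h1', _, h3', h4', h5'⟩ := hp'
    have e1 : p * (m / p) = m := Nat.mul_div_cancel' h3
    have e2 : p' * (m / p') = m := Nat.mul_div_cancel' h3'
    have hd : p' ∣ p * (m / p) := by rw [e1]; exact h3'
    rcases (Nat.Prime.dvd_mul h1').mp hd with h | h
    · exact ((Nat.prime_dvd_prime_iff_eq h1' h1).mp h).symm
    · have h6 : p' = m / p := (Nat.prime_dvd_prime_iff_eq h1' h4).mp h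
      exfalso
      have h7 : p' * (m / p') = p' * p := by
        rw [e2, ← e1, ← h6, mul_comm]
      have h8 : m / p' = p := Nat.eq_of_mul_eq_mul_left h1'.pos h7
      rw [h8] at h5'
      rw [← h6] at h5
      omega
  refine (Finset.abs_sum_le_sum_abs _ _).trans ?_
  refine (Finset.sum_le_card_nsmul _ _ 1 fun p _ => hw p).trans ?_
  rw [nsmul_eq_mul, mul_one]
  exact_mod_cast hcard

end Pool.Agent.LibBW4
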