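import Pool.Agent.LibBW4.Defs2

/-!
Row T1 (SHORT/MEDIUM): elementary sums. (a) `s/φ(s) = ∑_{d ∣ s} μ²(d)/φ(d)` (or any cruder way), `∑_{s ≤ Q} 1/φ(s) ≤ ∑_d μ²(d)/(d φ(d)) ∑_{k ≤ Q} 1/k`. (b) `∑_{m ≤ x} τ(m)² ≤ x (1 + log x)³`: `τ(m)² ≤ τ_4(m)` (`LibM3/E3.lean` has `e3_card_sq_le`), number of
quadruples. (c) `∑_{q ≤ x} C^ω(q)/φ(q) ≤ (C1 log x)^C1`: multiplicative upper bound `∏_{p ≤ x} (1 + C ∑_{k ≥ 1} 1/(p^(k-1) (p-1)))` and Mertens (`LibLG5/NT57.lean` `nt_mertens_upper`, or `LibMaier/Mertens.lean`), or: `C^ω(q) ≤ τ(q)^j` for `2^j ≥ C`, `1/φ(q) ≤ τ(q)/q`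
(`q/φ(q) = ∏ p/(p-1) ≤ 2^ω(q)`), and `∑_{q ≤ x} τ(q)^j/q ≤ (1 + log x)^(2^j)` by induction or by `τ^j ≤ τ_(2^j)` (products of `2^j` factors).
-/

open Finset

namespace Pool.Agent.LibBW4

/-- harmonic sum -/
private noncomputable def T1_H (K : ℕ) : ℝ := ∑ k ∈ Icc 1 K, (1 : ℝ) / k

private theorem T1_H_le (K : ℕ) : T1_H K ≤ 1 + Real.log K := by
  have h := harmonic_le_one_add_log K
  rw [harmonic_eq_sum_Icc] at h
  unfold T1_H
  push_cast at h
  simpa [one_div] using h

private theorem T1_H_nonneg (K : ℕ) : 0 ≤ T1_H K := Finset.sum_nonneg fun k _ => by positivity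

private theorem T1_H_mono {a b : ℕ} (h : a ≤ b) : T1_H a ≤ T1_H b :=
  Finset.sum_le_sum_of_subset_of_nonneg (Finset.Icc_subset_Icc_right h)
    fun k _ _ => by positivity

private theorem T1_fiber (P : Finset (ℕ × ℕ)) (S : Finset ℕ) (f : ℕ × ℕ → ℝ)
    (hf : ∀ p ∈ P, 0 ≤ f p) :
    ∑ k ∈ S, ∑ p ∈ P.filter (fun p => p.1 * p.2 = k), f p ≤ ∑ p ∈ P, f p := by
  calc ∑ k ∈ S, ∑ p ∈ P.filter (fun p => p.1 * p.2 = k), f p
      = ∑ k ∈ S, ∑ p ∈ P, (if p.1 * p.2 = k then f p else 0) := by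
        apply Finset.sum_congr rfl; intro k _; rw [Finset.sum_filter]
    _ = ∑ p ∈ P, ∑ k ∈ S, (if p.1 * p.2 = k then f p else 0) := Finset.sum_comm
    _ ≤ ∑ p ∈ P, f p := by
        apply Finset.sum_le_sum
        intro p hp
        rw [Finset.sum_ite_eq]
        split_ifs
        · exact le_rfl
        · exact hf p hp

private theorem T1_anti {k K : ℕ} (hk : k ∈ Icc 1 K) :
    k.divisorsAntidiagonal = ((Icc 1 K) ×ˢ (Icc 1 K)).filter (fun p => p.1 * p.2 = k) := by
  rw [mem_Icc] at hk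
  ext ⟨a, b⟩
  rw [Nat.mem_divisorsAntidiagonal, Finset.mem_filter, Finset.mem_product, mem_Icc, mem_Icc]
  constructor
  · rintro ⟨h1, h2⟩
    simp only at h1
    have ha : 0 < a := Nat.pos_of_ne_zero (by rintro rfl; simp at h1; omega)
    have hb : 0 < b := Nat.pos_of_ne_zero (by rintro rfl; simp at h1; omega)
    refine ⟨⟨⟨ha, ?_⟩, hb, ?_⟩, h1⟩
    · simp only
      nlinarith
    · simp only
      nlinarith
  · rintro ⟨_, h⟩
    exact ⟨h, by omega⟩

private theorem T1_card (k : ℕ) : (k.divisors.card : ℝ) = ∑ p ∈ k.divisorsAntidiagonal, (1 : ℝ) := by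
  rw [Finset.sum_const, nsmul_eq_mul, mul_one, ← Nat.map_div_right_divisors, Finset.card_map]

private theorem T1_card_mul (a b : ℕ) :
    ((a * b).divisors.card : ℝ) ≤ (a.divisors.card : ℝ) * b.divisors.card := by
  rw [Nat.divisors_mul]
  exact_mod_cast Finset.card_mul_le

/-- one more divisor function -/
private theorem T1_step (f : ℕ → ℝ) (hf : ∀ k, 0 ≤ f k) (hm : ∀ a b, f (a * b) ≤ f a * f b) (K : ℕ) :
    ∑ k ∈ Icc 1 K, (k.divisors.card : ℝ) * f k / k ≤ (∑ k ∈ Icc 1 K, f k / k) ^ 2 := by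
  calc ∑ k ∈ Icc 1 K, (k.divisors.card : ℝ) * f k / k
      ≤ ∑ k ∈ Icc 1 K, ∑ p ∈ ((Icc 1 K) ×ˢ (Icc 1 K)).filter (fun p => p.1 * p.2 = k),
          (f p.1 / p.1) * (f p.2 / p.2) := by
        apply Finset.sum_le_sum
        intro k hk
        rw [← T1_anti hk]
        have h1 : (k.divisors.card : ℝ) * f k / k = ∑ p ∈ k.divisorsAntidiagonal, f k / k := by
          rw [Finset.sum_const, nsmul_eq_mul]
          have := T1_card k
          rw [Finset.sum_const, nsmul_eq_mul, mul_one] at this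
          rw [← this]
          ring
        rw [h1]
        apply Finset.sum_le_sum
        intro p hp
        rw [Nat.mem_divisorsAntidiagonal] at hp
        have h2 := hm p.1 p.2
        rw [hp.1] at h2
        have h3 : (k : ℝ) = (p.1 : ℝ) * p.2 := by rw [← hp.1]; push_cast; ring
        rw [div_mul_div_comm, ← h3]
        exact div_le_div_of_nonneg_right h2 (Nat.cast_nonneg k)
    _ ≤ ∑ p ∈ (Icc 1 K) ×ˢ (Icc 1 K), (f p.1 / p.1) * (f p.2 / p.2) :=
        T1_fiber _ _ _ fun p _ => by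
          have := hf p.1
          have := hf p.2
          positivity
    _ = (∑ k ∈ Icc 1 K, f k / k) ^ 2 := by
        rw [Finset.sum_product, sq, Finset.sum_mul_sum]

private theorem T1_tau_pow (j K : ℕ) :
    ∑ k ∈ Icc 1 K, (k.divisors.card : ℝ) ^ j / k ≤ T1_H K ^ (2 ^ j) := by
  induction j with
  | zero => simp [T1_H]
  | succ j ih =>
    have h1 := T1_step (fun k => (k.divisors.card : ℝ) ^ j) (fun k => by positivity) (fun a b => by
      rw [← mul_pow]
      exact pow_le_pow_left₀ (by positivity) (T1_card_mul a b) j) K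
    calc ∑ k ∈ Icc 1 K, (k.divisors.card : ℝ) ^ (j + 1) / k
        = ∑ k ∈ Icc 1 K, (k.divisors.card : ℝ) * (k.divisors.card : ℝ) ^ j / k :=
          Finset.sum_congr rfl fun k _ => by rw [pow_succ']
      _ ≤ (∑ k ∈ Icc 1 K, (k.divisors.card : ℝ) ^ j / k) ^ 2 := h1
      _ ≤ (T1_H K ^ (2 ^ j)) ^ 2 :=
          pow_le_pow_left₀ (Finset.sum_nonneg fun k _ => by positivity) ih 2
      _ = T1_H K ^ (2 ^ (j + 1)) := by rw [← pow_mul, pow_succ]

private theorem T1_pow_card_le (q : ℕ) (hq : q ≠ 0) :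
    (2 : ℝ) ^ q.primeFactors.card ≤ q.divisors.card := by
  rw [Nat.card_divisors hq]
  push_cast
  rw [← Finset.prod_const]
  refine Finset.prod_le_prod (fun _ _ => by norm_num) fun p hp => ?_
  have h1 : 1 ≤ q.factorization p := (Nat.mem_primeFactors.1 hp).1.factorization_pos_of_dvd hq
    (Nat.mem_primeFactors.1 hp).2.1
  have h2 : (1 : ℝ) ≤ (q.factorization p : ℝ) := by exact_mod_cast h1
  linarith

/-- Euler's product -/
private theorem T1_tot (s : ℕ) (_hs : s ≠ 0) :
    1 / (s.totient : ℝ) = (1 / s) * ∏ p ∈ s.primeFactors, (1 + 1 / ((p : ℝ) - 1)) := by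
  have h1 : ((s.totient : ℚ) : ℝ) = ((s * ∏ p ∈ s.primeFactors, (1 - (p : ℚ)⁻¹) : ℚ) : ℝ) := by
    rw [Nat.totient_eq_mul_prod_factors s]
  push_cast at h1
  have h2 : ∏ p ∈ s.primeFactors, (1 - (p : ℝ)⁻¹)⁻¹ = ∏ p ∈ s.primeFactors, (1 + 1 / ((p : ℝ) - 1)) := by
    refine Finset.prod_congr rfl fun p hp => ?_
    have h3 : (2 : ℝ) ≤ (p : ℝ) := by exact_mod_cast (Nat.mem_primeFactors.1 hp).1.two_le
    have h4 : (p : ℝ) - 1 ≠ 0 := by linarith
    have h5 : (p : ℝ) ≠ 0 := by linarith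
    have h6 : 1 - (p : ℝ)⁻¹ = ((p : ℝ) - 1) / p := by field_simp
    rw [h6, inv_div]
    field_simp
    ring
  rw [h1, one_div, mul_inv, ← Finset.prod_inv_distrib, h2, one_div]

private theorem T1_multiples (Q d : ℕ) (hd : 0 < d) :
    ∑ s ∈ (Icc 1 Q).filter (fun s => d ∣ s), (1 : ℝ) / s ≤ (1 / d) * T1_H Q := by
  unfold T1_H
  rw [Finset.mul_sum]
  calc ∑ s ∈ (Icc 1 Q).filter (fun s => d ∣ s), (1 : ℝ) / s
      = ∑ k ∈ ((Icc 1 Q).filter (fun s => d ∣ s)).image (fun s => s / d), (1 / (d : ℝ)) * (1 / k) := by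
        rw [Finset.sum_image]
        · refine Finset.sum_congr rfl fun s hs => ?_
          obtain ⟨t, rfl⟩ := (Finset.mem_filter.1 hs).2
          rw [Nat.mul_div_cancel_left t hd]
          push_cast
          rw [one_div_mul_one_div]
        · intro a ha b hb hab
          obtain ⟨t, rfl⟩ := (Finset.mem_filter.1 ha).2
          obtain ⟨u, rfl⟩ := (Finset.mem_filter.1 hb).2
          simp only [Nat.mul_div_cancel_left _ hd] at hab
          rw [hab]
    _ ≤ ∑ k ∈ Icc 1 Q, (1 / (d : ℝ)) * (1 / k) := by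
        refine Finset.sum_le_sum_of_subset_of_nonneg ?_ fun k _ _ => by positivity
        intro k hk
        obtain ⟨s, hs, rfl⟩ := Finset.mem_image.1 hk
        obtain ⟨hs1, t, rfl⟩ := Finset.mem_filter.1 hs
        rw [Nat.mul_div_cancel_left t hd]
        rw [mem_Icc] at hs1 ⊢
        constructor
        · rcases Nat.eq_zero_or_pos t with h | h
          · subst h; simp at hs1
          · exact h
        · exact le_trans (Nat.le_mul_of_pos_left t hd) hs1.2

private theorem T1_tele (Q : ℕ) : ∑ k ∈ range Q, 1 / (((k : ℝ) + 1) * (k + 2)) ≤ 1 := by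
  have h : ∀ Q : ℕ, ∑ k ∈ range Q, 1 / (((k : ℝ) + 1) * (k + 2)) = 1 - 1 / ((Q : ℝ) + 1) := by
    intro Q
    induction Q with
    | zero => simp
    | succ Q ih =>
      rw [Finset.sum_range_succ, ih]
      push_cast
      have h1 : (Q : ℝ) + 1 ≠ 0 := by positivity
      have h2 : (Q : ℝ) + 2 ≠ 0 := by positivity
      have h3 : (Q : ℝ) + 1 + 1 ≠ 0 := by positivity
      field_simp
      ring
  rw [h]
  have : 0 ≤ 1 / ((Q : ℝ) + 1) := by positivity
  linarith

/-- the weight of a prime -/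
private noncomputable def T1_g (p : ℕ) : ℝ := if 2 ≤ p then 1 / (((p : ℝ) - 1) * p) else 0

private theorem T1_g_nonneg (p : ℕ) : 0 ≤ T1_g p := by
  unfold T1_g
  split_ifs with h
  · have : (2 : ℝ) ≤ (p : ℝ) := by exact_mod_cast h
    have h1 : 0 < (p : ℝ) - 1 := by linarith
    positivity
  · exact le_rfl

private theorem T1_g_sum (Q : ℕ) : ∑ p ∈ (range (Q + 1)).filter Nat.Prime, T1_g p ≤ 1 := by
  calc ∑ p ∈ (range (Q + 1)).filter Nat.Prime, T1_g p
      ≤ ∑ p ∈ range (Q + 2), T1_g p := by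
        refine Finset.sum_le_sum_of_subset_of_nonneg ?_ fun p _ _ => T1_g_nonneg p
        intro p hp
        have := Finset.mem_range.1 (Finset.mem_filter.1 hp).1
        exact Finset.mem_range.2 (by omega)
    _ = ∑ k ∈ range Q, 1 / (((k : ℝ) + 1) * (k + 2)) := by
        rw [Finset.sum_range_succ', Finset.sum_range_succ']
        have h0 : T1_g 0 = 0 := by simp [T1_g]
        have h1 : T1_g (0 + 1) = 0 := by simp [T1_g]
        rw [h0, h1, add_zero, add_zero]
        refine Finset.sum_congr rfl fun k _ => ?_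
        unfold T1_g
        rw [if_pos (by omega)]
        push_cast
        have e1 : (k : ℝ) + 1 + 1 - 1 = k + 1 := by ring
        have e2 : (k : ℝ) + 1 + 1 = k + 2 := by ring
        rw [e1, e2]
    _ ≤ 1 := T1_tele Q

theorem tS_le : ∃ C : ℝ, 0 < C ∧ ∀ Q : ℕ, tS Q ≤ C * (1 + Real.log Q) := by
  refine ⟨Real.exp 1, Real.exp_pos 1, fun Q => ?_⟩
  classical
  set P := (range (Q + 1)).filter Nat.Prime with hP
  have hsub : ∀ s ∈ Icc 1 Q, s.primeFactors ⊆ P := by
    intro s hs p hp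
    rw [mem_Icc] at hs
    have h1 := Nat.mem_primeFactors.1 hp
    rw [hP, Finset.mem_filter, Finset.mem_range]
    exact ⟨by have := Nat.le_of_dvd (by omega) h1.2.1; omega, h1.1⟩
  have hP2 : ∀ p ∈ P, 2 ≤ p := fun p hp => (Finset.mem_filter.1 hp).2.two_le
  have hnn : ∀ T ∈ P.powerset, 0 ≤ ∏ p ∈ T, 1 / ((p : ℝ) - 1) := by
    intro T hT
    refine Finset.prod_nonneg fun p hp => ?_
    have : (2 : ℝ) ≤ (p : ℝ) := by exact_mod_cast hP2 p (Finset.mem_powerset.1 hT hp)
    have h1 : 0 < (p : ℝ) - 1 := by linarith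
    positivity
  have h1 : tS Q = ∑ T ∈ P.powerset, (∏ p ∈ T, 1 / ((p : ℝ) - 1)) *
      ∑ s ∈ (Icc 1 Q).filter (fun s => T ⊆ s.primeFactors), (1 : ℝ) / s := by
    calc tS Q = ∑ s ∈ Icc 1 Q, ∑ T ∈ P.powerset.filter (fun T => T ⊆ s.primeFactors),
          (∏ p ∈ T, 1 / ((p : ℝ) - 1)) * (1 / s) := by
          unfold tS
          refine Finset.sum_congr rfl fun s hs => ?_
          have hs0 : s ≠ 0 := by rw [mem_Icc] at hs; omega
          rw [T1_tot s hs0, Finset.prod_one_add, mul_comm, Finset.sum_mul]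
          refine Finset.sum_congr ?_ fun _ _ => rfl
          ext T
          rw [Finset.mem_filter, Finset.mem_powerset, Finset.mem_powerset]
          exact ⟨fun h => ⟨h.trans (hsub s hs), h⟩, fun h => h.2⟩
      _ = ∑ s ∈ Icc 1 Q, ∑ T ∈ P.powerset, (if T ⊆ s.primeFactors then
          (∏ p ∈ T, 1 / ((p : ℝ) - 1)) * (1 / s) else 0) :=
          Finset.sum_congr rfl fun s _ => Finset.sum_filter _ _
      _ = ∑ T ∈ P.powerset, ∑ s ∈ Icc 1 Q, (if T ⊆ s.primeFactors then
          (∏ p ∈ T, 1 / ((p : ℝ) - 1)) * (1 / s) else 0) := Finset.sum_comm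
      _ = _ := by
          refine Finset.sum_congr rfl fun T _ => ?_
          rw [← Finset.sum_filter, Finset.mul_sum]
  have h2 : ∀ T ∈ P.powerset, ∑ s ∈ (Icc 1 Q).filter (fun s => T ⊆ s.primeFactors), (1 : ℝ) / s ≤
      (∏ p ∈ T, 1 / (p : ℝ)) * T1_H Q := by
    intro T hT
    have hT' := Finset.mem_powerset.1 hT
    have hpos : 0 < ∏ p ∈ T, p := Finset.prod_pos fun p hp => by have := hP2 p (hT' hp); omega
    calc ∑ s ∈ (Icc 1 Q).filter (fun s => T ⊆ s.primeFactors), (1 : ℝ) / s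
        ≤ ∑ s ∈ (Icc 1 Q).filter (fun s => (∏ p ∈ T, p) ∣ s), (1 : ℝ) / s := by
          refine Finset.sum_le_sum_of_subset_of_nonneg ?_ fun k _ _ => by positivity
          intro s hs
          rw [Finset.mem_filter] at hs ⊢
          refine ⟨hs.1, ?_⟩
          exact (Finset.prod_dvd_prod_of_subset _ _ _ hs.2).trans (Nat.prod_primeFactors_dvd s)
      _ ≤ (1 / ((∏ p ∈ T, p : ℕ) : ℝ)) * T1_H Q := T1_multiples Q _ hpos
      _ = (∏ p ∈ T, 1 / (p : ℝ)) * T1_H Q := by
          rw [Finset.prod_div_distrib, Finset.prod_const_one]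
          push_cast
          rfl
  calc tS Q ≤ ∑ T ∈ P.powerset, (∏ p ∈ T, 1 / ((p : ℝ) - 1)) * ((∏ p ∈ T, 1 / (p : ℝ)) * T1_H Q) := by
        rw [h1]
        exact Finset.sum_le_sum fun T hT => mul_le_mul_of_nonneg_left (h2 T hT) (hnn T hT)
    _ = (∑ T ∈ P.powerset, ∏ p ∈ T, T1_g p) * T1_H Q := by
        rw [Finset.sum_mul]
        refine Finset.sum_congr rfl fun T hT => ?_
        rw [← mul_assoc, ← Finset.prod_mul_distrib]
        congr 1
        refine Finset.prod_congr rfl fun p hp => ?_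
        unfold T1_g
        rw [if_pos (hP2 p (Finset.mem_powerset.1 hT hp)), one_div_mul_one_div]
    _ = (∏ p ∈ P, (1 + T1_g p)) * T1_H Q := by rw [Finset.prod_one_add]
    _ ≤ Real.exp 1 * (1 + Real.log Q) := by
        refine mul_le_mul ?_ (T1_H_le Q) (T1_H_nonneg Q) (Real.exp_pos 1).le
        exact (Real.prod_one_add_le_exp_sum P T1_g_nonneg).trans (Real.exp_le_exp.2 (T1_g_sum Q))

theorem sum_tau_sq (x : ℕ) : ∑ m ∈ Icc 1 x, (m.divisors.card : ℝ) ^ 2 ≤ x * (1 + Real.log x) ^ 3 := by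
  -- the number of divisors, summed
  have hA : ∀ y : ℕ, ∑ k ∈ Icc 1 y, (k.divisors.card : ℝ) ≤ y * T1_H y := by
    intro y
    calc ∑ k ∈ Icc 1 y, (k.divisors.card : ℝ)
        ≤ ∑ k ∈ Icc 1 y, ∑ d ∈ Icc 1 y, (if d ∣ k then (1 : ℝ) else 0) := by
          refine Finset.sum_le_sum fun k hk => ?_
          rw [← Finset.sum_filter, Finset.sum_const, nsmul_eq_mul, mul_one]
          rw [mem_Icc] at hk
          exact_mod_cast Finset.card_le_card (fun d hd => by
            rw [Nat.mem_divisors] at hd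
            rw [Finset.mem_filter, mem_Icc]
            exact ⟨⟨Nat.pos_of_dvd_of_pos hd.1 (by omega), (Nat.le_of_dvd (by omega) hd.1).trans hk.2⟩, hd.1⟩)
      _ = ∑ d ∈ Icc 1 y, ∑ k ∈ Icc 1 y, (if d ∣ k then (1 : ℝ) else 0) := Finset.sum_comm
      _ ≤ ∑ d ∈ Icc 1 y, (y : ℝ) * (1 / d) := by
          refine Finset.sum_le_sum fun d hd => ?_
          rw [mem_Icc] at hd
          rw [← Finset.sum_filter, Finset.sum_const, nsmul_eq_mul, mul_one]
          have h1 : ((Icc 1 y).filter (fun k => d ∣ k)).card = y / d := by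
            have := Nat.Ioc_filter_dvd_card_eq_div y d
            rw [← this]
            rfl
          rw [h1, mul_one_div]
          exact Nat.cast_div_le
      _ = y * T1_H y := by rw [T1_H, Finset.mul_sum]
  have hH := T1_H_nonneg x
  calc ∑ m ∈ Icc 1 x, (m.divisors.card : ℝ) ^ 2
      ≤ ∑ m ∈ Icc 1 x, ∑ a ∈ Icc 1 x, ∑ k ∈ Icc 1 (x / a), (if a * k = m then
          (a.divisors.card : ℝ) * k.divisors.card else 0) := by
        refine Finset.sum_le_sum fun m hm => ?_
        have hm' := mem_Icc.1 hm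
        have h1 : (m.divisors.card : ℝ) ^ 2 = ∑ a ∈ m.divisors, (m.divisors.card : ℝ) := by
          rw [Finset.sum_const, nsmul_eq_mul, sq]
        rw [h1]
        calc ∑ a ∈ m.divisors, (m.divisors.card : ℝ)
            ≤ ∑ a ∈ m.divisors, ∑ k ∈ Icc 1 (x / a), (if a * k = m then
              (a.divisors.card : ℝ) * k.divisors.card else 0) := by
              refine Finset.sum_le_sum fun a ha => ?_
              have ha' := Nat.mem_divisors.1 ha
              obtain ⟨k, hk⟩ := ha'.1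
              have ha0 : 0 < a := Nat.pos_of_dvd_of_pos ha'.1 (by omega)
              have hk0 : 0 < k := by
                rcases Nat.eq_zero_or_pos k with h | h
                · subst h; omega
                · exact h
              have hkm : k ∈ Icc 1 (x / a) := by
                rw [mem_Icc]
                refine ⟨hk0, ?_⟩
                rw [Nat.le_div_iff_mul_le ha0, mul_comm, ← hk]
                exact hm'.2
              have h2 := T1_card_mul a k
              rw [← hk] at h2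
              refine h2.trans ?_
              have h3 : (a.divisors.card : ℝ) * k.divisors.card = (if a * k = m then
                  (a.divisors.card : ℝ) * k.divisors.card else 0) := by rw [if_pos hk.symm]
              rw [h3]
              exact Finset.single_le_sum (f := fun k => if a * k = m then
                (a.divisors.card : ℝ) * k.divisors.card else 0)
                (fun i _ => ite_nonneg (mul_nonneg (Nat.cast_nonneg _) (Nat.cast_nonneg _)) le_rfl) hkm
          _ ≤ _ := by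
              refine Finset.sum_le_sum_of_subset_of_nonneg ?_ fun a _ _ =>
                Finset.sum_nonneg fun k _ =>
                  ite_nonneg (mul_nonneg (Nat.cast_nonneg _) (Nat.cast_nonneg _)) le_rfl
              intro a ha
              have ha' := Nat.mem_divisors.1 ha
              rw [mem_Icc]
              exact ⟨Nat.pos_of_dvd_of_pos ha'.1 (by omega), (Nat.le_of_dvd (by omega) ha'.1).trans hm'.2⟩
    _ ≤ ∑ a ∈ Icc 1 x, ∑ k ∈ Icc 1 (x / a), (a.divisors.card : ℝ) * k.divisors.card := by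
        rw [Finset.sum_comm]
        refine Finset.sum_le_sum fun a _ => ?_
        rw [Finset.sum_comm]
        refine Finset.sum_le_sum fun k _ => ?_
        rw [Finset.sum_ite_eq]
        split_ifs
        · exact le_rfl
        · positivity
    _ ≤ ∑ a ∈ Icc 1 x, (a.divisors.card : ℝ) * ((x : ℝ) / a * T1_H x) := by
        refine Finset.sum_le_sum fun a ha => ?_
        rw [← Finset.mul_sum]
        refine mul_le_mul_of_nonneg_left ?_ (by positivity)
        refine (hA (x / a)).trans ?_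
        refine mul_le_mul Nat.cast_div_le (T1_H_mono (Nat.div_le_self x a)) (T1_H_nonneg _) (by positivity)
    _ = (x * T1_H x) * ∑ a ∈ Icc 1 x, (a.divisors.card : ℝ) ^ 1 / a := by
        rw [Finset.mul_sum]
        refine Finset.sum_congr rfl fun a _ => ?_
        rw [pow_one]
        ring
    _ ≤ (x * T1_H x) * T1_H x ^ (2 ^ 1) := by
        refine mul_le_mul_of_nonneg_left (T1_tau_pow 1 x) (by positivity)
    _ = x * T1_H x ^ 3 := by ring
    _ ≤ x * (1 + Real.log x) ^ 3 := by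
        refine mul_le_mul_of_nonneg_left (pow_le_pow_left₀ hH (T1_H_le x) 3) (by positivity)

theorem sum_C_phi (C : ℕ) : ∃ C1 : ℕ, ∀ x : ℕ, 3 ≤ x →
    ∑ q ∈ Icc 1 x, (C : ℝ) ^ q.primeFactors.card / (q.totient : ℝ) ≤ (C1 * Real.log x) ^ C1 := by
  refine ⟨2 ^ (C + 1), fun x hx => ?_⟩
  have hlog : 1 ≤ Real.log x := by
    rw [Real.le_log_iff_exp_le (by have : (0 : ℝ) < 3 := by norm_num
                                   have h3 : (3 : ℝ) ≤ x := by exact_mod_cast hx
                                   linarith)]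
    have h3 : (3 : ℝ) ≤ x := by exact_mod_cast hx
    have := Real.exp_one_lt_d9
    linarith
  have h1 : ∑ q ∈ Icc 1 x, (C : ℝ) ^ q.primeFactors.card / (q.totient : ℝ) ≤
      ∑ q ∈ Icc 1 x, (q.divisors.card : ℝ) ^ (C + 1) / q := by
    refine Finset.sum_le_sum fun q hq => ?_
    have hq0 : q ≠ 0 := by rw [mem_Icc] at hq; omega
    have hqR : (0 : ℝ) < q := by exact_mod_cast Nat.pos_of_ne_zero hq0
    have h2 : 1 / (q.totient : ℝ) ≤ (1 / q) * 2 ^ q.primeFactors.card := by
      rw [T1_tot q hq0]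
      refine mul_le_mul_of_nonneg_left ?_ (by positivity)
      rw [← Finset.prod_const]
      refine Finset.prod_le_prod (fun p hp => ?_) fun p hp => ?_
      · have h3 : (2 : ℝ) ≤ (p : ℝ) := by exact_mod_cast (Nat.mem_primeFactors.1 hp).1.two_le
        have h4 : 0 < (p : ℝ) - 1 := by linarith
        positivity
      · have h3 : (2 : ℝ) ≤ (p : ℝ) := by exact_mod_cast (Nat.mem_primeFactors.1 hp).1.two_le
        have h4 : 0 < (p : ℝ) - 1 := by linarith
        have h5 : 1 / ((p : ℝ) - 1) ≤ 1 := by rw [div_le_one h4]; linarith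
        linarith
    have h6 : (C : ℝ) * 2 ≤ 2 ^ (C + 1) := by
      have h7 : C < 2 ^ C := Nat.lt_two_pow_self
      have h8 : (C : ℝ) ≤ 2 ^ C := by exact_mod_cast h7.le
      rw [pow_succ]
      linarith
    calc (C : ℝ) ^ q.primeFactors.card / (q.totient : ℝ)
        = (C : ℝ) ^ q.primeFactors.card * (1 / (q.totient : ℝ)) := by ring
      _ ≤ (C : ℝ) ^ q.primeFactors.card * ((1 / q) * 2 ^ q.primeFactors.card) :=
          mul_le_mul_of_nonneg_left h2 (by positivity)
      _ = ((C : ℝ) * 2) ^ q.primeFactors.card / q := by rw [mul_pow]; ring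
      _ ≤ ((2 : ℝ) ^ (C + 1)) ^ q.primeFactors.card / q := by
          refine div_le_div_of_nonneg_right (pow_le_pow_left₀ (by positivity) h6 _) hqR.le
      _ = ((2 : ℝ) ^ q.primeFactors.card) ^ (C + 1) / q := by rw [← pow_mul, ← pow_mul, mul_comm]
      _ ≤ (q.divisors.card : ℝ) ^ (C + 1) / q := by
          refine div_le_div_of_nonneg_right (pow_le_pow_left₀ (by positivity) (T1_pow_card_le q hq0) _)
            hqR.le
  have hC1 : (2 : ℝ) ≤ ((2 ^ (C + 1) : ℕ) : ℝ) := by
    have : 2 ≤ 2 ^ (C + 1) := by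
      calc 2 = 2 ^ 1 := rfl
        _ ≤ 2 ^ (C + 1) := Nat.pow_le_pow_right (by norm_num) (by omega)
    exact_mod_cast this
  calc ∑ q ∈ Icc 1 x, (C : ℝ) ^ q.primeFactors.card / (q.totient : ℝ)
      ≤ _ := h1
    _ ≤ T1_H x ^ (2 ^ (C + 1)) := T1_tau_pow (C + 1) x
    _ ≤ (((2 ^ (C + 1) : ℕ) : ℝ) * Real.log x) ^ (2 ^ (C + 1)) := by
        refine pow_le_pow_left₀ (T1_H_nonneg x) ?_ _
        refine (T1_H_le x).trans ?_
        nlinarith

end Pool.Agent.LibBW4
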