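import Pool.Agent.LibBW4.R2
import Pool.Agent.LibBW4.T1

/-!
Row GD (MEDIUM/STRONG, bookkeeping): the general bilinear theorem. Split `(a, b]` into the dyadic pieces `(x, 2x] ∩ (a, b]`, `x = a 2^i` (at most `log₂ N + 1` of them). On each piece R2 with `Y = N/x ∈ [N^η, N^(1-η)]` (floor, `f m ≤ N/m ≤ N/x`), `L = ⌊(log N)^B⌋`,
`A2 ≤ 2 x (log N)^D`, `A1 ≤ sqrt(2x A2)`, `B2 ≤ Y (log N)²`, `E = Y/(log Y)^K ≤ Y/(η log N)^K`. `tS Q ≤ C (1 + log N)`. Total: `(log N)^4 C' [ (log N)^B x (log N)^(D/2+1) Y/(η log N)^K + sqrt(x Y) (log N)^(D/2+2) ( sqrt(xY)/(log N)^B + (N^((1-η)/2) + ..) log N + N^θ ) ]`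
with `x Y ≤ N`: take `B = A + D + 10`, `K = B + A + D + 10`; the condition of the hypothesis (`r ≤ (log Y)^K`) holds for `r ≤ (log N)^B`, because `(log Y)^K ≥ (η log N)^K ≥ (log N)^B` for large `N`.
-/

open Finset

namespace Pool.Agent.LibBW4

open Filter in
private lemma ev_pow (c : ℝ) (k : ℕ) {ε : ℝ} (hε : 0 < ε) :
    ∀ᶠ N : ℕ in atTop, c * Real.log N ^ k ≤ (N : ℝ) ^ ε := by
  have h1 := (isLittleO_log_rpow_rpow_atTop (k : ℝ) hε).bound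
    (by positivity : (0 : ℝ) < 1 / (|c| + 1))
  have h2 : ∀ᶠ N : ℕ in atTop, ‖Real.log (N : ℝ) ^ (k : ℝ)‖ ≤ 1 / (|c| + 1) * ‖(N : ℝ) ^ ε‖ :=
    tendsto_natCast_atTop_atTop.eventually h1
  filter_upwards [h2] with N hN
  rw [Real.rpow_natCast, Real.norm_eq_abs, Real.norm_eq_abs,
    abs_of_nonneg (Real.rpow_nonneg (Nat.cast_nonneg N) ε)] at hN
  have h3 : (0 : ℝ) < |c| + 1 := by positivity
  have h4 : (|c| + 1) * |Real.log (N : ℝ) ^ k| ≤ (N : ℝ) ^ ε := by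
    rw [div_mul_eq_mul_div, one_mul, le_div_iff₀ h3] at hN
    linarith
  have h5 : c * Real.log N ^ k ≤ |c| * |Real.log (N : ℝ) ^ k| := by
    rw [← abs_mul]
    exact le_abs_self _
  have h6 := abs_nonneg (Real.log (N : ℝ) ^ k)
  linarith

private lemma natlog_le {n N : ℕ} (h : n ≤ N) (_hN : 1 ≤ N) :
    (Nat.log 2 n : ℝ) ≤ 2 * Real.log N := by
  have hl : 0 ≤ Real.log N := Real.log_natCast_nonneg N
  rcases Nat.eq_zero_or_pos n with h0 | h0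
  · subst h0
    rw [Nat.log_zero_right, Nat.cast_zero]
    linarith
  · have h1 : 2 ^ Nat.log 2 n ≤ n := Nat.pow_log_le_self 2 h0.ne'
    have h2 : (2 : ℝ) ^ Nat.log 2 n ≤ N := by exact_mod_cast h1.trans h
    have h3 := Real.log_le_log (by positivity) h2
    rw [Real.log_pow] at h3
    have h4 : (1 / 2 : ℝ) < Real.log 2 := by linarith [Real.log_two_gt_d9]
    have h5 : (0 : ℝ) ≤ Nat.log 2 n := Nat.cast_nonneg _
    have h6 := mul_le_mul_of_nonneg_left h4.le h5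
    linarith

private lemma tS_nonneg (Q : ℕ) : 0 ≤ tS Q :=
  Finset.sum_nonneg (fun _ _ => div_nonneg zero_le_one (Nat.cast_nonneg _))

/-- the bound of one dyadic piece -/
private lemma piece {C : ℝ} (hC : 0 < C) (htS : ∀ Q : ℕ, tS Q ≤ C * (1 + Real.log Q))
    (B D K : ℕ) {θ η : ℝ} (hη : 0 < η) {N : ℕ} (hN : 1 ≤ N) (hℓ : 1 ≤ Real.log N)
    (hB2 : 2 ≤ Real.log N ^ B) (hLK : Real.log N ^ B ≤ (η / 2 * Real.log N) ^ K)
    (hNη : (N : ℝ) ^ (η / 2) ≤ (N : ℝ) ^ η - 1) (hQN : (N : ℝ) ^ θ ≤ N)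
    {α β : ℕ → ℂ}
    (hα : ∀ x : ℕ, 1 ≤ x → x ≤ N → ∑ m ∈ Icc 1 x, ‖α m‖ ^ 2 ≤ x * Real.log N ^ D)
    (hβ : ∀ k, k ≤ N → ‖β k‖ ≤ Real.log N)
    (hψ : ∀ Y : ℕ, (N : ℝ) ^ (η / 2) ≤ Y → Y ≤ N → ∀ s : ℕ, 1 ≤ s → s ≤ N → ∀ r : ℕ, 2 ≤ r →
      (r : ℝ) ≤ Real.log Y ^ K → ∀ ψ ∈ Prm r, ∀ k0 k1 : ℕ, k0 ≤ k1 → k1 ≤ Y →
        ‖cs β k0 k1 s ψ‖ ≤ Y / Real.log Y ^ K)
    {u v : ℕ} (huv : u < v) (hv2 : v ≤ 2 * u) (hu : (N : ℝ) ^ η ≤ u)
    (hv : (v : ℝ) ≤ (N : ℝ) ^ (1 - η)) {f : ℕ → ℕ} (hf : Antitone f ∨ Monotone f)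
    (hfN : ∀ m ∈ Ioc u v, m * f m ≤ N) (c : ℕ → ℕ) (hc : ∀ q, (c q).Coprime q) :
    ∑ q ∈ Icc 1 ⌊(N : ℝ) ^ θ⌋₊, ‖regn α β u v f q (c q)‖ ≤
      10 * C * Real.log N ^ 2 * (N * (2 * Real.log N ^ (B + D) * ((η / 2 * Real.log N) ^ K)⁻¹ +
        400 * Real.log N ^ (D + 2) * (4 / Real.log N ^ B + 12 * Real.log N * (N : ℝ) ^ (-(η / 2)) +
          (N : ℝ) ^ (θ - 1 / 2)))) := by
  set ℓ : ℝ := Real.log N with hℓdef
  have hℓ0 : 0 < ℓ := by linarith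
  have hN0 : (0 : ℝ) < N := by exact_mod_cast hN
  have hN1 : (1 : ℝ) ≤ N := by exact_mod_cast hN
  set Q : ℕ := ⌊(N : ℝ) ^ θ⌋₊ with hQ
  have hQθ : (Q : ℝ) ≤ (N : ℝ) ^ θ := Nat.floor_le (Real.rpow_nonneg hN0.le θ)
  have hQN' : Q ≤ N := by exact_mod_cast hQθ.trans hQN
  set L : ℕ := ⌊ℓ ^ B⌋₊ with hL
  have hLle : (L : ℝ) ≤ ℓ ^ B := Nat.floor_le (by positivity)
  have hLge : ℓ ^ B / 2 ≤ L := by
    have := Nat.lt_floor_add_one (ℓ ^ B)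
    rw [← hL] at this
    linarith
  have hL1 : 1 ≤ L := by
    have : (0 : ℝ) < L := by linarith
    exact_mod_cast this
  have hL0 : (0 : ℝ) < L := by exact_mod_cast hL1
  have hupos : (0 : ℝ) < u := lt_of_lt_of_le (Real.rpow_pos_of_pos hN0 η) hu
  have hu1 : 1 ≤ u := by exact_mod_cast hupos
  have hu1' : (1 : ℝ) ≤ u := by exact_mod_cast hu1
  have huv' : (u : ℝ) < v := by exact_mod_cast huv
  have hv2' : (v : ℝ) ≤ 2 * u := by exact_mod_cast hv2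
  have hvN' : (v : ℝ) ≤ N := by
    refine hv.trans ?_
    calc (N : ℝ) ^ (1 - η) ≤ (N : ℝ) ^ (1 : ℝ) :=
          Real.rpow_le_rpow_of_exponent_le hN1 (by linarith)
      _ = N := Real.rpow_one _
  have hvN : v ≤ N := by exact_mod_cast hvN'
  have huN : (u : ℝ) ≤ (N : ℝ) ^ (1 - η) := huv'.le.trans hv
  -- N / u
  set Y : ℕ := N / u with hY
  have hYle : (Y : ℝ) ≤ N / u := Nat.cast_div_le
  have hYN : Y ≤ N := Nat.div_le_self N u
  have hdivge : (N : ℝ) ^ η ≤ N / u := by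
    rw [le_div_iff₀ hupos]
    calc (N : ℝ) ^ η * u ≤ (N : ℝ) ^ η * (N : ℝ) ^ (1 - η) :=
          mul_le_mul_of_nonneg_left huN (Real.rpow_nonneg hN0.le η)
      _ = (N : ℝ) ^ (1 : ℝ) := by rw [← Real.rpow_add hN0]; congr 1; ring
      _ = N := Real.rpow_one _
  have hYge' : (N : ℝ) / u < Y + 1 := by
    rw [div_lt_iff₀ hupos]
    have h1 : N < u * (N / u + 1) := Nat.lt_mul_div_succ N (by omega)
    have h2 : (N : ℝ) < u * ((N / u : ℕ) + 1) := by exact_mod_cast h1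
    rw [← hY] at h2
    linarith
  have hYge : (N : ℝ) ^ (η / 2) ≤ Y := by linarith
  have hdivle : (N : ℝ) / u ≤ (N : ℝ) ^ (1 - η) := by
    rw [div_le_iff₀ hupos]
    calc (N : ℝ) = (N : ℝ) ^ (1 : ℝ) := (Real.rpow_one _).symm
      _ = (N : ℝ) ^ (1 - η) * (N : ℝ) ^ η := by rw [← Real.rpow_add hN0]; congr 1; ring
      _ ≤ (N : ℝ) ^ (1 - η) * u := mul_le_mul_of_nonneg_left hu (Real.rpow_nonneg hN0.le _)
  have hdiv1 : (1 : ℝ) ≤ N / u := by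
    rw [le_div_iff₀ hupos]; linarith
  have hlogY : η / 2 * ℓ ≤ Real.log Y := by
    rw [hℓdef, ← Real.log_rpow hN0]
    exact Real.log_le_log (Real.rpow_pos_of_pos hN0 _) hYge
  have hηℓ : 0 < η / 2 * ℓ := by positivity
  have hW : (η / 2 * ℓ) ^ K ≤ Real.log Y ^ K := pow_le_pow_left₀ hηℓ.le hlogY K
  have hWpos : 0 < (η / 2 * ℓ) ^ K := pow_pos hηℓ K
  set W : ℝ := ((η / 2 * ℓ) ^ K)⁻¹ with hWdef
  have hW0 : 0 < W := inv_pos.mpr hWpos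
  set E : ℝ := N / u * W with hEdef
  have hE0 : 0 ≤ E := by positivity
  have hYE : (Y : ℝ) / Real.log Y ^ K ≤ E := by
    rw [div_eq_mul_inv, hEdef]
    apply mul_le_mul hYle _ (by positivity) (by positivity)
    rw [hWdef]
    exact inv_anti₀ hWpos hW
  have hE : ∀ s ∈ Icc 1 Q, ∀ r ∈ Icc 2 L, ∀ ψ ∈ Prm r, ∀ k0 k1 : ℕ, k0 ≤ k1 → k1 ≤ Y →
      ‖cs β k0 k1 s ψ‖ ≤ E := by
    intro s hs r hr ψ hψ' k0 k1 h01 h1
    rw [Finset.mem_Icc] at hs hr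
    refine (hψ Y hYge hYN s hs.1 (hs.2.trans hQN') r hr.1 ?_ ψ hψ' k0 k1 h01 h1).trans hYE
    have : (r : ℝ) ≤ L := by exact_mod_cast hr.2
    linarith
  have hfY : ∀ m ∈ Ioc u v, f m ≤ Y := by
    intro m hm
    have h1 := hfN m hm
    rw [Finset.mem_Ioc] at hm
    rw [hY, Nat.le_div_iff_mul_le (by omega)]
    calc f m * u ≤ f m * m := Nat.mul_le_mul_left _ hm.1.le
      _ = m * f m := Nat.mul_comm _ _
      _ ≤ N := h1
  have hreg := region Q L hL1 α β u v Y huv f hf hfY c hc E hE0 hE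
  -- sums of α
  set A2 : ℝ := ∑ m ∈ Ioc u v, ‖α m‖ ^ 2 with hA2
  set A1 : ℝ := ∑ m ∈ Ioc u v, ‖α m‖ with hA1
  set B2 : ℝ := ∑ k ∈ Ioc 0 Y, ‖β k‖ ^ 2 with hB2'
  have hA20 : 0 ≤ A2 := Finset.sum_nonneg (fun m _ => sq_nonneg _)
  have hA10 : 0 ≤ A1 := Finset.sum_nonneg (fun m _ => norm_nonneg _)
  have hB20 : 0 ≤ B2 := Finset.sum_nonneg (fun m _ => sq_nonneg _)
  have hD1 : 1 ≤ ℓ ^ D := one_le_pow₀ hℓ
  have hA2le : A2 ≤ 2 * u * ℓ ^ D := by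
    have h1 : A2 ≤ ∑ m ∈ Icc 1 v, ‖α m‖ ^ 2 := by
      apply Finset.sum_le_sum_of_subset_of_nonneg
      · intro m hm
        rw [Finset.mem_Ioc] at hm
        rw [Finset.mem_Icc]
        omega
      · intro m _ _; exact sq_nonneg _
    have h2 := hα v (by omega) hvN
    have h3 : (v : ℝ) * ℓ ^ D ≤ 2 * u * ℓ ^ D := mul_le_mul_of_nonneg_right hv2' (by positivity)
    linarith
  have hA1le : A1 ≤ 2 * u * ℓ ^ D := by
    have h1 : A1 ^ 2 ≤ (Ioc u v).card * A2 := sq_sum_le_card_mul_sum_sq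
    rw [Nat.card_Ioc, Nat.cast_sub huv.le] at h1
    have h2 : ((v : ℝ) - u) * A2 ≤ u * (2 * u * ℓ ^ D) :=
      mul_le_mul (by linarith) hA2le hA20 hupos.le
    have h3 : (u : ℝ) * (2 * u * ℓ ^ D) ≤ (2 * u * ℓ ^ D) ^ 2 := by
      have h4 : (u : ℝ) ≤ 2 * u * ℓ ^ D := by nlinarith
      rw [sq]
      exact mul_le_mul_of_nonneg_right h4 (by positivity)
    have h5 : A1 ^ 2 ≤ (2 * u * ℓ ^ D) ^ 2 := by linarith
    exact (sq_le_sq₀ hA10 (by positivity)).mp h5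
  have hB2le : B2 ≤ N / u * ℓ ^ 2 := by
    have h1 : B2 ≤ ∑ k ∈ Ioc 0 Y, ℓ ^ 2 := by
      apply Finset.sum_le_sum
      intro k hk
      rw [Finset.mem_Ioc] at hk
      exact pow_le_pow_left₀ (norm_nonneg _) (hβ k (hk.2.trans hYN)) 2
    rw [Finset.sum_const, Nat.card_Ioc, nsmul_eq_mul, Nat.sub_zero] at h1
    exact h1.trans (mul_le_mul_of_nonneg_right hYle (by positivity))
  set sN : ℝ := Real.sqrt N with hsN
  have hsN0 : 0 ≤ sN := Real.sqrt_nonneg _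
  have hsN2 : sN * sN = N := Real.mul_self_sqrt hN0.le
  have hsNr : sN = (N : ℝ) ^ (1 / 2 : ℝ) := Real.sqrt_eq_rpow _
  have huu : (u : ℝ) * (N / u) = N := by field_simp
  have hℓ2 : 1 ≤ ℓ ^ (D + 2) := one_le_pow₀ hℓ
  have hsAB : Real.sqrt (A2 * B2) ≤ 2 * sN * ℓ ^ (D + 2) := by
    apply Real.sqrt_le_iff.mpr
    refine ⟨by positivity, ?_⟩
    have h1 : A2 * B2 ≤ (2 * u * ℓ ^ D) * (N / u * ℓ ^ 2) :=
      mul_le_mul hA2le hB2le hB20 (by positivity)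
    have h2 : (2 * u * ℓ ^ D) * (N / u * ℓ ^ 2) = 2 * N * ℓ ^ (D + 2) := by
      calc (2 * u * ℓ ^ D) * (N / u * ℓ ^ 2) = 2 * (u * (N / u)) * (ℓ ^ D * ℓ ^ 2) := by ring
        _ = 2 * N * ℓ ^ (D + 2) := by rw [huu, pow_add]
    have h3 : (2 * sN * ℓ ^ (D + 2)) ^ 2 = 4 * (sN * sN) * (ℓ ^ (D + 2) * ℓ ^ (D + 2)) := by ring
    rw [h3, hsN2]
    rw [h2] at h1
    have h4 : ℓ ^ (D + 2) ≤ ℓ ^ (D + 2) * ℓ ^ (D + 2) :=
      le_mul_of_one_le_right (by positivity) hℓ2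
    have h5 : (2 : ℝ) * N * ℓ ^ (D + 2) ≤ 4 * N * (ℓ ^ (D + 2) * ℓ ^ (D + 2)) := by
      apply mul_le_mul _ h4 (by positivity) (by positivity)
      linarith
    linarith
  set X : ℝ := (v : ℝ) - u + 1 with hX
  set Y' : ℝ := (Y : ℝ) + 1 with hY'
  have hX0 : 0 ≤ X := by rw [hX]; linarith
  have hY'0 : 0 ≤ Y' := by positivity
  have hXle : X ≤ 2 * u := by linarith
  have hY'le : Y' ≤ 2 * (N / u) := by linarith
  have hsXY : Real.sqrt (X * Y') ≤ 2 * sN := by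
    apply Real.sqrt_le_iff.mpr
    refine ⟨by positivity, ?_⟩
    have h1 : X * Y' ≤ (2 * u) * (2 * (N / u)) := mul_le_mul hXle hY'le hY'0 (by positivity)
    have h2 : (2 * (u : ℝ)) * (2 * (N / u)) = 4 * (u * (N / u)) := by ring
    have h3 : (2 * sN) ^ 2 = 4 * (sN * sN) := by ring
    rw [h3, hsN2]
    rw [h2, huu] at h1
    exact h1
  set P : ℝ := (N : ℝ) ^ (-(η / 2)) with hP
  have hP0 : 0 < P := Real.rpow_pos_of_pos hN0 _
  have hPs : (sN * P) * (sN * P) = (N : ℝ) ^ (1 - η) := by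
    have h1 : (sN * P) * (sN * P) = (sN * sN) * (P * P) := by ring
    rw [h1, hsN2, hP, ← Real.rpow_add hN0]
    nth_rewrite 1 [← Real.rpow_one (N : ℝ)]
    rw [← Real.rpow_add hN0]
    congr 1
    ring
  have hsX : Real.sqrt X ≤ 2 * (sN * P) := by
    apply Real.sqrt_le_iff.mpr
    refine ⟨by positivity, ?_⟩
    have h3 : (2 * (sN * P)) ^ 2 = 4 * ((sN * P) * (sN * P)) := by ring
    rw [h3, hPs]
    linarith
  have hsY : Real.sqrt Y' ≤ 2 * (sN * P) := by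
    apply Real.sqrt_le_iff.mpr
    refine ⟨by positivity, ?_⟩
    have h3 : (2 * (sN * P)) ^ 2 = 4 * ((sN * P) * (sN * P)) := by ring
    rw [h3, hPs]
    linarith
  set R : ℝ := (N : ℝ) ^ (θ - 1 / 2) with hR
  have hR0 : 0 < R := Real.rpow_pos_of_pos hN0 _
  have hQR : (Q : ℝ) ≤ sN * R := by
    rw [hsNr, hR, ← Real.rpow_add hN0]
    have : (1 / 2 : ℝ) + (θ - 1 / 2) = θ := by ring
    rw [this]
    exact hQθ
  have hlogQ : (Nat.log 2 Q : ℝ) + 1 ≤ 3 * ℓ := by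
    have := natlog_le hQN' hN
    rw [← hℓdef] at this
    linarith
  have hBinv : Real.sqrt (X * Y') / L ≤ sN * (4 / ℓ ^ B) := by
    rw [div_le_iff₀ hL0]
    have h1 : sN * (4 / ℓ ^ B) * (ℓ ^ B / 2) ≤ sN * (4 / ℓ ^ B) * L :=
      mul_le_mul_of_nonneg_left hLge (by positivity)
    have h2 : sN * (4 / ℓ ^ B) * (ℓ ^ B / 2) = 2 * sN := by
      have : ℓ ^ B ≠ 0 := by positivity
      field_simp
      ring
    linarith
  have hmid : (Real.sqrt X + Real.sqrt Y') * (Nat.log 2 Q + 1) ≤ sN * (12 * ℓ * P) := by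
    have h1 : (Real.sqrt X + Real.sqrt Y') * (Nat.log 2 Q + 1) ≤ (4 * (sN * P)) * (3 * ℓ) := by
      apply mul_le_mul _ hlogQ (by positivity) (by positivity)
      linarith
    have h2 : (4 * (sN * P)) * (3 * ℓ) = sN * (12 * ℓ * P) := by ring
    linarith
  have hbd : bd Q L X Y' A1 A2 B2 E ≤ N * (2 * ℓ ^ (B + D) * W +
      400 * ℓ ^ (D + 2) * (4 / ℓ ^ B + 12 * ℓ * P + R)) := by
    rw [bd]
    have h1 : (L : ℝ) * A1 * E ≤ N * (2 * ℓ ^ (B + D) * W) := by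
      have h2 : (L : ℝ) * A1 ≤ ℓ ^ B * (2 * u * ℓ ^ D) :=
        mul_le_mul hLle hA1le hA10 (by positivity)
      have h3 : (L : ℝ) * A1 * E ≤ ℓ ^ B * (2 * u * ℓ ^ D) * E := mul_le_mul_of_nonneg_right h2 hE0
      have h4 : ℓ ^ B * (2 * u * ℓ ^ D) * E = N * (2 * ℓ ^ (B + D) * W) := by
        rw [hEdef]
        calc ℓ ^ B * (2 * u * ℓ ^ D) * (N / u * W) =
            (u * (N / u)) * (2 * (ℓ ^ B * ℓ ^ D) * W) := by ring
          _ = N * (2 * ℓ ^ (B + D) * W) := by rw [huu, pow_add]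
      linarith
    have h5 : 200 * Real.sqrt (A2 * B2) *
        (Real.sqrt (X * Y') / L + (Real.sqrt X + Real.sqrt Y') * (Nat.log 2 Q + 1) + Q) ≤
        N * (400 * ℓ ^ (D + 2) * (4 / ℓ ^ B + 12 * ℓ * P + R)) := by
      have h6 : Real.sqrt (X * Y') / L + (Real.sqrt X + Real.sqrt Y') * (Nat.log 2 Q + 1) + Q ≤
          sN * (4 / ℓ ^ B + 12 * ℓ * P + R) := by
        have : sN * (4 / ℓ ^ B + 12 * ℓ * P + R) =
          sN * (4 / ℓ ^ B) + sN * (12 * ℓ * P) + sN * R := by ring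
        linarith
      have h7 : 200 * Real.sqrt (A2 * B2) ≤ 200 * (2 * sN * ℓ ^ (D + 2)) := by linarith
      have h8 := mul_le_mul h7 h6 (by positivity) (by positivity)
      refine h8.trans (le_of_eq ?_)
      calc 200 * (2 * sN * ℓ ^ (D + 2)) * (sN * (4 / ℓ ^ B + 12 * ℓ * P + R)) =
          (sN * sN) * (400 * ℓ ^ (D + 2) * (4 / ℓ ^ B + 12 * ℓ * P + R)) := by ring
        _ = _ := by rw [hsN2]
    have h9 : N * (2 * ℓ ^ (B + D) * W + 400 * ℓ ^ (D + 2) * (4 / ℓ ^ B + 12 * ℓ * P + R)) =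
      N * (2 * ℓ ^ (B + D) * W) +
        N * (400 * ℓ ^ (D + 2) * (4 / ℓ ^ B + 12 * ℓ * P + R)) := by ring
    rw [h9]
    exact add_le_add h1 h5
  have hbd0 : 0 ≤ bd Q L X Y' A1 A2 B2 E := by
    rw [bd]
    positivity
  have htSQ : tS Q ≤ 2 * C * ℓ := by
    have h1 := htS Q
    have h2 : Real.log Q ≤ ℓ := by
      rcases Nat.eq_zero_or_pos Q with h0 | h0
      · rw [h0, Nat.cast_zero, Real.log_zero]; linarith
      · exact Real.log_le_log (by exact_mod_cast h0) (by exact_mod_cast hQN')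
    have h3 : C * (1 + Real.log Q) ≤ C * (2 * ℓ) := mul_le_mul_of_nonneg_left (by linarith) hC.le
    linarith
  have hlogv : (Nat.log 2 (v - u) + 3 : ℝ) ≤ 5 * ℓ := by
    have h1 : v - u ≤ N := (Nat.sub_le v u).trans hvN
    have := natlog_le h1 hN
    rw [← hℓdef] at this
    linarith
  refine hreg.trans ?_
  have h1 : tS Q * bd Q L X Y' A1 A2 B2 E ≤ (2 * C * ℓ) * (N * (2 * ℓ ^ (B + D) * W +
      400 * ℓ ^ (D + 2) * (4 / ℓ ^ B + 12 * ℓ * P + R))) :=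
    mul_le_mul htSQ hbd hbd0 (by positivity)
  have h2 := mul_le_mul hlogv h1 (mul_nonneg (tS_nonneg Q) hbd0) (by positivity)
  refine h2.trans (le_of_eq ?_)
  ring

/-- splitting into dyadic pieces -/
private lemma regn_split (α β : ℕ → ℂ) (a b : ℕ) (f : ℕ → ℕ) (q c t : ℕ) (hab : a ≤ b) :
    regn α β a (min (a * 2 ^ t) b) f q c =
      ∑ i ∈ range t, regn α β (min (a * 2 ^ i) b) (min (a * 2 ^ (i + 1)) b) f q c := by
  induction t with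
  | zero =>
    rw [pow_zero, mul_one, min_eq_left hab, range_zero, sum_empty, regn, Ioc_self, sum_empty]
  | succ t ih =>
    rw [sum_range_succ, ← ih]
    unfold regn
    rw [Finset.sum_Ioc_consecutive]
    · refine le_min ?_ hab
      exact Nat.le_mul_of_pos_right a (by positivity)
    · apply min_le_min_right
      exact Nat.mul_le_mul_left a (Nat.pow_le_pow_right (by norm_num) (by omega))

theorem bilinear (A D : ℕ) (θ η : ℝ) (hθ : θ < 1 / 2) (hη : 0 < η) : ∃ K N0 : ℕ, ∀ N ≥ N0, ∀ α β : ℕ → ℂ,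
    (∀ x : ℕ, 1 ≤ x → x ≤ N → ∑ m ∈ Icc 1 x, ‖α m‖ ^ 2 ≤ x * Real.log N ^ D) → (∀ k, k ≤ N → ‖β k‖ ≤ Real.log N) →
    (∀ Y : ℕ, (N : ℝ) ^ (η / 2) ≤ Y → Y ≤ N → ∀ s : ℕ, 1 ≤ s → s ≤ N → ∀ r : ℕ, 2 ≤ r → (r : ℝ) ≤ Real.log Y ^ K → ∀ ψ ∈ Prm r,
      ∀ k0 k1 : ℕ, k0 ≤ k1 → k1 ≤ Y → ‖cs β k0 k1 s ψ‖ ≤ Y / Real.log Y ^ K) →
    ∀ a b : ℕ, (N : ℝ) ^ η ≤ a → a ≤ b → (b : ℝ) ≤ (N : ℝ) ^ (1 - η) → ∀ f : ℕ → ℕ, (Antitone f ∨ Monotone f) →
    (∀ m ∈ Ioc a b, m * f m ≤ N) → ∀ c : ℕ → ℕ, (∀ q, (c q).Coprime q) →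
      ∑ q ∈ Icc 1 ⌊(N : ℝ) ^ θ⌋₊, ‖regn α β a b f q (c q)‖ ≤ N / Real.log N ^ A := by
  obtain ⟨C, hC, htS⟩ := tS_le
  set B : ℕ := A + D + 6 with hB
  set K : ℕ := B + A + D + 4 with hK
  have hlog : Filter.Tendsto (fun N : ℕ => Real.log (N : ℝ)) Filter.atTop Filter.atTop :=
    Real.tendsto_log_atTop.comp tendsto_natCast_atTop_atTop
  have e1 := hlog.eventually_ge_atTop 2
  have e2 := hlog.eventually_ge_atTop (192000 * C)
  have e3 := hlog.eventually_ge_atTop (240 * C * (2 / η) ^ K)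
  have e4 := ev_pow (576000 * C) (A + D + 6) (by positivity : 0 < η / 2)
  have e5 := ev_pow (48000 * C) (A + D + 5) (by linarith : 0 < 1 / 2 - θ)
  have e6 := hlog.eventually_ge_atTop ((2 / η) ^ K)
  have e7 : ∀ᶠ N : ℕ in Filter.atTop, (2 : ℝ) ≤ (N : ℝ) ^ (η / 2) :=
    ((tendsto_rpow_atTop (by positivity : 0 < η / 2)).comp
      tendsto_natCast_atTop_atTop).eventually_ge_atTop 2
  obtain ⟨N0, hN0⟩ := Filter.eventually_atTop.mp
    ((((((e1.and e2).and e3).and e4).and e5).and e6).and e7)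
  refine ⟨K, max N0 1, ?_⟩
  intro N hN α β hα hβ hψ a b ha hab hb f hf hfN c hc
  obtain ⟨⟨⟨⟨⟨⟨f1, f2⟩, f3⟩, f4⟩, f5⟩, f6⟩, f7⟩ := hN0 N ((le_max_left _ _).trans hN)
  have hN1 : 1 ≤ N := (le_max_right _ _).trans hN
  have hNp : (0 : ℝ) < N := by exact_mod_cast hN1
  have hN1' : (1 : ℝ) ≤ N := by exact_mod_cast hN1
  set ℓ : ℝ := Real.log N with hℓ
  have hℓ0 : 0 < ℓ := by linarith
  have hℓ1 : 1 ≤ ℓ := by linarith
  have hB2 : 2 ≤ ℓ ^ B := by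
    calc (2 : ℝ) ≤ ℓ := f1
      _ = ℓ ^ 1 := (pow_one _).symm
      _ ≤ ℓ ^ B := pow_le_pow_right₀ hℓ1 (by omega)
  have hηK : (η / 2 * ℓ) ^ K * (2 / η) ^ K = ℓ ^ K := by
    rw [← mul_pow]
    congr 1
    field_simp
  have h2η : 0 < (2 / η) ^ K := by positivity
  have hLK : ℓ ^ B ≤ (η / 2 * ℓ) ^ K := by
    have h1 : ℓ ^ B * (2 / η) ^ K ≤ (η / 2 * ℓ) ^ K * (2 / η) ^ K := by
      rw [hηK]
      calc ℓ ^ B * (2 / η) ^ K ≤ ℓ ^ B * ℓ := mul_le_mul_of_nonneg_left f6 (by positivity)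
        _ = ℓ ^ (B + 1) := (pow_succ _ _).symm
        _ ≤ ℓ ^ K := pow_le_pow_right₀ hℓ1 (by omega)
    exact le_of_mul_le_mul_right h1 h2η
  have hNη : (N : ℝ) ^ (η / 2) ≤ (N : ℝ) ^ η - 1 := by
    have h1 : (N : ℝ) ^ η = (N : ℝ) ^ (η / 2) * (N : ℝ) ^ (η / 2) := by
      rw [← Real.rpow_add hNp]; congr 1; ring
    rw [h1]
    nlinarith
  have hQN : (N : ℝ) ^ θ ≤ N := by
    calc (N : ℝ) ^ θ ≤ (N : ℝ) ^ (1 : ℝ) :=
          Real.rpow_le_rpow_of_exponent_le hN1' (by linarith)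
      _ = N := Real.rpow_one _
  set T : ℝ := 10 * C * ℓ ^ 2 * (N * (2 * ℓ ^ (B + D) * ((η / 2 * ℓ) ^ K)⁻¹ +
        400 * ℓ ^ (D + 2) * (4 / ℓ ^ B + 12 * ℓ * (N : ℝ) ^ (-(η / 2)) +
          (N : ℝ) ^ (θ - 1 / 2)))) with hT
  have hT0 : 0 ≤ T := by positivity
  have hap : (0 : ℝ) < a := lt_of_lt_of_le (Real.rpow_pos_of_pos hNp η) ha
  have ha1 : 1 ≤ a := by exact_mod_cast hap
  have hbN : b ≤ N := by
    have : (b : ℝ) ≤ N := hb.trans (by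
      calc (N : ℝ) ^ (1 - η) ≤ (N : ℝ) ^ (1 : ℝ) :=
            Real.rpow_le_rpow_of_exponent_le hN1' (by linarith)
        _ = N := Real.rpow_one _)
    exact_mod_cast this
  -- every piece
  have hpiece : ∀ i : ℕ, ∑ q ∈ Icc 1 ⌊(N : ℝ) ^ θ⌋₊,
      ‖regn α β (min (a * 2 ^ i) b) (min (a * 2 ^ (i + 1)) b) f q (c q)‖ ≤ T := by
    intro i
    by_cases hi : a * 2 ^ i < b
    · have h1 : min (a * 2 ^ i) b = a * 2 ^ i := min_eq_left hi.le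
      rw [h1]
      have h2 : a * 2 ^ (i + 1) = 2 * (a * 2 ^ i) := by ring
      have hpos : 0 < a * 2 ^ i := by positivity
      have hlt : a * 2 ^ i < min (a * 2 ^ (i + 1)) b := by
        refine lt_min ?_ hi
        rw [h2]; omega
      have hle2 : min (a * 2 ^ (i + 1)) b ≤ 2 * (a * 2 ^ i) := by
        rw [← h2]; exact min_le_left _ _
      have hge : (N : ℝ) ^ η ≤ ((a * 2 ^ i : ℕ) : ℝ) := by
        refine ha.trans ?_
        exact_mod_cast Nat.le_mul_of_pos_right a (by positivity)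
      have hvle : ((min (a * 2 ^ (i + 1)) b : ℕ) : ℝ) ≤ (N : ℝ) ^ (1 - η) := by
        refine le_trans ?_ hb
        exact_mod_cast min_le_right _ _
      have hfN' : ∀ m ∈ Ioc (a * 2 ^ i) (min (a * 2 ^ (i + 1)) b), m * f m ≤ N := by
        intro m hm
        apply hfN
        rw [Finset.mem_Ioc] at hm ⊢
        have h3 : a ≤ a * 2 ^ i := Nat.le_mul_of_pos_right a (by positivity)
        exact ⟨lt_of_le_of_lt h3 hm.1, hm.2.trans (min_le_right _ _)⟩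
      exact piece hC htS B D K hη hN1 hℓ1 hB2 hLK hNη hQN hα hβ hψ hlt hle2 hge hvle hf hfN' c hc
    · have h1 : min (a * 2 ^ i) b = b := min_eq_right (not_lt.mp hi)
      have h2 : min (a * 2 ^ (i + 1)) b = b := by
        apply min_eq_right
        refine (not_lt.mp hi).trans ?_
        exact Nat.mul_le_mul_left a (Nat.pow_le_pow_right (by norm_num) (by omega))
      rw [h1, h2]
      have h3 : ∀ q ∈ Icc 1 ⌊(N : ℝ) ^ θ⌋₊, ‖regn α β b b f q (c q)‖ = 0 := by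
        intro q _
        rw [regn, Ioc_self, sum_empty, norm_zero]
      rw [Finset.sum_eq_zero h3]
      exact hT0
  set I : ℕ := Nat.log 2 b + 1 with hI
  have hbI : b ≤ a * 2 ^ I := by
    have h1 : b < 2 ^ I := Nat.lt_pow_succ_log_self (by norm_num) b
    calc b ≤ 2 ^ I := h1.le
      _ ≤ a * 2 ^ I := Nat.le_mul_of_pos_left _ ha1
  have hsplit : ∀ q, regn α β a b f q (c q) =
      ∑ i ∈ range I, regn α β (min (a * 2 ^ i) b) (min (a * 2 ^ (i + 1)) b) f q (c q) := by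
    intro q
    rw [← regn_split α β a b f q (c q) I hab, min_eq_right hbI]
  have hIle : (I : ℝ) ≤ 3 * ℓ := by
    rw [hI]
    have := natlog_le hbN hN1
    push_cast
    rw [← hℓ] at this
    linarith
  have hsum : ∑ q ∈ Icc 1 ⌊(N : ℝ) ^ θ⌋₊, ‖regn α β a b f q (c q)‖ ≤ 3 * ℓ * T := by
    calc ∑ q ∈ Icc 1 ⌊(N : ℝ) ^ θ⌋₊, ‖regn α β a b f q (c q)‖
        ≤ ∑ q ∈ Icc 1 ⌊(N : ℝ) ^ θ⌋₊, ∑ i ∈ range I,
          ‖regn α β (min (a * 2 ^ i) b) (min (a * 2 ^ (i + 1)) b) f q (c q)‖ := by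
          apply Finset.sum_le_sum
          intro q _
          rw [hsplit q]
          exact norm_sum_le _ _
      _ = ∑ i ∈ range I, ∑ q ∈ Icc 1 ⌊(N : ℝ) ^ θ⌋₊,
          ‖regn α β (min (a * 2 ^ i) b) (min (a * 2 ^ (i + 1)) b) f q (c q)‖ :=
          Finset.sum_comm
      _ ≤ ∑ i ∈ range I, T := Finset.sum_le_sum (fun i _ => hpiece i)
      _ = I * T := by rw [Finset.sum_const, card_range, nsmul_eq_mul]
      _ ≤ 3 * ℓ * T := mul_le_mul_of_nonneg_right hIle hT0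
  refine hsum.trans ?_
  rw [le_div_iff₀ (by positivity)]
  -- the four terms
  set P : ℝ := (N : ℝ) ^ (-(η / 2)) with hP
  set R : ℝ := (N : ℝ) ^ (θ - 1 / 2) with hR
  have hP0 : 0 < P := Real.rpow_pos_of_pos hNp _
  have hR0 : 0 < R := Real.rpow_pos_of_pos hNp _
  have hPinv : (N : ℝ) ^ (η / 2) * P = 1 := by
    rw [hP, ← Real.rpow_add hNp, add_neg_cancel, Real.rpow_zero]
  have hRinv : (N : ℝ) ^ (1 / 2 - θ) * R = 1 := by
    rw [hR, ← Real.rpow_add hNp]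
    have : (1 / 2 - θ + (θ - 1 / 2) : ℝ) = 0 := by ring
    rw [this, Real.rpow_zero]
  have hWeq : ((η / 2 * ℓ) ^ K)⁻¹ = (2 / η) ^ K / ℓ ^ K := by
    have h1 : (η / 2 * ℓ) ^ K ≠ 0 := by positivity
    have h2 : ℓ ^ K ≠ 0 := by positivity
    rw [← hηK]
    field_simp
  have t1 : 60 * C * ℓ ^ (A + B + D + 3) * ((η / 2 * ℓ) ^ K)⁻¹ ≤ 1 / 4 := by
    rw [hWeq]
    have h1 : ℓ ^ K = ℓ ^ (A + B + D + 3) * ℓ := by
      rw [← pow_succ]; congr 1; omega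
    rw [h1]
    have h2 : 60 * C * ℓ ^ (A + B + D + 3) * ((2 / η) ^ K / (ℓ ^ (A + B + D + 3) * ℓ)) =
        60 * C * (2 / η) ^ K / ℓ := by
      have : ℓ ^ (A + B + D + 3) ≠ 0 := by positivity
      field_simp
    rw [h2, div_le_iff₀ hℓ0]
    linarith
  have t2 : 48000 * C * ℓ ^ (A + D + 5) / ℓ ^ B ≤ 1 / 4 := by
    have h1 : ℓ ^ B = ℓ ^ (A + D + 5) * ℓ := by
      rw [← pow_succ]
    rw [h1]
    have h2 : 48000 * C * ℓ ^ (A + D + 5) / (ℓ ^ (A + D + 5) * ℓ) = 48000 * C / ℓ := by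
      have : ℓ ^ (A + D + 5) ≠ 0 := by positivity
      field_simp
    rw [h2, div_le_iff₀ hℓ0]
    linarith
  have t3 : 144000 * C * ℓ ^ (A + D + 6) * P ≤ 1 / 4 := by
    have h1 := mul_le_mul_of_nonneg_right f4 hP0.le
    rw [hPinv] at h1
    linarith
  have t4 : 12000 * C * ℓ ^ (A + D + 5) * R ≤ 1 / 4 := by
    have h1 := mul_le_mul_of_nonneg_right f5 hR0.le
    rw [hRinv] at h1
    linarith
  have hfin : 3 * ℓ * T * ℓ ^ A = N * (60 * C * ℓ ^ (A + B + D + 3) * ((η / 2 * ℓ) ^ K)⁻¹ +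
      48000 * C * ℓ ^ (A + D + 5) / ℓ ^ B + 144000 * C * ℓ ^ (A + D + 6) * P +
      12000 * C * ℓ ^ (A + D + 5) * R) := by
    rw [hT]
    generalize ((η / 2 * ℓ) ^ K)⁻¹ = W
    have h1 : ℓ ^ (A + B + D + 3) = ℓ ^ A * ℓ ^ (B + D) * ℓ ^ 2 * ℓ := by
      ring
    have h2 : ℓ ^ (A + D + 5) = ℓ ^ A * ℓ ^ (D + 2) * ℓ ^ 2 * ℓ := by
      ring
    have h3 : ℓ ^ (A + D + 6) = ℓ ^ A * ℓ ^ (D + 2) * ℓ ^ 2 * ℓ * ℓ := by
      ring
    rw [h1, h2, h3]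
    generalize ℓ ^ (B + D) = z1
    generalize ℓ ^ (D + 2) = z2
    generalize ℓ ^ B = z3
    generalize ℓ ^ A = z4
    ring
  rw [hfin]
  calc (N : ℝ) * _ ≤ N * 1 := mul_le_mul_of_nonneg_left (by linarith) hNp.le
    _ = N := mul_one _

end Pool.Agent.LibBW4
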