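import Pool.Agent.LibBW4.S1

open Finset
open scoped ArithmeticFunction.vonMangoldt

/-!
Row S2 (SHORT/MEDIUM): Siegel-Walfisz for `∑_p ψ(p)`, by partial summation from S1 (exponent `K + 1`): the prime powers `p^k`, `k ≥ 2`, contribute at most `sqrt N * log N` or so to `∑ Λ ψ`; for `2 ≤ u` all partial sums `∑_{u < p ≤ t} log p ψ(p)` have norm
`≤ B = 2 N/(log N)^(K+1)`, and `1/log p` is decreasing, `≤ 1/log 2`: norm `≤ 2 B/log 2` (`Finset.sum_range_by_parts`, model `LibHG31/V2.lean` `norm_sum_log_le`).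
-/

namespace Pool.Agent.LibBW4

/-- Abel summation with a decreasing weight -/
private theorem S2_abel (c : ℕ → ℝ) (b : ℕ → ℂ) (u : ℕ) (B : ℝ) (hc0 : ∀ n, u + 1 ≤ n → 0 ≤ c n)
    (hc : ∀ n, u + 1 ≤ n → c (n + 1) ≤ c n) (v : ℕ) (hv : u + 1 ≤ v)
    (hB : ∀ t, u ≤ t → t ≤ v → ‖∑ n ∈ Ioc u t, b n‖ ≤ B) :
    ‖∑ n ∈ Ioc u v, (c n : ℂ) * b n‖ ≤ c (u + 1) * B := by
  have key : ∀ t, u + 1 ≤ t → t ≤ v → ‖∑ n ∈ Ioc u t, (c n : ℂ) * b n -
      (c t : ℂ) * ∑ n ∈ Ioc u t, b n‖ ≤ (c (u + 1) - c t) * B := by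
    intro t ht
    induction t, ht using Nat.le_induction with
    | base =>
      intro _
      simp
    | succ t ht ih =>
      intro htv
      have ih' := ih (by omega)
      have e1 : ∑ n ∈ Ioc u (t + 1), (c n : ℂ) * b n =
          ∑ n ∈ Ioc u t, (c n : ℂ) * b n + (c (t + 1) : ℂ) * b (t + 1) :=
        Finset.sum_Ioc_succ_top (by omega) _
      have e2 : ∑ n ∈ Ioc u (t + 1), b n = ∑ n ∈ Ioc u t, b n + b (t + 1) :=
        Finset.sum_Ioc_succ_top (by omega) _
      have e3 : ∑ n ∈ Ioc u (t + 1), (c n : ℂ) * b n - (c (t + 1) : ℂ) * ∑ n ∈ Ioc u (t + 1), b n =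
          (∑ n ∈ Ioc u t, (c n : ℂ) * b n - (c t : ℂ) * ∑ n ∈ Ioc u t, b n) +
            ((c t - c (t + 1) : ℝ) : ℂ) * ∑ n ∈ Ioc u t, b n := by
        rw [e1, e2]
        push_cast
        ring
      rw [e3]
      have h1 : ‖((c t - c (t + 1) : ℝ) : ℂ) * ∑ n ∈ Ioc u t, b n‖ ≤ (c t - c (t + 1)) * B := by
        rw [norm_mul, Complex.norm_real, Real.norm_of_nonneg (sub_nonneg.mpr (hc t ht))]
        exact mul_le_mul_of_nonneg_left (hB t (by omega) (by omega)) (sub_nonneg.mpr (hc t ht))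
      calc _ ≤ (c (u + 1) - c t) * B + (c t - c (t + 1)) * B :=
            (norm_add_le _ _).trans (add_le_add ih' h1)
        _ = (c (u + 1) - c (t + 1)) * B := by ring
  have h1 := key v hv le_rfl
  have h2 : ‖(c v : ℂ) * ∑ n ∈ Ioc u v, b n‖ ≤ c v * B := by
    rw [norm_mul, Complex.norm_real, Real.norm_of_nonneg (hc0 v hv)]
    exact mul_le_mul_of_nonneg_left (hB v (by omega) le_rfl) (hc0 v hv)
  have h3 : ∑ n ∈ Ioc u v, (c n : ℂ) * b n = (∑ n ∈ Ioc u v, (c n : ℂ) * b n -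
      (c v : ℂ) * ∑ n ∈ Ioc u v, b n) + (c v : ℂ) * ∑ n ∈ Ioc u v, b n := by ring
  rw [h3]
  calc _ ≤ (c (u + 1) - c v) * B + c v * B := (norm_add_le _ _).trans (add_le_add h1 h2)
    _ = c (u + 1) * B := by ring

/-- growth -/
private theorem S2_growth (K : ℕ) (c : ℝ) :
    ∃ N0 : ℕ, ∀ N : ℕ, N0 ≤ N → c * Real.log N ^ K ≤ Real.sqrt N := by
  have h1 : (fun x : ℝ => Real.log x ^ (2 * K)) =o[Filter.atTop] id :=
    Real.isLittleO_pow_log_id_atTop
  have hc : 0 < 1 / (c ^ 2 + 1) := by positivity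
  have h2 := h1.def hc
  have h3 := tendsto_natCast_atTop_atTop (R := ℝ) |>.eventually h2
  obtain ⟨N0, hN0⟩ := Filter.eventually_atTop.mp h3
  refine ⟨N0, fun N hN => ?_⟩
  have h4 := hN0 N hN
  rw [Real.norm_eq_abs, Real.norm_eq_abs, id, pow_mul, abs_of_nonneg (pow_nonneg (sq_nonneg _) _),
    abs_of_nonneg (Nat.cast_nonneg N)] at h4
  have h5 : (c * Real.log N ^ K) ^ 2 ≤ N := by
    have e1 : (c * Real.log N ^ K) ^ 2 = c ^ 2 * (Real.log N ^ 2) ^ K := by
      rw [mul_pow, ← pow_mul, ← pow_mul, mul_comm K 2]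
    rw [e1]
    have h6 : c ^ 2 * (Real.log N ^ 2) ^ K ≤ c ^ 2 * (1 / (c ^ 2 + 1) * N) :=
      mul_le_mul_of_nonneg_left h4 (sq_nonneg c)
    have h7 : c ^ 2 * (1 / (c ^ 2 + 1) * (N : ℝ)) ≤ (N : ℝ) := by
      have h8 : c ^ 2 * (1 / (c ^ 2 + 1)) ≤ 1 := by
        rw [mul_one_div, div_le_one (by positivity)]
        linarith
      calc c ^ 2 * (1 / (c ^ 2 + 1) * (N : ℝ)) = (c ^ 2 * (1 / (c ^ 2 + 1))) * (N : ℝ) := by ring
        _ ≤ 1 * (N : ℝ) := mul_le_mul_of_nonneg_right h8 (Nat.cast_nonneg N)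
        _ = (N : ℝ) := one_mul _
    exact h6.trans h7
  exact (le_abs_self _).trans (Real.abs_le_sqrt h5)

private theorem S2_lam_sub (m : ℕ) : Λ m - Real.log m * pr m = if m.Prime then 0 else Λ m := by
  unfold pr
  split_ifs with h
  · rw [ArithmeticFunction.vonMangoldt_apply_prime h, mul_one, sub_self]
  · rw [mul_zero, sub_zero]

private theorem S2_pp (N : ℕ) (hN : 1 ≤ N) :
    ∑ m ∈ Ioc 0 N, (Λ m - Real.log m * pr m) ≤ 2 * Real.sqrt N * Real.log N := by
  have h1 := Chebyshev.psi_sub_theta_le (x := (N : ℝ)) (by exact_mod_cast hN)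
  rw [Chebyshev.psi_sub_theta_eq_sum_not_prime, Nat.floor_natCast] at h1
  refine le_trans (le_of_eq ?_) h1
  rw [Finset.sum_filter]
  refine Finset.sum_congr rfl fun m _ => ?_
  rw [S2_lam_sub]
  by_cases hm : m.Prime
  · rw [if_pos hm, if_neg (not_not.mpr hm)]
  · rw [if_neg hm, if_pos hm]

theorem sw_pr (K D : ℕ) : ∃ N0 : ℕ, ∀ N ≥ N0, ∀ s : ℕ, 1 ≤ s → s ≤ N ^ D → ∀ r : ℕ, 2 ≤ r → (r : ℝ) ≤ Real.log N ^ K →
    ∀ ψ ∈ Prm r, ∀ u v : ℕ, u ≤ v → v ≤ N → ‖cs (fun n => ((pr n : ℝ) : ℂ)) u v s ψ‖ ≤ N / Real.log N ^ K := by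
  obtain ⟨N1, hN1⟩ := sw_lam (K + 1) D
  obtain ⟨N2, hN2⟩ := S2_growth (K + 1) 8
  refine ⟨N1 + N2 + ⌈Real.exp 4⌉₊ + 2, ?_⟩
  intro N hN s hs hsN r hr hrK ψ hψ u v huv hvN
  have hNN1 : N1 ≤ N := by omega
  have hNN2 : N2 ≤ N := by omega
  have hNN3 : ⌈Real.exp 4⌉₊ ≤ N := by omega
  have hNpos : (0 : ℝ) < N := by exact_mod_cast (by omega : 0 < N)
  have hlog : 4 ≤ Real.log N := by
    rw [Real.le_log_iff_exp_le hNpos]
    exact Nat.ceil_le.mp hNN3
  have hg := hN2 N hNN2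
  have hsq : Real.sqrt N * Real.sqrt N = N := Real.mul_self_sqrt hNpos.le
  set L := Real.log N with hL
  have hLpos : 0 < L := by linarith
  have hrK' : (r : ℝ) ≤ L ^ (K + 1) := by
    refine hrK.trans ?_
    exact pow_le_pow_right₀ (by linarith) (Nat.le_succ K)
  set g : ℕ → ℂ := fun m => if m.Coprime s then ψ (m : ZMod r) else 0 with hgdef
  have hgn : ∀ m, ‖g m‖ ≤ 1 := by
    intro m
    rw [hgdef]
    dsimp only
    split_ifs
    · exact ψ.norm_le_one _
    · simp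
  have hcs : ∀ (α : ℕ → ℂ) (a b : ℕ), cs α a b s ψ = ∑ m ∈ Ioc a b, α m * g m := by
    intro α a b
    unfold cs
    rw [Finset.sum_filter]
    refine Finset.sum_congr rfl fun m _ => ?_
    rw [hgdef]
    dsimp only
    split_ifs
    · rfl
    · rw [mul_zero]
  set B : ℝ := N / L ^ (K + 1) + 2 * Real.sqrt N * L with hB
  have hB0 : 0 ≤ B := by positivity
  -- partial sums
  have hpart : ∀ a t : ℕ, a ≤ t → t ≤ v →
      ‖∑ m ∈ Ioc a t, ((Real.log m * pr m : ℝ) : ℂ) * g m‖ ≤ B := by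
    intro a t hat htv
    have e1 : ∑ m ∈ Ioc a t, ((Real.log m * pr m : ℝ) : ℂ) * g m =
        cs (fun n => ((Λ n : ℝ) : ℂ)) a t s ψ -
          ∑ m ∈ Ioc a t, ((Λ m - Real.log m * pr m : ℝ) : ℂ) * g m := by
      rw [hcs, ← Finset.sum_sub_distrib]
      refine Finset.sum_congr rfl fun m _ => ?_
      push_cast
      ring
    rw [e1]
    refine (norm_sub_le _ _).trans (add_le_add ?_ ?_)
    · exact hN1 N hNN1 s hs hsN r hr hrK' ψ hψ a t hat (htv.trans hvN)
    · refine (norm_sum_le _ _).trans ?_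
      have h1 : ∀ m ∈ Ioc a t, ‖((Λ m - Real.log m * pr m : ℝ) : ℂ) * g m‖ ≤
          Λ m - Real.log m * pr m := by
        intro m _
        have h0 : 0 ≤ Λ m - Real.log m * pr m := by
          rw [S2_lam_sub]
          split_ifs
          · exact le_rfl
          · exact ArithmeticFunction.vonMangoldt_nonneg
        rw [norm_mul, Complex.norm_real, Real.norm_of_nonneg h0]
        calc _ ≤ (Λ m - Real.log m * pr m) * 1 := mul_le_mul_of_nonneg_left (hgn m) h0
          _ = _ := mul_one _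
      refine (Finset.sum_le_sum h1).trans (le_trans ?_ (S2_pp N (by omega)))
      apply Finset.sum_le_sum_of_subset_of_nonneg
      · intro m hm
        rw [Finset.mem_Ioc] at hm ⊢
        omega
      · intro m _ _
        rw [S2_lam_sub]
        split_ifs
        · exact le_rfl
        · exact ArithmeticFunction.vonMangoldt_nonneg
  -- final numbers
  have hfin : 2 * B ≤ N / L ^ K := by
    have h1 : 2 * (N / L ^ (K + 1)) ≤ (N / L ^ K) / 2 := by
      rw [pow_succ, ← div_div, ← mul_div_assoc]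
      rw [div_le_div_iff₀ hLpos two_pos]
      have h2 : 0 ≤ N / L ^ K := by positivity
      nlinarith
    have h2 : 2 * (2 * Real.sqrt N * L) ≤ (N / L ^ K) / 2 := by
      rw [div_div, le_div_iff₀ (by positivity)]
      calc 2 * (2 * Real.sqrt N * L) * (L ^ K * 2) = (8 * L ^ (K + 1)) * Real.sqrt N := by
            rw [pow_succ]; ring
        _ ≤ Real.sqrt N * Real.sqrt N := mul_le_mul_of_nonneg_right hg (Real.sqrt_nonneg _)
        _ = N := hsq
    rw [hB]
    linarith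
  rw [hcs]
  -- remove n = 1
  have hred : ∑ m ∈ Ioc u v, ((pr m : ℝ) : ℂ) * g m =
      ∑ m ∈ Ioc (max u 1) v, ((pr m : ℝ) : ℂ) * g m := by
    symm
    apply Finset.sum_subset
    · intro m hm
      rw [Finset.mem_Ioc] at hm ⊢
      omega
    · intro m hm hm'
      rw [Finset.mem_Ioc] at hm hm'
      have : m ≤ 1 := by omega
      have hnp : ¬ m.Prime := fun h => by have := h.two_le; omega
      simp [pr, hnp]
  rw [hred]
  by_cases hv : max u 1 + 1 ≤ v
  · have hterm : ∀ m ∈ Ioc (max u 1) v, ((pr m : ℝ) : ℂ) * g m =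
        (((Real.log m)⁻¹ : ℝ) : ℂ) * (((Real.log m * pr m : ℝ) : ℂ) * g m) := by
      intro m hm
      rw [Finset.mem_Ioc] at hm
      have hm2 : 2 ≤ m := by omega
      have hlm : Real.log m ≠ 0 := by
        have : 0 < Real.log m := Real.log_pos (by exact_mod_cast hm2)
        exact this.ne'
      rw [← mul_assoc, ← Complex.ofReal_mul, ← mul_assoc, inv_mul_cancel₀ hlm, one_mul]
    rw [Finset.sum_congr rfl hterm]
    have habel := S2_abel (fun m => (Real.log m)⁻¹)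
      (fun m => ((Real.log m * pr m : ℝ) : ℂ) * g m) (max u 1) B
      (fun n _ => inv_nonneg.mpr (Real.log_natCast_nonneg n))
      (by
        intro n hn
        have hn2 : 2 ≤ n := by omega
        have h1 : 0 < Real.log n := Real.log_pos (by exact_mod_cast hn2)
        apply inv_anti₀ h1
        apply Real.log_le_log (by positivity)
        exact_mod_cast Nat.le_succ n) v hv
      (fun t ht1 ht2 => hpart _ t ht1 ht2)
    refine habel.trans (le_trans ?_ hfin)
    apply mul_le_mul_of_nonneg_right _ hB0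
    have h2 : Real.log 2 ≤ Real.log ((max u 1 + 1 : ℕ) : ℝ) := by
      apply Real.log_le_log two_pos
      have : 2 ≤ max u 1 + 1 := by omega
      exact_mod_cast this
    have h3 : (1 : ℝ) / 2 ≤ Real.log 2 := by
      have := Real.log_two_gt_d9
      linarith
    have h4 : 0 < Real.log ((max u 1 + 1 : ℕ) : ℝ) := by linarith
    rw [inv_le_comm₀ h4 two_pos]
    linarith
  · have : Ioc (max u 1) v = ∅ := Finset.Ioc_eq_empty (by omega)
    rw [this, Finset.sum_empty, norm_zero]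
    positivity

end Pool.Agent.LibBW4
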