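import Pool.Agent.LibBW4.A0
import Pool.Agent.LibBW4.T1

/-!
Row V5 (SHORT/MEDIUM): the factor `C^ω(q)`. Cauchy-Schwarz: `∑ C^ω bvD ≤ (∑ C^(2ω) bvD)^(1/2) (∑ bvD)^(1/2)`, `bvD ≤ 3 N/φ(q)` (A0 `bvD_triv'`, `q ≤ N^θ ≤ N`), `∑ (C²)^ω/φ ≤ (C1 log N)^C1` (T1): take `A' = 2 A + C1 + 1`. (`θ ≤ 1`.)
-/

open Finset

namespace Pool.Agent.LibBW4

theorem add_C (A C : ℕ) (θ : ℝ) (hθ : θ < 1 / 2) : ∃ A' N0 : ℕ, ∀ N ≥ N0, ∀ a : ℕ → ℝ, (∀ m, |a m| ≤ 1) → ∀ u v : ℕ, v ≤ N → ∀ c : ℕ → ℕ,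
    ∑ q ∈ Icc 1 ⌊(N : ℝ) ^ θ⌋₊, bvD a u v q (c q) ≤ N / Real.log N ^ A' →
    ∑ q ∈ Icc 1 ⌊(N : ℝ) ^ θ⌋₊, (C : ℝ) ^ q.primeFactors.card * bvD a u v q (c q) ≤ N / Real.log N ^ A := by
  obtain ⟨C1, hC1⟩ := sum_C_phi (C ^ 2)
  refine ⟨2 * A + C1 + 1, max 3 ⌈Real.exp (3 * (C1 : ℝ) ^ C1)⌉₊, ?_⟩
  intro N hN a ha u v hv c hsum
  have hN3 : 3 ≤ N := (le_max_left _ _).trans hN
  have hNe : Real.exp (3 * (C1 : ℝ) ^ C1) ≤ N := by
    have h1 : ⌈Real.exp (3 * (C1 : ℝ) ^ C1)⌉₊ ≤ N := (le_max_right _ _).trans hN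
    exact (Nat.le_ceil _).trans (by exact_mod_cast h1)
  have hNpos : (0 : ℝ) < N := by
    have : 0 < N := by omega
    exact_mod_cast this
  have hN1 : (1 : ℝ) ≤ N := by
    have : 1 ≤ N := by omega
    exact_mod_cast this
  obtain ⟨L, hL⟩ : ∃ L, L = Real.log N := ⟨_, rfl⟩
  have hLK : 3 * (C1 : ℝ) ^ C1 ≤ L := by
    rw [hL]
    exact (Real.le_log_iff_exp_le hNpos).2 hNe
  have hLpos : 0 < L := by
    rw [hL]
    apply Real.log_pos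
    have : 1 < N := by omega
    exact_mod_cast this
  rw [← hL] at hsum ⊢
  obtain ⟨Q, hQ⟩ : ∃ Q, Q = ⌊(N : ℝ) ^ θ⌋₊ := ⟨_, rfl⟩
  have hQN : Q ≤ N := by
    rw [hQ]
    have h1 : (N : ℝ) ^ θ ≤ N := by
      calc (N : ℝ) ^ θ ≤ (N : ℝ) ^ (1 : ℝ) := Real.rpow_le_rpow_of_exponent_le hN1 (by linarith)
        _ = N := Real.rpow_one _
    have h2 := Nat.floor_le_floor h1
    rwa [Nat.floor_natCast] at h2
  rw [← hQ] at hsum ⊢
  have hnn : ∀ q, 0 ≤ bvD a u v q (c q) := fun q => abs_nonneg _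
  obtain ⟨w, hw⟩ : ∃ w : ℕ → ℝ, ∀ q, w q = (C : ℝ) ^ q.primeFactors.card := ⟨_, fun _ => rfl⟩
  have hwn : ∀ q, 0 ≤ w q := by
    intro q
    rw [hw]
    positivity
  have hCS : (∑ q ∈ Icc 1 Q, w q * bvD a u v q (c q)) ^ 2 ≤
      (∑ q ∈ Icc 1 Q, w q ^ 2 * bvD a u v q (c q)) * ∑ q ∈ Icc 1 Q, bvD a u v q (c q) := by
    have h := Finset.sum_mul_sq_le_sq_mul_sq (Icc 1 Q) (fun q => w q * √(bvD a u v q (c q)))
      (fun q => √(bvD a u v q (c q)))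
    have e1 : ∀ q, w q * √(bvD a u v q (c q)) * √(bvD a u v q (c q)) = w q * bvD a u v q (c q) := by
      intro q
      rw [mul_assoc, Real.mul_self_sqrt (hnn q)]
    have e2 : ∀ q, (w q * √(bvD a u v q (c q))) ^ 2 = w q ^ 2 * bvD a u v q (c q) := by
      intro q
      rw [mul_pow, Real.sq_sqrt (hnn q)]
    have e3 : ∀ q, √(bvD a u v q (c q)) ^ 2 = bvD a u v q (c q) := fun q => Real.sq_sqrt (hnn q)
    simp only [e1, e2, e3] at h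
    exact h
  have h1 : ∑ q ∈ Icc 1 Q, w q ^ 2 * bvD a u v q (c q) ≤ 3 * N * ((C1 : ℝ) * L) ^ C1 := by
    calc ∑ q ∈ Icc 1 Q, w q ^ 2 * bvD a u v q (c q)
        ≤ ∑ q ∈ Icc 1 Q, w q ^ 2 * (3 * N / (q.totient : ℝ)) := by
          refine Finset.sum_le_sum (fun q hq => ?_)
          rw [Finset.mem_Icc] at hq
          exact mul_le_mul_of_nonneg_left (bvD_triv' a ha u v N q (c q) hq.1 (hq.2.trans hQN) hv)
            (sq_nonneg _)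
      _ ≤ ∑ q ∈ Icc 1 N, w q ^ 2 * (3 * N / (q.totient : ℝ)) := by
          refine Finset.sum_le_sum_of_subset_of_nonneg (Finset.Icc_subset_Icc_right hQN) ?_
          intro q _ _
          positivity
      _ = 3 * N * ∑ q ∈ Icc 1 N, ((C ^ 2 : ℕ) : ℝ) ^ q.primeFactors.card / (q.totient : ℝ) := by
          rw [Finset.mul_sum]
          refine Finset.sum_congr rfl (fun q _ => ?_)
          rw [hw, Nat.cast_pow, ← pow_mul, ← pow_mul, mul_comm 2]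
          ring
      _ ≤ 3 * N * ((C1 : ℝ) * L) ^ C1 := by
          have h2 := hC1 N hN3
          rw [← hL] at h2
          exact mul_le_mul_of_nonneg_left h2 (by positivity)
  have h2 : (∑ q ∈ Icc 1 Q, w q * bvD a u v q (c q)) ^ 2 ≤ (N / L ^ A) ^ 2 := by
    calc (∑ q ∈ Icc 1 Q, w q * bvD a u v q (c q)) ^ 2
        ≤ (∑ q ∈ Icc 1 Q, w q ^ 2 * bvD a u v q (c q)) * ∑ q ∈ Icc 1 Q, bvD a u v q (c q) := hCS
      _ ≤ (3 * N * ((C1 : ℝ) * L) ^ C1) * (N / L ^ (2 * A + C1 + 1)) := by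
          refine mul_le_mul h1 hsum (Finset.sum_nonneg (fun q _ => hnn q)) (by positivity)
      _ = (N / L ^ A) ^ 2 * (3 * (C1 : ℝ) ^ C1 / L) := by
          rw [mul_pow, pow_add, pow_add, pow_one, div_pow, ← pow_mul, mul_comm A 2]
          field_simp
      _ ≤ (N / L ^ A) ^ 2 * 1 := by
          refine mul_le_mul_of_nonneg_left ?_ (sq_nonneg _)
          rw [div_le_one hLpos]
          exact hLK
      _ = (N / L ^ A) ^ 2 := mul_one _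
  have h3 : 0 ≤ (N : ℝ) / L ^ A := by positivity
  have h4 := abs_le_of_sq_le_sq h2 h3
  have h5 := (le_abs_self _).trans h4
  simp only [hw] at h5
  exact h5

end Pool.Agent.LibBW4
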