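import Pool.Agent.LibBW4.E1
import Pool.Agent.LibBW4.A0
import Pool.Agent.LibBW4.GD
import Pool.Agent.LibBW4.S2
import Pool.Agent.LibBW4.V5

/-!
Row E2 (MEDIUM): Bombieri-Vinogradov for products of two primes. For the four regions of E1 use GD with `η' = min η (1/4)` (or smaller), `D = 0` (`|al| ≤ 1`), `β = be`, Siegel-Walfisz from S2 (`Y ≥ N^(η'/2)`, `s ≤ N ≤ Y^D'`); `a ≥ z ≥ N^η`, `b ≤ √N ≤ N^(1-η')`; if `a > b` the region is
empty. `v / ·`, `u / ·` are antitone (`Nat.div_le_div_left`; at `m = 0` the quotient is `0`: replace the function by `fun m => v / max m 1`, equal on `m > 0`), `fun m => m` is monotone; `m f m ≤ N`. Then V5 (`e2_abs`) for the factor `C^ω`. If `u > v` everything is `0`.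
-/

open Finset

namespace Pool.Agent.LibBW4

private theorem E2_sw (K : ℕ) {η : ℝ} (hη : 0 < η) : ∃ N0 : ℕ, ∀ N ≥ N0, ∀ Y : ℕ,
    (N : ℝ) ^ (η / 2) ≤ Y → Y ≤ N → ∀ s : ℕ, 1 ≤ s → s ≤ N → ∀ r : ℕ, 2 ≤ r →
      (r : ℝ) ≤ Real.log Y ^ K → ∀ ψ ∈ Prm r, ∀ k0 k1 : ℕ, k0 ≤ k1 → k1 ≤ Y →
        ‖cs be k0 k1 s ψ‖ ≤ Y / Real.log Y ^ K := by
  obtain ⟨N4, hN4⟩ := sw_pr K ⌈2 / η⌉₊
  have hη2 : 0 < η / 2 := by linarith
  have h1 : Filter.Tendsto (fun N : ℕ => (N : ℝ) ^ (η / 2)) Filter.atTop Filter.atTop :=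
    (tendsto_rpow_atTop hη2).comp tendsto_natCast_atTop_atTop
  obtain ⟨N3, hN3⟩ := Filter.eventually_atTop.mp (h1.eventually_ge_atTop (N4 : ℝ))
  refine ⟨max N3 1, ?_⟩
  intro N hN Y hY1 hY2 s hs1 hs2 r hr1 hr2 ψ hψ k0 k1 hk1 hk2
  have hNN3 : N3 ≤ N := le_trans (le_max_left _ _) hN
  have hN1 : 1 ≤ N := le_trans (le_max_right _ _) hN
  have hN1' : (1 : ℝ) ≤ N := by exact_mod_cast hN1
  have hYN4 : N4 ≤ Y := by
    have h2 : (N4 : ℝ) ≤ Y := le_trans (hN3 N hNN3) hY1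
    exact_mod_cast h2
  have hpow1 : (1 : ℝ) ≤ (N : ℝ) ^ (η / 2) := Real.one_le_rpow hN1' hη2.le
  have hY1' : (1 : ℝ) ≤ Y := le_trans hpow1 hY1
  have hsY : s ≤ Y ^ ⌈2 / η⌉₊ := by
    have h3 : (N : ℝ) = ((N : ℝ) ^ (η / 2)) ^ (2 / η) := by
      rw [← Real.rpow_mul (by linarith)]
      have h4 : η / 2 * (2 / η) = 1 := by
        field_simp
      rw [h4, Real.rpow_one]
    have h5 : ((N : ℝ) ^ (η / 2)) ^ (2 / η) ≤ (Y : ℝ) ^ (2 / η) :=
      Real.rpow_le_rpow (by linarith) hY1 (by positivity)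
    have h6 : (Y : ℝ) ^ (2 / η) ≤ (Y : ℝ) ^ ((⌈2 / η⌉₊ : ℕ) : ℝ) :=
      Real.rpow_le_rpow_of_exponent_le hY1' (Nat.le_ceil _)
    rw [Real.rpow_natCast] at h6
    have h7 : (s : ℝ) ≤ ((Y ^ ⌈2 / η⌉₊ : ℕ) : ℝ) := by
      push_cast
      have h8 : (s : ℝ) ≤ N := by exact_mod_cast hs2
      calc (s : ℝ) ≤ N := h8
        _ = ((N : ℝ) ^ (η / 2)) ^ (2 / η) := h3
        _ ≤ (Y : ℝ) ^ (2 / η) := h5
        _ ≤ (Y : ℝ) ^ ⌈2 / η⌉₊ := h6
    exact_mod_cast h7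
  exact hN4 Y hYN4 s hs1 hsY r hr1 hr2 ψ hψ k0 k1 hk1 hk2

private theorem E2_al (w : ℕ → ℝ) (hw : ∀ p, |w p| ≤ 1) (m : ℕ) : ‖al w m‖ ≤ 1 := by
  unfold al
  split
  · rw [Complex.norm_real, Real.norm_eq_abs]
    exact hw m
  · rw [norm_zero]
    exact zero_le_one

private theorem E2_be (k : ℕ) : ‖be k‖ ≤ 1 := by
  unfold be pr
  split
  · simp
  · simp

private theorem E2_regn_congr (α β : ℕ → ℂ) (a b : ℕ) (f g : ℕ → ℕ) (q c : ℕ)
    (h : ∀ m ∈ Ioc a b, f m = g m) : regn α β a b f q c = regn α β a b g q c := by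
  unfold regn
  refine Finset.sum_congr rfl (fun m hm => ?_)
  rw [h m hm]

private theorem E2_anti (v : ℕ) : Antitone (fun m : ℕ => v / max m 1) := by
  intro m m' h
  exact Nat.div_le_div_left (max_le_max h le_rfl) (lt_of_lt_of_le Nat.zero_lt_one (le_max_right _ _))

theorem bv_e2 : BVe2 := by
  intro A C θ η hθ hη
  obtain ⟨A', N1, hA'⟩ := add_C A C θ hθ
  obtain ⟨η', hη'⟩ : ∃ η' : ℝ, η' = min η (1 / 4) := ⟨_, rfl⟩
  have hη'0 : 0 < η' := by rw [hη']; exact lt_min hη (by norm_num)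
  have hη'1 : η' ≤ η := by rw [hη']; exact min_le_left _ _
  have hη'2 : η' ≤ 1 / 4 := by rw [hη']; exact min_le_right _ _
  obtain ⟨K, N2, hbil⟩ := bilinear (A' + 1) 0 θ η' hθ hη'0
  obtain ⟨N3, hsw⟩ := E2_sw K hη'0
  have hlog : Filter.Tendsto (fun N : ℕ => Real.log (N : ℝ)) Filter.atTop Filter.atTop :=
    Real.tendsto_log_atTop.comp tendsto_natCast_atTop_atTop
  obtain ⟨N4, hN4⟩ := Filter.eventually_atTop.mp (hlog.eventually_ge_atTop (4 : ℝ))
  refine ⟨max (max N1 N2) (max (max N3 N4) 1), ?_⟩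
  intro N hN z hz w hw u v hv c hc
  have hNN1 : N1 ≤ N := le_trans (le_trans (le_max_left _ _) (le_max_left _ _)) hN
  have hNN2 : N2 ≤ N := le_trans (le_trans (le_max_right _ _) (le_max_left _ _)) hN
  have hNN3 : N3 ≤ N :=
    le_trans (le_trans (le_trans (le_max_left _ _) (le_max_left _ _)) (le_max_right _ _)) hN
  have hNN4 : N4 ≤ N :=
    le_trans (le_trans (le_trans (le_max_right _ _) (le_max_left _ _)) (le_max_right _ _)) hN
  have hNN5 : 1 ≤ N := le_trans (le_trans (le_max_right _ _) (le_max_right _ _)) hN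
  have hN1' : (1 : ℝ) ≤ N := by exact_mod_cast hNN5
  have hl4 : 4 ≤ Real.log N := hN4 N hNN4
  refine hA' N hNN1 (e2 w z) (e2_abs w hw z) u v hv c ?_
  -- bound for each region
  have hRHS : 0 ≤ (N : ℝ) / Real.log N ^ (A' + 1) := by positivity
  have hreg : ∀ (a b : ℕ) (f : ℕ → ℕ), z ≤ a → b ≤ Nat.sqrt N → (Antitone f ∨ Monotone f) →
      (∀ m ∈ Ioc a b, m * f m ≤ N) →
      ∑ q ∈ Icc 1 ⌊(N : ℝ) ^ θ⌋₊, ‖regn (al w) be a b f q (c q)‖ ≤
        N / Real.log N ^ (A' + 1) := by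
    intro a b f ha hb hf hmf
    by_cases hab : a ≤ b
    · refine hbil N hNN2 (al w) be ?_ ?_ (hsw N hNN3) a b ?_ hab ?_ f hf hmf c hc
      · intro x _ _
        rw [pow_zero, mul_one]
        calc ∑ m ∈ Icc 1 x, ‖al w m‖ ^ 2 ≤ ∑ m ∈ Icc 1 x, (1 : ℝ) := by
              refine Finset.sum_le_sum (fun m _ => ?_)
              exact pow_le_one₀ (norm_nonneg _) (E2_al w hw m)
          _ = x := by simp
      · intro k _
        exact le_trans (E2_be k) (by linarith)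
      · have h1 : (N : ℝ) ^ η' ≤ (N : ℝ) ^ η := Real.rpow_le_rpow_of_exponent_le hN1' hη'1
        have h2 : (z : ℝ) ≤ a := by exact_mod_cast ha
        linarith
      · have h1 : (b : ℝ) ≤ (Nat.sqrt N : ℝ) := by exact_mod_cast hb
        have h2 : (Nat.sqrt N : ℝ) ≤ Real.sqrt N := Real.nat_sqrt_le_real_sqrt
        have h3 : Real.sqrt N = (N : ℝ) ^ (1 / 2 : ℝ) := Real.sqrt_eq_rpow _
        have h4 : (N : ℝ) ^ (1 / 2 : ℝ) ≤ (N : ℝ) ^ (1 - η') :=
          Real.rpow_le_rpow_of_exponent_le hN1' (by linarith)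
        linarith
    · have h0 : ∀ q, regn (al w) be a b f q (c q) = 0 := by
        intro q
        unfold regn
        rw [Finset.Ioc_eq_empty (by omega), Finset.sum_empty]
      calc ∑ q ∈ Icc 1 ⌊(N : ℝ) ^ θ⌋₊, ‖regn (al w) be a b f q (c q)‖
          = ∑ q ∈ Icc 1 ⌊(N : ℝ) ^ θ⌋₊, (0 : ℝ) := by
            refine Finset.sum_congr rfl (fun q _ => ?_)
            rw [h0, norm_zero]
        _ = 0 := Finset.sum_const_zero
        _ ≤ _ := hRHS
  by_cases huv : u ≤ v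
  · have hsu : Nat.sqrt u ≤ Nat.sqrt N := Nat.sqrt_le_sqrt (le_trans huv hv)
    have hsv : Nat.sqrt v ≤ Nat.sqrt N := Nat.sqrt_le_sqrt hv
    have hdiv : ∀ (a b t : ℕ), t ≤ N → z ≤ a → b ≤ Nat.sqrt N →
        ∑ q ∈ Icc 1 ⌊(N : ℝ) ^ θ⌋₊, ‖regn (al w) be a b (fun m => t / m) q (c q)‖ ≤
          N / Real.log N ^ (A' + 1) := by
      intro a b t ht ha hb
      have h1 := hreg a b (fun m => t / max m 1) ha hb (Or.inl (E2_anti t)) (by
        intro m hm
        have hm1 : 1 ≤ m := by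
          have := (Finset.mem_Ioc.mp hm).1
          omega
        show m * (t / max m 1) ≤ N
        rw [max_eq_left hm1]
        exact le_trans (Nat.mul_div_le t m) ht)
      refine le_trans (le_of_eq ?_) h1
      refine Finset.sum_congr rfl (fun q _ => ?_)
      rw [E2_regn_congr (al w) be a b (fun m => t / m) (fun m => t / max m 1) q (c q)]
      intro m hm
      have hm1 : 1 ≤ m := by
        have := (Finset.mem_Ioc.mp hm).1
        omega
      show t / m = t / max m 1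
      rw [max_eq_left hm1]
    have r1 := hdiv z (Nat.sqrt u) v hv le_rfl hsu
    have r2 := hdiv z (Nat.sqrt u) u (le_trans huv hv) le_rfl hsu
    have r3 := hdiv (max z (Nat.sqrt u)) (Nat.sqrt v) v hv (le_max_left _ _) hsv
    have r4 := hreg (max z (Nat.sqrt u)) (Nat.sqrt v) (fun m => m) (le_max_left _ _) hsv
      (Or.inr monotone_id) (by
        intro m hm
        have h1 := (Finset.mem_Ioc.mp hm).2
        have h2 : m * m ≤ Nat.sqrt v * Nat.sqrt v := Nat.mul_le_mul h1 h1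
        exact le_trans (le_trans h2 (Nat.sqrt_le v)) hv)
    have hterm : ∀ q ∈ Icc 1 ⌊(N : ℝ) ^ θ⌋₊, bvD (e2 w z) u v q (c q) ≤
        ‖regn (al w) be z (Nat.sqrt u) (fun m => v / m) q (c q)‖ +
        ‖regn (al w) be z (Nat.sqrt u) (fun m => u / m) q (c q)‖ +
        (‖regn (al w) be (max z (Nat.sqrt u)) (Nat.sqrt v) (fun m => v / m) q (c q)‖ +
        ‖regn (al w) be (max z (Nat.sqrt u)) (Nat.sqrt v) (fun m => m) q (c q)‖) := by
      intro q _
      rw [bvD_eq, e2_dec w z u v q (c q) huv]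
      exact le_trans (norm_add_le _ _) (add_le_add (norm_sub_le _ _) (norm_sub_le _ _))
    have hsum := Finset.sum_le_sum hterm
    rw [Finset.sum_add_distrib, Finset.sum_add_distrib, Finset.sum_add_distrib] at hsum
    have hfin : 4 * ((N : ℝ) / Real.log N ^ (A' + 1)) ≤ N / Real.log N ^ A' := by
      have hlp : 0 < Real.log N := by linarith
      rw [pow_succ, ← div_div]
      have h5 : 0 ≤ (N : ℝ) / Real.log N ^ A' := by positivity
      rw [mul_div_assoc', div_le_iff₀ hlp]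
      nlinarith
    linarith
  · have h0 : ∀ q, bvD (e2 w z) u v q (c q) = 0 := by
      intro q
      unfold bvD
      rw [Finset.Ioc_eq_empty (by omega)]
      simp
    have hR : 0 ≤ (N : ℝ) / Real.log N ^ A' := by positivity
    calc ∑ q ∈ Icc 1 ⌊(N : ℝ) ^ θ⌋₊, bvD (e2 w z) u v q (c q)
        = ∑ q ∈ Icc 1 ⌊(N : ℝ) ^ θ⌋₊, (0 : ℝ) := Finset.sum_congr rfl (fun q _ => h0 q)
      _ = 0 := Finset.sum_const_zero
      _ ≤ _ := hR

end Pool.Agent.LibBW4
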