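import Pool.Agent.LibBW4.L3

/-!
Row G1 (MEDIUM): large conductors. For `R ≥ 1`: `∑_{R < r ≤ 2R} 1/φ(r) ∑ |A| |B| ≤ (1/R) ∑ (r/φ(r)) ∑ |A||B| ≤ (1/R) sqrt(20 (X + 4R²) A2) sqrt(20 (Y + 4R²) B2)` (Cauchy-Schwarz, L3), `X = v - u + 1`, `Y = v' - u' + 1`,
`≤ 20 sqrt(A2 B2) (sqrt(XY)/R + 2 sqrt X + 2 sqrt Y + 4 R)` (`sqrt(X + 4R²) ≤ sqrt X + 2R`). Cover `(L, Q]` by `(L 2^i, L 2^(i+1)] ∩ (0, Q]` with `L 2^i < Q`, at most `log₂ Q + 1` of them.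
-/

open Finset

namespace Pool.Agent.LibBW4

private theorem G1_sqrt_le {X t : ℝ} (hX : 0 ≤ X) (ht : 0 ≤ t) :
    Real.sqrt (X + t ^ 2) ≤ Real.sqrt X + t := by
  refine Real.sqrt_le_iff.2 ⟨by positivity, ?_⟩
  have h1 := Real.sq_sqrt hX
  have h2 := Real.sqrt_nonneg X
  nlinarith [mul_nonneg h2 ht]

private theorem G1_cs (R' s : ℕ) (α β : ℕ → ℂ) (u v u' v' : ℕ) :
    ∑ r ∈ Icc 1 R', (r : ℝ) / (r.totient : ℝ) * ∑ ψ ∈ Prm r, ‖cs α u v s ψ‖ * ‖cs β u' v' s ψ‖ ≤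
      Real.sqrt (∑ r ∈ Icc 1 R', (r : ℝ) / (r.totient : ℝ) * ∑ ψ ∈ Prm r, ‖cs α u v s ψ‖ ^ 2) *
      Real.sqrt (∑ r ∈ Icc 1 R', (r : ℝ) / (r.totient : ℝ) *
        ∑ ψ ∈ Prm r, ‖cs β u' v' s ψ‖ ^ 2) := by
  have h1 : ∀ r : ℕ, 0 ≤ (r : ℝ) / (r.totient : ℝ) := fun r => by positivity
  have h2 : ∀ r : ℕ, 0 ≤ (r : ℝ) / (r.totient : ℝ) * ∑ ψ ∈ Prm r, ‖cs α u v s ψ‖ ^ 2 :=
    fun r => mul_nonneg (h1 r) (Finset.sum_nonneg fun _ _ => by positivity)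
  have h3 : ∀ r : ℕ, 0 ≤ (r : ℝ) / (r.totient : ℝ) * ∑ ψ ∈ Prm r, ‖cs β u' v' s ψ‖ ^ 2 :=
    fun r => mul_nonneg (h1 r) (Finset.sum_nonneg fun _ _ => by positivity)
  refine le_trans (Finset.sum_le_sum fun r _ => ?_) (Real.sum_sqrt_mul_sqrt_le _ h2 h3)
  rw [Real.sqrt_mul (h1 r), Real.sqrt_mul (h1 r)]
  have h4 := Real.sum_mul_le_sqrt_mul_sqrt (Prm r) (fun ψ => ‖cs α u v s ψ‖)
    (fun ψ => ‖cs β u' v' s ψ‖)
  calc (r : ℝ) / (r.totient : ℝ) * ∑ ψ ∈ Prm r, ‖cs α u v s ψ‖ * ‖cs β u' v' s ψ‖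
      ≤ (r : ℝ) / (r.totient : ℝ) * (Real.sqrt (∑ ψ ∈ Prm r, ‖cs α u v s ψ‖ ^ 2) *
          Real.sqrt (∑ ψ ∈ Prm r, ‖cs β u' v' s ψ‖ ^ 2)) := mul_le_mul_of_nonneg_left h4 (h1 r)
    _ = (Real.sqrt ((r : ℝ) / (r.totient : ℝ)) * Real.sqrt ((r : ℝ) / (r.totient : ℝ))) *
          (Real.sqrt (∑ ψ ∈ Prm r, ‖cs α u v s ψ‖ ^ 2) *
          Real.sqrt (∑ ψ ∈ Prm r, ‖cs β u' v' s ψ‖ ^ 2)) := by
        rw [Real.mul_self_sqrt (h1 r)]
    _ = _ := by ring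

private theorem G1_block (R R' s : ℕ) (hR : 1 ≤ R) (hR' : R' ≤ 2 * R) (α β : ℕ → ℂ)
    (u v u' v' : ℕ) (huv : u ≤ v) (huv' : u' ≤ v') :
    ∑ r ∈ Ioc R R', 1 / (r.totient : ℝ) * ∑ ψ ∈ Prm r, ‖cs α u v s ψ‖ * ‖cs β u' v' s ψ‖ ≤
      20 * Real.sqrt ((∑ m ∈ Ioc u v, ‖α m‖ ^ 2) * ∑ k ∈ Ioc u' v', ‖β k‖ ^ 2) *
        (Real.sqrt (((v - u : ℝ) + 1) * ((v' - u' : ℝ) + 1)) / R +
          2 * (Real.sqrt ((v - u : ℝ) + 1) + Real.sqrt ((v' - u' : ℝ) + 1)) + 4 * R) := by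
  have hR0 : (0 : ℝ) < R := by exact_mod_cast hR
  have hX : (0 : ℝ) ≤ (v - u : ℝ) + 1 := by
    have : (u : ℝ) ≤ v := by exact_mod_cast huv
    linarith
  have hY : (0 : ℝ) ≤ (v' - u' : ℝ) + 1 := by
    have : (u' : ℝ) ≤ v' := by exact_mod_cast huv'
    linarith
  have hA2 : 0 ≤ ∑ m ∈ Ioc u v, ‖α m‖ ^ 2 := Finset.sum_nonneg fun _ _ => by positivity
  have hB2 : 0 ≤ ∑ k ∈ Ioc u' v', ‖β k‖ ^ 2 := Finset.sum_nonneg fun _ _ => by positivity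
  have hf0 : ∀ r : ℕ, 0 ≤ ∑ ψ ∈ Prm r, ‖cs α u v s ψ‖ * ‖cs β u' v' s ψ‖ :=
    fun r => Finset.sum_nonneg fun _ _ => by positivity
  have hR'r : (R' : ℝ) ≤ 2 * R := by exact_mod_cast hR'
  -- step 1
  have h1 : ∑ r ∈ Ioc R R', 1 / (r.totient : ℝ) * ∑ ψ ∈ Prm r, ‖cs α u v s ψ‖ * ‖cs β u' v' s ψ‖ ≤
      (1 / R) * ∑ r ∈ Icc 1 R', (r : ℝ) / (r.totient : ℝ) *
        ∑ ψ ∈ Prm r, ‖cs α u v s ψ‖ * ‖cs β u' v' s ψ‖ := by
    rw [Finset.mul_sum]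
    refine le_trans (Finset.sum_le_sum fun r hr => ?_)
      (Finset.sum_le_sum_of_subset_of_nonneg (s := Ioc R R') ?_ ?_)
    · rw [Finset.mem_Ioc] at hr
      rw [← mul_assoc]
      refine mul_le_mul_of_nonneg_right ?_ (hf0 r)
      have h2 : (R : ℝ) ≤ r := by exact_mod_cast hr.1.le
      have h3 : (1 : ℝ) ≤ (r : ℝ) / R := (one_le_div hR0).2 h2
      calc 1 / (r.totient : ℝ) = 1 * (1 / (r.totient : ℝ)) := (one_mul _).symm
        _ ≤ (r : ℝ) / R * (1 / (r.totient : ℝ)) :=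
            mul_le_mul_of_nonneg_right h3 (by positivity)
        _ = 1 / R * ((r : ℝ) / (r.totient : ℝ)) := by ring
    · intro r hr
      rw [Finset.mem_Ioc] at hr
      rw [Finset.mem_Icc]
      omega
    · intro r _ _
      exact mul_nonneg (by positivity) (mul_nonneg (by positivity) (hf0 r))
  have h2 := G1_cs R' s α β u v u' v'
  have h3 := Real.sqrt_le_sqrt (mls_cs R' u v s huv α)
  have h4 := Real.sqrt_le_sqrt (mls_cs R' u' v' s huv' β)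
  have h5 : Real.sqrt (20 * ((v - u : ℝ) + 1 + (R' : ℝ) ^ 2) * ∑ m ∈ Ioc u v, ‖α m‖ ^ 2) ≤
      Real.sqrt 20 * (Real.sqrt ((v - u : ℝ) + 1) + R') *
        Real.sqrt (∑ m ∈ Ioc u v, ‖α m‖ ^ 2) := by
    rw [Real.sqrt_mul (by positivity), Real.sqrt_mul (by norm_num)]
    have := G1_sqrt_le hX (Nat.cast_nonneg R')
    gcongr
  have h6 : Real.sqrt (20 * ((v' - u' : ℝ) + 1 + (R' : ℝ) ^ 2) * ∑ k ∈ Ioc u' v', ‖β k‖ ^ 2) ≤
      Real.sqrt 20 * (Real.sqrt ((v' - u' : ℝ) + 1) + R') *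
        Real.sqrt (∑ k ∈ Ioc u' v', ‖β k‖ ^ 2) := by
    rw [Real.sqrt_mul (by positivity), Real.sqrt_mul (by norm_num)]
    have := G1_sqrt_le hY (Nat.cast_nonneg R')
    gcongr
  have h7 : ∑ r ∈ Icc 1 R', (r : ℝ) / (r.totient : ℝ) *
        ∑ ψ ∈ Prm r, ‖cs α u v s ψ‖ * ‖cs β u' v' s ψ‖ ≤
      (Real.sqrt 20 * (Real.sqrt ((v - u : ℝ) + 1) + R') *
        Real.sqrt (∑ m ∈ Ioc u v, ‖α m‖ ^ 2)) *
      (Real.sqrt 20 * (Real.sqrt ((v' - u' : ℝ) + 1) + R') *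
        Real.sqrt (∑ k ∈ Ioc u' v', ‖β k‖ ^ 2)) :=
    h2.trans (mul_le_mul (h3.trans h5) (h4.trans h6) (Real.sqrt_nonneg _) (by positivity))
  refine h1.trans ((mul_le_mul_of_nonneg_left h7 (by positivity)).trans ?_)
  rw [Real.sqrt_mul hA2, Real.sqrt_mul hX]
  have h20 : Real.sqrt 20 * Real.sqrt 20 = 20 := Real.mul_self_sqrt (by norm_num)
  have hx0 := Real.sqrt_nonneg ((v - u : ℝ) + 1)
  have hy0 := Real.sqrt_nonneg ((v' - u' : ℝ) + 1)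
  have ha0 := Real.sqrt_nonneg (∑ m ∈ Ioc u v, ‖α m‖ ^ 2)
  have hb0 := Real.sqrt_nonneg (∑ k ∈ Ioc u' v', ‖β k‖ ^ 2)
  generalize Real.sqrt ((v - u : ℝ) + 1) = x at hx0 ⊢
  generalize Real.sqrt ((v' - u' : ℝ) + 1) = y at hy0 ⊢
  generalize Real.sqrt (∑ m ∈ Ioc u v, ‖α m‖ ^ 2) = a at ha0 ⊢
  generalize Real.sqrt (∑ k ∈ Ioc u' v', ‖β k‖ ^ 2) = b at hb0 ⊢
  have h8 : (x + R') * (y + R') / R ≤ x * y / R + 2 * (x + y) + 4 * R := by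
    rw [div_le_iff₀ hR0]
    have h9 : (x * y / R + 2 * (x + y) + 4 * R) * R = x * y + 2 * R * (x + y) + (2 * R) ^ 2 := by
      field_simp
      ring
    rw [h9]
    have h10 : (R' : ℝ) * (x + y) ≤ 2 * R * (x + y) :=
      mul_le_mul_of_nonneg_right hR'r (by positivity)
    have h11 : (R' : ℝ) * R' ≤ 2 * R * (2 * R) :=
      mul_le_mul hR'r hR'r (by positivity) (by positivity)
    nlinarith
  calc 1 / (R : ℝ) * (Real.sqrt 20 * (x + R') * a * (Real.sqrt 20 * (y + R') * b))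
      = (Real.sqrt 20 * Real.sqrt 20) * (a * b) * ((x + R') * (y + R') / R) := by ring
    _ = 20 * (a * b) * ((x + R') * (y + R') / R) := by rw [h20]
    _ ≤ 20 * (a * b) * (x * y / R + 2 * (x + y) + 4 * R) :=
        mul_le_mul_of_nonneg_left h8 (by positivity)

theorem big_r (Q L s : ℕ) (hL : 1 ≤ L) (α β : ℕ → ℂ) (u v u' v' : ℕ) (huv : u ≤ v) (huv' : u' ≤ v') :
    ∑ r ∈ Ioc L Q, 1 / (r.totient : ℝ) * ∑ ψ ∈ Prm r, ‖cs α u v s ψ‖ * ‖cs β u' v' s ψ‖ ≤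
      200 * Real.sqrt ((∑ m ∈ Ioc u v, ‖α m‖ ^ 2) * ∑ k ∈ Ioc u' v', ‖β k‖ ^ 2) *
        (Real.sqrt (((v - u : ℝ) + 1) * ((v' - u' : ℝ) + 1)) / L +
          (Real.sqrt ((v - u : ℝ) + 1) + Real.sqrt ((v' - u' : ℝ) + 1)) * (Nat.log 2 Q + 1) + Q) := by
  have hL0 : (0 : ℝ) < L := by exact_mod_cast hL
  have hblock : ∀ R R' : ℕ, 1 ≤ R → R' ≤ 2 * R →
      ∑ r ∈ Ioc R R', 1 / (r.totient : ℝ) * ∑ ψ ∈ Prm r, ‖cs α u v s ψ‖ * ‖cs β u' v' s ψ‖ ≤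
      20 * Real.sqrt ((∑ m ∈ Ioc u v, ‖α m‖ ^ 2) * ∑ k ∈ Ioc u' v', ‖β k‖ ^ 2) *
        (Real.sqrt (((v - u : ℝ) + 1) * ((v' - u' : ℝ) + 1)) / R +
          2 * (Real.sqrt ((v - u : ℝ) + 1) + Real.sqrt ((v' - u' : ℝ) + 1)) + 4 * R) :=
    fun R R' hR hR' => G1_block R R' s hR hR' α β u v u' v' huv huv'
  have hK0 := Real.sqrt_nonneg ((∑ m ∈ Ioc u v, ‖α m‖ ^ 2) * ∑ k ∈ Ioc u' v', ‖β k‖ ^ 2)
  have hP0 := Real.sqrt_nonneg (((v - u : ℝ) + 1) * ((v' - u' : ℝ) + 1))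
  have hD0 : 0 ≤ Real.sqrt ((v - u : ℝ) + 1) + Real.sqrt ((v' - u' : ℝ) + 1) := by positivity
  generalize Real.sqrt ((∑ m ∈ Ioc u v, ‖α m‖ ^ 2) * ∑ k ∈ Ioc u' v', ‖β k‖ ^ 2) = K at *
  generalize Real.sqrt (((v - u : ℝ) + 1) * ((v' - u' : ℝ) + 1)) = P at *
  generalize Real.sqrt ((v - u : ℝ) + 1) + Real.sqrt ((v' - u' : ℝ) + 1) = D at *
  generalize (fun r : ℕ => 1 / (r.totient : ℝ) *
    ∑ ψ ∈ Prm r, ‖cs α u v s ψ‖ * ‖cs β u' v' s ψ‖) = F at *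
  -- induction over the dyadic blocks
  have hind : ∀ n : ℕ, ∃ T : ℝ, 0 ≤ T ∧ T ≤ L * 2 ^ n ∧ T ≤ 2 * Q ∧
      ∑ r ∈ Ioc L (min Q (L * 2 ^ n)), F r ≤
        20 * K * (P * (2 - 2 / 2 ^ n) / L + 2 * D * n + 4 * T) := by
    intro n
    induction n with
    | zero =>
      refine ⟨0, le_rfl, by positivity, by positivity, ?_⟩
      have : Ioc L (min Q (L * 2 ^ 0)) = ∅ := by
        rw [pow_zero, mul_one]
        exact Finset.Ioc_eq_empty_of_le (min_le_right _ _)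
      rw [this, Finset.sum_empty]
      norm_num
    | succ n ih =>
      obtain ⟨T, hT0, hT1, hT2, hT3⟩ := ih
      have h2n : (0 : ℝ) < 2 ^ n := by positivity
      have hgeo : P * (2 - 2 / 2 ^ (n + 1)) / L = P * (2 - 2 / 2 ^ n) / L + P / (L * 2 ^ n) := by
        rw [pow_succ]
        field_simp
        ring
      by_cases hlt : L * 2 ^ n < Q
      · refine ⟨T + L * 2 ^ n, by positivity, ?_, ?_, ?_⟩
        · rw [pow_succ]
          linarith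
        · have : ((L : ℝ) * 2 ^ n) < Q := by exact_mod_cast hlt
          linarith
        · have e1 : min Q (L * 2 ^ n) = L * 2 ^ n := min_eq_right hlt.le
          rw [e1] at hT3
          have hle1 : L ≤ L * 2 ^ n := Nat.le_mul_of_pos_right _ (by positivity)
          have hle2 : L * 2 ^ n ≤ min Q (L * 2 ^ (n + 1)) := by
            refine le_min hlt.le ?_
            exact Nat.mul_le_mul_left _ (Nat.pow_le_pow_right (by norm_num) (Nat.le_succ n))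
          have hb := hblock (L * 2 ^ n) (min Q (L * 2 ^ (n + 1)))
            (Nat.one_le_iff_ne_zero.2 (by positivity))
            ((min_le_right _ _).trans (le_of_eq (by ring)))
          rw [← Finset.sum_Ioc_consecutive F hle1 hle2, hgeo]
          have hb' : ∑ r ∈ Ioc (L * 2 ^ n) (min Q (L * 2 ^ (n + 1))), F r ≤
              20 * K * (P / (L * 2 ^ n) + 2 * D + 4 * (L * 2 ^ n)) := by
            have := hb
            push_cast at this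
            exact this
          calc _ ≤ 20 * K * (P * (2 - 2 / 2 ^ n) / L + 2 * D * n + 4 * T) +
                20 * K * (P / (L * 2 ^ n) + 2 * D + 4 * (L * 2 ^ n)) := add_le_add hT3 hb'
            _ = _ := by
                push_cast
                ring
      · refine ⟨T, hT0, ?_, hT2, ?_⟩
        · refine hT1.trans ?_
          rw [pow_succ]
          have : (0 : ℝ) ≤ L * 2 ^ n := by positivity
          linarith
        · rw [not_lt] at hlt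
          have e1 : min Q (L * 2 ^ n) = Q := min_eq_left hlt
          have e2 : min Q (L * 2 ^ (n + 1)) = Q := by
            refine min_eq_left (hlt.trans ?_)
            exact Nat.mul_le_mul_left _ (Nat.pow_le_pow_right (by norm_num) (Nat.le_succ n))
          rw [e1] at hT3
          rw [e2, hgeo]
          refine hT3.trans (mul_le_mul_of_nonneg_left ?_ (by positivity))
          have h5 : 0 ≤ P / (L * 2 ^ n) := by positivity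
          push_cast
          linarith
  obtain ⟨T, hT0, hT1, hT2, hT3⟩ := hind (Nat.log 2 Q + 1)
  have hmin : min Q (L * 2 ^ (Nat.log 2 Q + 1)) = Q := by
    refine min_eq_left ?_
    have h1 : Q < 2 ^ (Nat.log 2 Q + 1) := Nat.lt_pow_succ_log_self (by norm_num) Q
    exact h1.le.trans (Nat.le_mul_of_pos_left _ hL)
  rw [hmin] at hT3
  refine hT3.trans ?_
  have h6 : P * (2 - 2 / 2 ^ (Nat.log 2 Q + 1)) / L ≤ 2 * (P / L) := by
    rw [mul_div_assoc, ← mul_div_assoc 2 P, mul_comm 2 P, mul_div_assoc P 2]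
    refine mul_le_mul_of_nonneg_left (div_le_div_of_nonneg_right ?_ hL0.le) hP0
    have : (0 : ℝ) ≤ 2 / 2 ^ (Nat.log 2 Q + 1) := by positivity
    linarith
  have h7 : 0 ≤ P / L := by positivity
  have h8 : (0 : ℝ) ≤ D * (Nat.log 2 Q + 1) := by positivity
  have h9 : (0 : ℝ) ≤ Q := Nat.cast_nonneg Q
  have h10 : P * (2 - 2 / 2 ^ (Nat.log 2 Q + 1)) / L + 2 * D * ((Nat.log 2 Q + 1 : ℕ) : ℝ) + 4 * T ≤
      10 * (P / L + D * (Nat.log 2 Q + 1) + Q) := by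
    push_cast
    linarith
  calc 20 * K * (P * (2 - 2 / 2 ^ (Nat.log 2 Q + 1)) / L + 2 * D * ((Nat.log 2 Q + 1 : ℕ) : ℝ) + 4 * T)
      ≤ 20 * K * (10 * (P / L + D * (Nat.log 2 Q + 1) + Q)) :=
        mul_le_mul_of_nonneg_left h10 (by positivity)
    _ = _ := by ring

end Pool.Agent.LibBW4
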