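import Pool.Agent.LibBW4.A3
import Pool.Agent.LibBW4.G1

/-!
Row G2 (SHORT): one rectangle. A3; for `2 ≤ r ≤ L`: `∑_ψ |cs α| |cs β| ≤ φ(r) A1 E` (at most `φ(r)` characters, `DirichletCharacter.card_eq_totient_of_hasEnoughRootsOfUnity`, `|cs α| ≤ ∑ |α|`), for `L < r ≤ Q`: G1.
-/

open Finset

namespace Pool.Agent.LibBW4

open scoped Classical in
private theorem G2_card (r : ℕ) [NeZero r] : (Prm r).card ≤ r.totient := by
  have h1 : (Prm r).card ≤ (Finset.univ : Finset (DirichletCharacter ℂ r)).card := by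
    apply Finset.card_le_card
    exact Finset.subset_univ _
  rw [Finset.card_univ, ← Nat.card_eq_fintype_card] at h1
  exact h1.trans (DirichletCharacter.card_eq_totient_of_hasEnoughRootsOfUnity ℂ r).le

private theorem G2_cs (α : ℕ → ℂ) (u v s : ℕ) {r : ℕ} (ψ : DirichletCharacter ℂ r) :
    ‖cs α u v s ψ‖ ≤ ∑ m ∈ Ioc u v, ‖α m‖ := by
  unfold cs
  calc ‖∑ m ∈ (Ioc u v).filter (fun m => m.Coprime s), α m * ψ (m : ZMod r)‖
      ≤ ∑ m ∈ (Ioc u v).filter (fun m => m.Coprime s), ‖α m‖ := by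
        refine norm_sum_le_of_le _ fun m _ => ?_
        rw [norm_mul]
        calc ‖α m‖ * ‖ψ (m : ZMod r)‖ ≤ ‖α m‖ * 1 :=
              mul_le_mul_of_nonneg_left (DirichletCharacter.norm_le_one ψ _) (norm_nonneg _)
          _ = ‖α m‖ := mul_one _
    _ ≤ ∑ m ∈ Ioc u v, ‖α m‖ :=
        Finset.sum_le_sum_of_subset_of_nonneg (Finset.filter_subset _ _) fun _ _ _ => norm_nonneg _

theorem rect_bound (Q L : ℕ) (hL : 1 ≤ L) (α β : ℕ → ℂ) (u v u' v' : ℕ) (huv : u ≤ v) (huv' : u' ≤ v')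
    (c : ℕ → ℕ) (hc : ∀ q, (c q).Coprime q) (E : ℝ) (hE0 : 0 ≤ E)
    (hE : ∀ s ∈ Icc 1 Q, ∀ r ∈ Icc 2 L, ∀ ψ ∈ Prm r, ‖cs β u' v' s ψ‖ ≤ E) :
    ∑ q ∈ Icc 1 Q, ‖rect α β u v u' v' q (c q)‖ ≤
      tS Q * bd Q L ((v - u : ℝ) + 1) ((v' - u' : ℝ) + 1) (∑ m ∈ Ioc u v, ‖α m‖) (∑ m ∈ Ioc u v, ‖α m‖ ^ 2)
        (∑ k ∈ Ioc u' v', ‖β k‖ ^ 2) E := by
  refine (sum_rect α β u v u' v' Q c hc).trans ?_
  unfold tS
  rw [Finset.sum_mul]
  refine Finset.sum_le_sum fun s hs => ?_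
  refine mul_le_mul_of_nonneg_left ?_ (by positivity)
  set A1 : ℝ := ∑ m ∈ Ioc u v, ‖α m‖ with hA1
  have hA0 : 0 ≤ A1 := Finset.sum_nonneg fun _ _ => norm_nonneg _
  set F : ℕ → ℝ := fun r => 1 / (r.totient : ℝ) * ∑ ψ ∈ Prm r, ‖cs α u v s ψ‖ * ‖cs β u' v' s ψ‖ with hF
  have hF0 : ∀ r, 0 ≤ F r := fun r =>
    mul_nonneg (by positivity) (Finset.sum_nonneg fun _ _ => mul_nonneg (norm_nonneg _) (norm_nonneg _))
  have h1 : ∑ r ∈ Icc 2 Q, F r ≤ ∑ r ∈ Icc 2 L, F r + ∑ r ∈ Ioc L Q, F r := by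
    have hsub : Icc 2 Q ⊆ Icc 2 L ∪ Ioc L Q := by
      intro r hr
      rw [Finset.mem_union, Finset.mem_Icc, Finset.mem_Ioc]
      rw [Finset.mem_Icc] at hr
      omega
    refine (Finset.sum_le_sum_of_subset_of_nonneg hsub fun r _ _ => hF0 r).trans ?_
    have hd : Disjoint (Icc 2 L) (Ioc L Q) := by
      rw [Finset.disjoint_left]
      intro r h1 h2
      rw [Finset.mem_Icc] at h1
      rw [Finset.mem_Ioc] at h2
      omega
    rw [Finset.sum_union hd]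
  have h2 : ∑ r ∈ Icc 2 L, F r ≤ L * A1 * E := by
    have h3 : ∀ r ∈ Icc 2 L, F r ≤ A1 * E := by
      intro r hr
      have hr2 : 2 ≤ r := (Finset.mem_Icc.1 hr).1
      have : NeZero r := ⟨by omega⟩
      have hφ : (0 : ℝ) < r.totient := by
        have : 0 < r.totient := Nat.totient_pos.2 (by omega)
        exact_mod_cast this
      have h4 : ∑ ψ ∈ Prm r, ‖cs α u v s ψ‖ * ‖cs β u' v' s ψ‖ ≤ (r.totient : ℝ) * (A1 * E) := by
        calc ∑ ψ ∈ Prm r, ‖cs α u v s ψ‖ * ‖cs β u' v' s ψ‖ ≤ ∑ ψ ∈ Prm r, A1 * E :=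
              Finset.sum_le_sum fun ψ hψ => mul_le_mul (G2_cs α u v s ψ) (hE s hs r hr ψ hψ) (norm_nonneg _) hA0
          _ = ((Prm r).card : ℝ) * (A1 * E) := by rw [Finset.sum_const, nsmul_eq_mul]
          _ ≤ (r.totient : ℝ) * (A1 * E) :=
              mul_le_mul_of_nonneg_right (by exact_mod_cast G2_card r) (mul_nonneg hA0 hE0)
      show 1 / (r.totient : ℝ) * _ ≤ A1 * E
      calc 1 / (r.totient : ℝ) * ∑ ψ ∈ Prm r, ‖cs α u v s ψ‖ * ‖cs β u' v' s ψ‖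
          ≤ 1 / (r.totient : ℝ) * ((r.totient : ℝ) * (A1 * E)) := mul_le_mul_of_nonneg_left h4 (by positivity)
        _ = A1 * E := by field_simp
    calc ∑ r ∈ Icc 2 L, F r ≤ ∑ r ∈ Icc 2 L, A1 * E := Finset.sum_le_sum h3
      _ = ((Icc 2 L).card : ℝ) * (A1 * E) := by rw [Finset.sum_const, nsmul_eq_mul]
      _ ≤ (L : ℝ) * (A1 * E) := by
          refine mul_le_mul_of_nonneg_right ?_ (mul_nonneg hA0 hE0)
          rw [Nat.card_Icc]
          exact_mod_cast (by omega : L + 1 - 2 ≤ L)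
      _ = L * A1 * E := by ring
  have h5 := big_r Q L s hL α β u v u' v' huv huv'
  unfold bd
  exact h1.trans (add_le_add h2 h5)

end Pool.Agent.LibBW4
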