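import Pool.Agent.LibLargeSieve.Basic

/-!
Row L1 (MEDIUM): the additive large sieve for Farey fractions. `LSieve.large_sieve` (in `LibLargeSieve/Basic.lean`) with the points `b/r` in `UnitAddCircle`, `H = v - u + 1`: different fractions have distance
`≥ 1/(r r') ≥ 1/Q²` modulo `1` (`‖b/r - b'/r'‖ = |integer|/(r r')` and not zero, because `0 ≤ b < r` coprime determines the fraction), so a ball of radius `1/H` contains at most `2 Q²/H + 2` of them
(order them on the circle, or: the points `Q² x` modulo `Q²` ...: the points in an arc of length `2/H` are `≥ 1/Q²` apart); `9 R H ≤ 9 (2 Q² + 2 H) ≤ 20 (Q² + H)`.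
-/

open Finset

namespace Pool.Agent.LibBW4

private theorem L1_sep {Q r r' b b' : ℕ} (hr : 1 ≤ r) (hrQ : r ≤ Q) (hr' : 1 ≤ r') (hrQ' : r' ≤ Q)
    (hb : b < r) (hb' : b' < r') (hc : b.Coprime r) (hc' : b'.Coprime r')
    (hne : ¬ (r = r' ∧ b = b')) :
    1 / (Q : ℝ) ^ 2 ≤
      ‖(((b : ℝ) / r : ℝ) : UnitAddCircle) - (((b' : ℝ) / r' : ℝ) : UnitAddCircle)‖ := by
  have hr0 : (0 : ℝ) < r := by exact_mod_cast hr
  have hr0' : (0 : ℝ) < r' := by exact_mod_cast hr'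
  have hQ0 : (0 : ℝ) < Q := lt_of_lt_of_le hr0 (by exact_mod_cast hrQ)
  rw [← AddCircle.coe_sub, UnitAddCircle.norm_eq]
  generalize round ((b : ℝ) / r - (b' : ℝ) / r') = k
  have h1 : (b : ℝ) / r - (b' : ℝ) / r' - k =
      (((b : ℤ) * r' - b' * r - k * (r * r') : ℤ) : ℝ) / (r * r') := by
    push_cast
    field_simp
  rw [h1, abs_div, abs_of_pos (mul_pos hr0 hr0')]
  have h2 : ((b : ℤ) * r' - b' * r - k * (r * r') : ℤ) ≠ 0 := by
    intro h0
    have i1 : (0 : ℤ) ≤ (b : ℤ) * r' := by positivity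
    have i2 : (0 : ℤ) ≤ (b' : ℤ) * r := by positivity
    have i3 : (b : ℤ) * r' < r * r' := by
      have : b * r' < r * r' := Nat.mul_lt_mul_of_pos_right hb hr'
      exact_mod_cast this
    have i4 : (b' : ℤ) * r < r * r' := by
      have : b' * r < r' * r := Nat.mul_lt_mul_of_pos_right hb' hr
      rw [mul_comm r' r] at this
      exact_mod_cast this
    have i5 : (0 : ℤ) < r * r' := by
      have : 0 < r * r' := Nat.mul_pos hr hr'
      exact_mod_cast this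
    have hk0 : k = 0 := by
      by_contra hk
      rcases lt_or_gt_of_ne hk with hk | hk
      · have : k * ((r : ℤ) * r') ≤ -1 * ((r : ℤ) * r') :=
          mul_le_mul_of_nonneg_right (by omega) i5.le
        linarith
      · have : 1 * ((r : ℤ) * r') ≤ k * ((r : ℤ) * r') :=
          mul_le_mul_of_nonneg_right (by omega) i5.le
        linarith
    rw [hk0, zero_mul, sub_zero, sub_eq_zero] at h0
    have h3 : b * r' = b' * r := by exact_mod_cast h0
    have d1 : r ∣ r' := by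
      have : r ∣ b * r' := ⟨b', by rw [h3, mul_comm]⟩
      exact hc.symm.dvd_of_dvd_mul_left this
    have d2 : r' ∣ r := by
      have : r' ∣ b' * r := ⟨b, by rw [← h3, mul_comm]⟩
      exact hc'.symm.dvd_of_dvd_mul_left this
    have d3 : r = r' := Nat.dvd_antisymm d1 d2
    refine hne ⟨d3, ?_⟩
    rw [← d3] at h3
    exact Nat.eq_of_mul_eq_mul_right hr h3
  have h3 : (1 : ℝ) ≤ |(((b : ℤ) * r' - b' * r - k * (r * r') : ℤ) : ℝ)| := by
    exact_mod_cast Int.one_le_abs h2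
  have h4 : (r : ℝ) * r' ≤ (Q : ℝ) ^ 2 := by
    have h5 : (r : ℝ) ≤ Q := by exact_mod_cast hrQ
    have h6 : (r' : ℝ) ≤ Q := by exact_mod_cast hrQ'
    nlinarith
  calc 1 / (Q : ℝ) ^ 2 ≤ 1 / ((r : ℝ) * r') := one_div_le_one_div_of_le (mul_pos hr0 hr0') h4
    _ ≤ _ := div_le_div_of_nonneg_right h3 (mul_pos hr0 hr0').le

theorem farey_ls (Q u v : ℕ) (huv : u ≤ v) (a : ℕ → ℂ) :
    ∑ r ∈ Icc 1 Q, ∑ b ∈ (range r).filter (fun b => b.Coprime r),
        ‖∑ m ∈ Ioc u v, a m * Complex.exp (2 * Real.pi * Complex.I * ((m * b : ℕ) / (r : ℂ)))‖ ^ 2 ≤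
      20 * ((v - u : ℝ) + 1 + (Q : ℝ) ^ 2) * ∑ m ∈ Ioc u v, ‖a m‖ ^ 2 := by
  classical
  obtain ⟨H, hH⟩ : ∃ H : ℕ, H = v - u + 1 := ⟨_, rfl⟩
  have hH0 : 0 < H := by omega
  have hHr : (H : ℝ) = (v - u : ℝ) + 1 := by
    rw [hH]
    push_cast [Nat.cast_sub huv]
    ring
  have hH0' : (0 : ℝ) < H := by exact_mod_cast hH0
  obtain ⟨L, hL⟩ : ∃ L : ℕ, L = ⌈(Q : ℝ) ^ 2 / H⌉₊ := ⟨_, rfl⟩
  have hL1 : (Q : ℝ) ^ 2 / H ≤ L := by
    rw [hL]
    exact Nat.le_ceil _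
  have hL2 : (L : ℝ) < (Q : ℝ) ^ 2 / H + 1 := by
    rw [hL]
    exact Nat.ceil_lt_add_one (by positivity)
  obtain ⟨x, hx⟩ : ∃ x : (Σ _ : ℕ, ℕ) → UnitAddCircle,
      ∀ p, x p = (((p.2 : ℝ) / p.1 : ℝ) : UnitAddCircle) := ⟨_, fun _ => rfl⟩
  obtain ⟨S, hS⟩ : ∃ S : Finset (Σ _ : ℕ, ℕ),
      S = (Icc 1 Q).sigma (fun r => (range r).filter (fun b => b.Coprime r)) := ⟨_, rfl⟩
  have hmem : ∀ p ∈ S, 1 ≤ p.1 ∧ p.1 ≤ Q ∧ p.2 < p.1 ∧ p.2.Coprime p.1 := by
    intro p hp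
    rw [hS, Finset.mem_sigma, Finset.mem_Icc, Finset.mem_filter, Finset.mem_range] at hp
    exact ⟨hp.1.1, hp.1.2, hp.2.1, hp.2.2⟩
  have hR : ∀ i ∈ S, #{j ∈ S | ‖x j - x i‖ < 1 / (H : ℝ)} ≤ 2 * L := by
    intro i hi
    have hQ : 1 ≤ Q := (hmem i hi).1.trans (hmem i hi).2.1
    have hQ0 : (0 : ℝ) < (Q : ℝ) ^ 2 := by
      have : (0 : ℝ) < Q := by exact_mod_cast hQ
      positivity
    choose t ht1 ht2 using fun j : (Σ _ : ℕ, ℕ) => LSieve.exists_rep (x j - x i)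
    have hcard : (Finset.Ico (-(L : ℤ)) (L : ℤ)).card = 2 * L := by
      rw [Int.card_Ico]
      omega
    rw [← hcard]
    refine Finset.card_le_card_of_injOn (fun j => ⌊t j * (Q : ℝ) ^ 2⌋) ?_ ?_
    · intro j hj
      rw [Finset.mem_coe, Finset.mem_filter] at hj
      have h1 : |t j| < 1 / (H : ℝ) := by
        rw [ht2]
        exact hj.2
      obtain ⟨h2, h3⟩ := abs_lt.1 h1
      have h4 : t j * (Q : ℝ) ^ 2 < L := by
        refine lt_of_lt_of_le (mul_lt_mul_of_pos_right h3 hQ0) ?_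
        rw [one_div, inv_mul_eq_div]
        exact hL1
      have h5 : -(L : ℝ) ≤ t j * (Q : ℝ) ^ 2 := by
        refine le_trans ?_ (mul_lt_mul_of_pos_right h2 hQ0).le
        rw [neg_mul, one_div, inv_mul_eq_div]
        exact neg_le_neg hL1
      rw [Finset.mem_coe, Finset.mem_Ico]
      refine ⟨Int.le_floor.2 ?_, Int.floor_lt.2 ?_⟩
      · push_cast
        exact h5
      · push_cast
        exact h4
    · intro j hj k hk hjk
      rw [Finset.mem_coe, Finset.mem_filter] at hj hk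
      by_contra hne
      have h1 : |t j * (Q : ℝ) ^ 2 - t k * (Q : ℝ) ^ 2| < 1 :=
        Int.abs_sub_lt_one_of_floor_eq_floor hjk
      rw [← sub_mul, abs_mul, abs_of_pos hQ0] at h1
      obtain ⟨a1, a2, a3, a4⟩ := hmem j hj.1
      obtain ⟨b1, b2, b3, b4⟩ := hmem k hk.1
      have h2 := L1_sep a1 a2 b1 b2 a3 b3 a4 b4 (by
        rintro ⟨e1, e2⟩
        exact hne (Sigma.ext e1 (heq_of_eq e2)))
      have h3 : ((t j - t k : ℝ) : UnitAddCircle) = x j - x k := by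
        rw [AddCircle.coe_sub, ht1, ht1]
        abel
      have h4 := LSieve.norm_coe_le (t j - t k)
      rw [h3, hx, hx] at h4
      have h5 := h2.trans h4
      rw [div_le_iff₀ hQ0] at h5
      linarith
  obtain ⟨f, hf⟩ : ∃ f : ℤ → ℂ, ∀ n, f n = a n.toNat := ⟨_, fun _ => rfl⟩
  have hs : (Ioc u v).map (Nat.castEmbedding (R := ℤ)) ⊆ Ico ((u : ℤ) + 1) ((u : ℤ) + 1 + H) := by
    intro n hn
    rw [Finset.mem_map] at hn
    obtain ⟨m, hm, rfl⟩ := hn
    rw [Finset.mem_Ioc] at hm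
    rw [Finset.mem_Ico]
    simp only [Nat.castEmbedding_apply]
    omega
  have hmain := LSieve.large_sieve S x H (2 * L) hH0 hR ((u : ℤ) + 1)
    ((Ioc u v).map (Nat.castEmbedding (R := ℤ))) hs f
  have hexp : ∀ p : (Σ _ : ℕ, ℕ), LSieve.expSum ((Ioc u v).map (Nat.castEmbedding (R := ℤ))) f (x p) =
      ∑ m ∈ Ioc u v, a m * Complex.exp (2 * Real.pi * Complex.I * ((m * p.2 : ℕ) / (p.1 : ℂ))) := by
    intro p
    unfold LSieve.expSum
    rw [Finset.sum_map]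
    refine Finset.sum_congr rfl fun m _ => ?_
    rw [hf, hx, Nat.castEmbedding_apply, Int.toNat_natCast, ← AddCircle.coe_zsmul, LSieve.e_coe]
    congr 2
    rw [zsmul_eq_mul]
    push_cast
    ring
  have hrhs : ∑ n ∈ (Ioc u v).map (Nat.castEmbedding (R := ℤ)), ‖f n‖ ^ 2 =
      ∑ m ∈ Ioc u v, ‖a m‖ ^ 2 := by
    rw [Finset.sum_map]
    refine Finset.sum_congr rfl fun m _ => ?_
    rw [hf, Nat.castEmbedding_apply, Int.toNat_natCast]
  rw [hrhs] at hmain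
  have hlhs : ∑ r ∈ Icc 1 Q, ∑ b ∈ (range r).filter (fun b => b.Coprime r),
        ‖∑ m ∈ Ioc u v, a m * Complex.exp (2 * Real.pi * Complex.I * ((m * b : ℕ) / (r : ℂ)))‖ ^ 2 =
      ∑ i ∈ S, ‖LSieve.expSum ((Ioc u v).map (Nat.castEmbedding (R := ℤ))) f (x i)‖ ^ 2 := by
    rw [hS, Finset.sum_sigma]
    refine Finset.sum_congr rfl fun r _ => Finset.sum_congr rfl fun b _ => ?_
    rw [hexp]
  rw [hlhs]
  refine hmain.trans (mul_le_mul_of_nonneg_right ?_ (Finset.sum_nonneg fun _ _ => by positivity))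
  have h6 : (L : ℝ) * H ≤ (Q : ℝ) ^ 2 + H := by
    have := mul_le_mul_of_nonneg_right hL2.le hH0'.le
    rwa [add_mul, div_mul_cancel₀ _ hH0'.ne', one_mul] at this
  rw [← hHr]
  push_cast
  have h7 : (0 : ℝ) ≤ (Q : ℝ) ^ 2 := by positivity
  nlinarith

end Pool.Agent.LibBW4
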