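import Pool.Agent.LibBW4.Defs2

/-!
Row L2 (MEDIUM): from additive to multiplicative characters. For a primitive `ψ` modulo `r` and all `m`: `∑_b ψ⁻¹(b) e(b m/r) = ψ(m) G`, `G` the Gauss sum of `ψ⁻¹` (Mathlib `gaussSum_mulShift_of_isPrimitive`), and `|G|² = r`
(look in Mathlib / the libraries; or: `∑_m |∑_b ψ⁻¹(b) e(bm/r)|² = r φ(r)` by orthogonality and `= φ(r) |G|²`). So with `S(b/r) = ∑ a m e(m b/r)`: `r |∑ a m ψ m|² = |∑_b ψ⁻¹(b) S(b/r)|²`; sum over all characters modulo `r`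
(more than the primitive ones) with orthogonality: `∑_χ |∑_b χ(b) S(b/r)|² = φ(r) ∑_{(b,r)=1} |S(b/r)|²`.
-/

open Finset

namespace Pool.Agent.LibBW4

private theorem L2_sq (z : ℂ) : ((‖z‖ ^ 2 : ℝ) : ℂ) = z * (starRingEnd ℂ) z := by
  rw [RCLike.mul_conj]
  push_cast
  rfl

private theorem L2_G {r : ℕ} [NeZero r] {χ : DirichletCharacter ℂ r} (hχ : χ.IsPrimitive) :
    ‖gaussSum χ (ZMod.stdAddChar (N := r))‖ ^ 2 = r := by
  apply Complex.ofReal_injective
  rw [L2_sq]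
  have h0 : (starRingEnd ℂ) (gaussSum χ (ZMod.stdAddChar (N := r))) =
      gaussSum χ⁻¹ (ZMod.stdAddChar (N := r))⁻¹ := star_gaussSum_eq χ _
  rw [h0]
  have h1 : gaussSum χ (ZMod.stdAddChar (N := r)) * gaussSum χ⁻¹ (ZMod.stdAddChar (N := r))⁻¹ =
      ∑ b : ZMod r, (ZMod.stdAddChar (N := r)) (-b) *
        gaussSum χ ((ZMod.stdAddChar (N := r)).mulShift b) := by
    conv_lhs => rw [gaussSum.eq_1 χ⁻¹, Finset.mul_sum]
    refine Finset.sum_congr rfl fun b _ => ?_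
    rw [gaussSum_mulShift_of_isPrimitive _ hχ, AddChar.inv_apply]
    ring
  have h2 : ∀ b : ZMod r, (ZMod.stdAddChar (N := r)) (-b) *
        gaussSum χ ((ZMod.stdAddChar (N := r)).mulShift b) =
      ∑ c : ZMod r, χ c * (ZMod.stdAddChar (N := r)) (b * (c - 1)) := by
    intro b
    rw [gaussSum, Finset.mul_sum]
    refine Finset.sum_congr rfl fun c _ => ?_
    rw [AddChar.mulShift_apply, mul_sub, mul_one, sub_eq_add_neg, AddChar.map_add_eq_mul]
    ring
  rw [h1, Finset.sum_congr rfl fun b _ => h2 b, Finset.sum_comm]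
  have h3 : ∀ c : ZMod r, ∑ b : ZMod r, χ c * (ZMod.stdAddChar (N := r)) (b * (c - 1)) =
      if c = 1 then (r : ℂ) else 0 := by
    intro c
    rw [← Finset.mul_sum, AddChar.sum_mulShift _ (ZMod.isPrimitive_stdAddChar r)]
    by_cases h : c = 1
    · rw [if_pos (sub_eq_zero.2 h), if_pos h, h, map_one, one_mul, ZMod.card]
    · rw [if_neg (fun h' => h (sub_eq_zero.1 h')), if_neg h, Nat.cast_zero, mul_zero]
  rw [Finset.sum_congr rfl fun c _ => h3 c, Finset.sum_ite_eq' Finset.univ, if_pos (Finset.mem_univ _)]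
  push_cast
  rfl

private theorem L2_orth {r : ℕ} [NeZero r] (b c : ZMod r) :
    ∑ χ : DirichletCharacter ℂ r, χ b * χ⁻¹ c = if IsUnit c ∧ b = c then (r.totient : ℂ) else 0 := by
  by_cases hc : IsUnit c
  · have h1 : ∀ χ : DirichletCharacter ℂ r, χ b * χ⁻¹ c = χ (b * Ring.inverse c) := by
      intro χ
      rw [MulChar.inv_apply, map_mul]
    rw [Finset.sum_congr rfl fun χ _ => h1 χ, DirichletCharacter.sum_characters_eq]
    have h2 : b * Ring.inverse c = 1 ↔ IsUnit c ∧ b = c := by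
      constructor
      · intro h
        refine ⟨hc, ?_⟩
        calc b = b * Ring.inverse c * c := by rw [mul_assoc, Ring.inverse_mul_cancel c hc, mul_one]
          _ = c := by rw [h, one_mul]
      · rintro ⟨-, rfl⟩
        exact Ring.mul_inverse_cancel b hc
    simp only [h2]
  · rw [if_neg (fun h => hc h.1)]
    refine Finset.sum_eq_zero fun χ _ => ?_
    rw [MulChar.map_nonunit _ hc, mul_zero]

private theorem L2_pars {r : ℕ} [NeZero r] (S : ZMod r → ℂ) :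
    ∑ χ : DirichletCharacter ℂ r, ‖∑ b : ZMod r, χ b * S b‖ ^ 2 =
      (r.totient : ℝ) * ∑ b ∈ univ.filter (fun b : ZMod r => IsUnit b), ‖S b‖ ^ 2 := by
  apply Complex.ofReal_injective
  rw [Complex.ofReal_sum, Complex.ofReal_mul, Complex.ofReal_sum]
  simp only [L2_sq]
  have h1 : ∀ χ : DirichletCharacter ℂ r, (∑ b : ZMod r, χ b * S b) *
      (starRingEnd ℂ) (∑ b : ZMod r, χ b * S b) =
      ∑ b : ZMod r, ∑ c : ZMod r, (S b * (starRingEnd ℂ) (S c)) * (χ b * χ⁻¹ c) := by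
    intro χ
    rw [map_sum, Finset.sum_mul_sum]
    refine Finset.sum_congr rfl fun b _ => Finset.sum_congr rfl fun c _ => ?_
    have h2 : (starRingEnd ℂ) (χ c) = χ⁻¹ c := MulChar.star_apply' χ c
    rw [map_mul, h2]
    ring
  rw [Finset.sum_congr rfl fun χ _ => h1 χ, Finset.sum_comm]
  have h2 : ∀ b : ZMod r, ∑ χ : DirichletCharacter ℂ r, ∑ c : ZMod r,
      (S b * (starRingEnd ℂ) (S c)) * (χ b * χ⁻¹ c) =
      if IsUnit b then (r.totient : ℂ) * (S b * (starRingEnd ℂ) (S b)) else 0 := by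
    intro b
    rw [Finset.sum_comm]
    have h3 : ∀ c : ZMod r, ∑ χ : DirichletCharacter ℂ r, (S b * (starRingEnd ℂ) (S c)) * (χ b * χ⁻¹ c) =
        if b = c then (if IsUnit c then (r.totient : ℂ) * (S b * (starRingEnd ℂ) (S c)) else 0) else 0 := by
      intro c
      rw [← Finset.mul_sum, L2_orth]
      by_cases h4 : b = c <;> by_cases h5 : IsUnit c <;> simp [h4, h5, mul_comm]
    rw [Finset.sum_congr rfl fun c _ => h3 c, Finset.sum_ite_eq Finset.univ, if_pos (Finset.mem_univ _)]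
  rw [Finset.sum_congr rfl fun b _ => h2 b, Finset.mul_sum, Finset.sum_filter]
  push_cast
  rfl

theorem gauss_red (r : ℕ) (hr : 1 ≤ r) (s : Finset ℕ) (a : ℕ → ℂ) :
    (r : ℝ) / (r.totient : ℝ) * ∑ ψ ∈ Prm r, ‖∑ m ∈ s, a m * ψ (m : ZMod r)‖ ^ 2 ≤
      ∑ b ∈ (range r).filter (fun b => b.Coprime r),
        ‖∑ m ∈ s, a m * Complex.exp (2 * Real.pi * Complex.I * ((m * b : ℕ) / (r : ℂ)))‖ ^ 2 := by
  have : NeZero r := ⟨by omega⟩
  obtain ⟨S, hS⟩ : ∃ S : ZMod r → ℂ, S = fun b => ∑ m ∈ s, a m * (ZMod.stdAddChar (N := r)) ((m : ZMod r) * b) :=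
    ⟨_, rfl⟩
  have hR : ∑ b ∈ (range r).filter (fun b => b.Coprime r),
        ‖∑ m ∈ s, a m * Complex.exp (2 * Real.pi * Complex.I * ((m * b : ℕ) / (r : ℂ)))‖ ^ 2 =
      ∑ b ∈ univ.filter (fun b : ZMod r => IsUnit b), ‖S b‖ ^ 2 := by
    refine Finset.sum_nbij' (fun b => (b : ZMod r)) (fun b => b.val) ?_ ?_ ?_ ?_ ?_
    · intro b hb
      rw [Finset.mem_filter] at hb ⊢
      exact ⟨Finset.mem_univ _, (ZMod.isUnit_iff_coprime b r).2 hb.2⟩
    · intro b hb
      rw [Finset.mem_filter] at hb ⊢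
      refine ⟨Finset.mem_range.2 (ZMod.val_lt b), (ZMod.isUnit_iff_coprime _ r).1 ?_⟩
      rw [ZMod.natCast_zmod_val]
      exact hb.2
    · intro b hb
      rw [Finset.mem_filter, Finset.mem_range] at hb
      exact ZMod.val_natCast_of_lt hb.1
    · intro b _
      exact ZMod.natCast_zmod_val b
    · intro b _
      rw [hS]
      congr 2
      refine Finset.sum_congr rfl fun m _ => ?_
      congr 1
      have h1 : ((m : ZMod r) * (b : ZMod r)) = (((m * b : ℕ) : ℤ) : ZMod r) := by push_cast; rfl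
      rw [h1, ZMod.stdAddChar_coe]
      congr 1
      push_cast
      ring
  have hT : ∀ ψ ∈ Prm r, (r : ℝ) * ‖∑ m ∈ s, a m * ψ (m : ZMod r)‖ ^ 2 =
      ‖∑ b : ZMod r, ψ⁻¹ b * S b‖ ^ 2 := by
    intro ψ hψ
    have hψ' : ψ.IsPrimitive := by
      classical
      unfold Prm at hψ
      exact (Finset.mem_filter.1 hψ).2
    have hψi : (ψ⁻¹).IsPrimitive := by
      unfold DirichletCharacter.IsPrimitive at hψ' ⊢
      rw [DirichletCharacter.conductor_inv]
      exact hψ'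
    have h1 : ∑ b : ZMod r, ψ⁻¹ b * S b =
        (∑ m ∈ s, a m * ψ (m : ZMod r)) * gaussSum ψ⁻¹ (ZMod.stdAddChar (N := r)) := by
      rw [hS, Finset.sum_mul]
      have h2 : ∀ b : ZMod r, ψ⁻¹ b * ∑ m ∈ s, a m * (ZMod.stdAddChar (N := r)) ((m : ZMod r) * b) =
          ∑ m ∈ s, a m * (ψ⁻¹ b * (ZMod.stdAddChar (N := r)) ((m : ZMod r) * b)) := by
        intro b
        rw [Finset.mul_sum]
        exact Finset.sum_congr rfl fun m _ => by ring
      rw [Finset.sum_congr rfl fun b _ => h2 b, Finset.sum_comm]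
      refine Finset.sum_congr rfl fun m _ => ?_
      rw [← Finset.mul_sum, mul_assoc]
      congr 1
      have h3 := gaussSum_mulShift_of_isPrimitive (ZMod.stdAddChar (N := r)) hψi (m : ZMod r)
      rw [inv_inv] at h3
      rw [← h3]
      rfl
    rw [h1, norm_mul, mul_pow, L2_G hψi]
    ring
  have hφ : (0 : ℝ) < (r.totient : ℝ) := by exact_mod_cast Nat.totient_pos.2 hr
  rw [hR, div_mul_eq_mul_div, div_le_iff₀ hφ, Finset.mul_sum, Finset.sum_congr rfl hT]
  have h1 := L2_pars S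
  rw [mul_comm, ← h1]
  have h2 : ∑ χ : DirichletCharacter ℂ r, ‖∑ b : ZMod r, χ b * S b‖ ^ 2 =
      ∑ χ : DirichletCharacter ℂ r, ‖∑ b : ZMod r, χ⁻¹ b * S b‖ ^ 2 :=
    (Equiv.sum_comp (Equiv.inv (DirichletCharacter ℂ r))
      (fun χ => ‖∑ b : ZMod r, χ b * S b‖ ^ 2)).symm
  rw [h2]
  exact Finset.sum_le_sum_of_subset_of_nonneg (Finset.subset_univ _) fun χ _ _ => by positivity

end Pool.Agent.LibBW4
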