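import Pool.Agent.LibBW4.L1
import Pool.Agent.LibBW4.L2

/-!
Row L3 (SHORT): the multiplicative large sieve, from L1 and L2; and its form for `cs` (coefficients `α m` for `(m, s) = 1`, else `0`).
-/

open Finset

namespace Pool.Agent.LibBW4

theorem mls (Q u v : ℕ) (huv : u ≤ v) (a : ℕ → ℂ) :
    ∑ r ∈ Icc 1 Q, (r : ℝ) / (r.totient : ℝ) * ∑ ψ ∈ Prm r, ‖∑ m ∈ Ioc u v, a m * ψ (m : ZMod r)‖ ^ 2 ≤
      20 * ((v - u : ℝ) + 1 + (Q : ℝ) ^ 2) * ∑ m ∈ Ioc u v, ‖a m‖ ^ 2 := by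
  refine le_trans (Finset.sum_le_sum fun r hr => ?_) (farey_ls Q u v huv a)
  exact gauss_red r (Finset.mem_Icc.1 hr).1 (Ioc u v) a

theorem mls_cs (Q u v s : ℕ) (huv : u ≤ v) (α : ℕ → ℂ) :
    ∑ r ∈ Icc 1 Q, (r : ℝ) / (r.totient : ℝ) * ∑ ψ ∈ Prm r, ‖cs α u v s ψ‖ ^ 2 ≤
      20 * ((v - u : ℝ) + 1 + (Q : ℝ) ^ 2) * ∑ m ∈ Ioc u v, ‖α m‖ ^ 2 := by
  have h0 := mls Q u v huv (fun m => if m.Coprime s then α m else 0)
  have h1 : ∑ m ∈ Ioc u v, ‖(if m.Coprime s then α m else 0 : ℂ)‖ ^ 2 ≤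
      ∑ m ∈ Ioc u v, ‖α m‖ ^ 2 := by
    refine Finset.sum_le_sum fun m _ => ?_
    split_ifs with h
    · exact le_rfl
    · rw [norm_zero, zero_pow two_ne_zero]; positivity
  have h2 : ∀ (r : ℕ) (ψ : DirichletCharacter ℂ r), cs α u v s ψ =
      ∑ m ∈ Ioc u v, (if m.Coprime s then α m else 0) * ψ (m : ZMod r) := by
    intro r ψ
    simp [cs, Finset.sum_filter, ite_mul]
  simp only [h2]
  refine h0.trans (mul_le_mul_of_nonneg_left h1 ?_)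
  have : (u : ℝ) ≤ v := by exact_mod_cast huv
  have : (0 : ℝ) ≤ (Q : ℝ) ^ 2 := by positivity
  linarith

end Pool.Agent.LibBW4
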