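import Pool.Agent.LibBW4.V4
import Pool.Agent.LibBW4.V5

/-!
Row Main (SHORT): Bombieri-Vinogradov for primes, from V4 and V5.
-/

open Finset

namespace Pool.Agent.LibBW4

theorem bv_primes : BVprimes := by
  intro A C θ hθ
  obtain ⟨A', N1, h1⟩ := add_C A C θ hθ
  obtain ⟨N2, h2⟩ := bv_pr A' θ hθ
  refine ⟨max N1 N2, fun N hN u v hv c hc => ?_⟩
  refine h1 N (le_trans (le_max_left _ _) hN) pr (fun m => ?_) u v hv c
    (h2 N (le_trans (le_max_right _ _) hN) u v hv c hc)
  rw [pr]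
  split_ifs
  · rw [abs_one]
  · rw [abs_zero]
    exact zero_le_one

end Pool.Agent.LibBW4
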