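import Mathlib

/-!
Row R1 (SHORT/MEDIUM): exact decomposition of a region into rectangles. For `m < 2^h` put `top_l(m) = (m/2^l) 2^l + 2^l - 1` (the largest element of the dyadic interval of length `2^l` containing `m`); `top_0(m) = m`, `top_h(m) = 2^h - 1`.
With `S(m, y) = ∑_{k ≤ y} F m k`: `S(m, f m) = S(m, f (2^h-1)) + ∑_{l<h} (S(m, f top_l(m)) - S(m, f top_(l+1)(m)))` (telescoping); group the `m` by `j = m/2^l`, `top_(l+1) = (j/2 + 1) 2^(l+1) - 1`.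
-/

open Finset

namespace Pool.Agent.LibBW4

private theorem R1_blocks (q : ℕ) (G : ℕ → ℕ → ℂ) (hq : 0 < q) (J : ℕ) :
    ∑ j ∈ range J, ∑ m ∈ Ico (j * q) ((j + 1) * q), G j m = ∑ m ∈ range (J * q), G (m / q) m := by
  induction J with
  | zero => simp
  | succ J ih =>
    have h1 : J * q ≤ (J + 1) * q := Nat.mul_le_mul_right q (Nat.le_succ J)
    rw [sum_range_succ, ih, range_eq_Ico, range_eq_Ico,
      ← sum_Ico_consecutive (fun m => G (m / q) m) (Nat.zero_le _) h1]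
    congr 1
    apply sum_congr rfl
    intro m hm
    rw [mem_Ico] at hm
    have h2 : m / q = J := Nat.div_eq_of_lt_le hm.1 hm.2
    rw [h2]

private theorem R1_aux (h : ℕ) (f : ℕ → ℕ) (S : ℕ → ℕ → ℂ) :
    ∑ m ∈ range (2 ^ h), S m (f m) =
      ∑ m ∈ range (2 ^ h), S m (f (2 ^ h - 1)) +
      ∑ l ∈ range h, ∑ j ∈ range (2 ^ (h - l)), ∑ m ∈ Ico (j * 2 ^ l) ((j + 1) * 2 ^ l),
        (S m (f ((j + 1) * 2 ^ l - 1)) - S m (f ((j / 2 + 1) * 2 ^ (l + 1) - 1))) := by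
  have h1 : ∀ l ∈ range h, ∑ j ∈ range (2 ^ (h - l)), ∑ m ∈ Ico (j * 2 ^ l) ((j + 1) * 2 ^ l),
        (S m (f ((j + 1) * 2 ^ l - 1)) - S m (f ((j / 2 + 1) * 2 ^ (l + 1) - 1))) =
      ∑ m ∈ range (2 ^ h), (S m (f ((m / 2 ^ l + 1) * 2 ^ l - 1)) -
        S m (f ((m / 2 ^ (l + 1) + 1) * 2 ^ (l + 1) - 1))) := by
    intro l hl
    rw [mem_range] at hl
    rw [R1_blocks (2 ^ l) (fun j m => S m (f ((j + 1) * 2 ^ l - 1)) -
      S m (f ((j / 2 + 1) * 2 ^ (l + 1) - 1))) (Nat.two_pow_pos l)]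
    rw [← pow_add, Nat.sub_add_cancel hl.le]
    apply sum_congr rfl
    intro m _
    show S m (f ((m / 2 ^ l + 1) * 2 ^ l - 1)) - S m (f ((m / 2 ^ l / 2 + 1) * 2 ^ (l + 1) - 1)) = _
    rw [Nat.div_div_eq_div_mul, ← pow_succ]
  rw [sum_congr rfl h1, sum_comm, ← sum_add_distrib]
  apply sum_congr rfl
  intro m hm
  rw [mem_range] at hm
  rw [sum_range_sub' (fun l => S m (f ((m / 2 ^ l + 1) * 2 ^ l - 1))) h]
  have h2 : (m / 2 ^ 0 + 1) * 2 ^ 0 - 1 = m := by simp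
  have h3 : (m / 2 ^ h + 1) * 2 ^ h - 1 = 2 ^ h - 1 := by
    rw [Nat.div_eq_of_lt hm, zero_add, one_mul]
  rw [h2, h3]
  ring

theorem tele (h : ℕ) (f : ℕ → ℕ) (F : ℕ → ℕ → ℂ) :
    ∑ m ∈ range (2 ^ h), ∑ k ∈ Icc 1 (f m), F m k =
      ∑ m ∈ range (2 ^ h), ∑ k ∈ Icc 1 (f (2 ^ h - 1)), F m k +
      ∑ l ∈ range h, ∑ j ∈ range (2 ^ (h - l)), ∑ m ∈ Ico (j * 2 ^ l) ((j + 1) * 2 ^ l),
        (∑ k ∈ Icc 1 (f ((j + 1) * 2 ^ l - 1)), F m k - ∑ k ∈ Icc 1 (f ((j / 2 + 1) * 2 ^ (l + 1) - 1)), F m k) := by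
  rw [R1_aux h f (fun m y => ∑ k ∈ Icc 1 y, F m k)]

end Pool.Agent.LibBW4
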