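import Pool.Agent.LibBW4.G2
import Pool.Agent.LibBW4.R1

/-!
Row R2 (MEDIUM): regions under monotone or antitone functions. Replace `f` by `f (min m v)` (still monotone or antitone and `≤ Y` on `m > u`), shift `m = u + 1 + m'`, `α = 0` beyond `v`, `2^h ≥ v - u`, `h ≤ log₂(v-u) + 1`; R1. Each difference of two sums
over `Icc 1 _` is `±` a sum over `Ioc k0 k1`, `k0 ≤ k1 ≤ Y`; so `regn` is a sum of `±` rectangles. For a fixed level `l` the `m`-intervals are disjoint and the `k`-intervals `(k0, k1]` between `f top_l` and `f top_(l+1)` for different `j/2` are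
disjoint, each occurring for the two `j` with the same `j/2` (for odd `j` it is empty, `top_l = top_(l+1)`), so `∑_j sqrt(A2_j B2_j) ≤ sqrt((∑ A2_j)(∑ B2_j)) ≤ sqrt(A2 B2)` (Cauchy-Schwarz), `∑_j A1_j ≤ A1`, `X_j ≤ X`, `Y_j ≤ Y + 1`: each level
costs at most `tS Q * bd Q L X (Y+1) A1 A2 B2 E` by G2 (`bd` is linear in `A1` and `sqrt (A2 B2)`), and there are `h + 1 ≤ log₂(v-u) + 2` levels.
-/

open Finset

namespace Pool.Agent.LibBW4

private theorem R2_shift (u v a b : ℕ) (Φ : ℕ → ℂ) :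
    ∑ m' ∈ Ico a b, (if m' < v - u then Φ (u + 1 + m') else 0) = ∑ m ∈ Ioc (min (u + a) v) (min (u + b) v), Φ m := by
  rw [← Finset.sum_filter]
  refine Finset.sum_nbij (fun m' => u + 1 + m') ?_ ?_ ?_ ?_
  · intro m' hm'
    simp only [mem_filter, mem_Ico] at hm'
    simp only [mem_Ioc]
    omega
  · intro x _ y _ hxy
    simp only at hxy
    omega
  · intro m hm
    simp only [coe_Ioc, Set.mem_Ioc] at hm
    simp only [coe_filter, mem_Ico, Set.mem_image, Set.mem_ofPred_eq]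
    exact ⟨m - (u + 1), by omega, by omega⟩
  · intro m' _
    rfl

private theorem R2_icc (G : ℕ → ℂ) (y1 y2 : ℕ) (h : y2 ≤ y1) :
    ∑ k ∈ Icc 1 y1, G k - ∑ k ∈ Icc 1 y2, G k = ∑ k ∈ Ioc y2 y1, G k := by
  have e : ∀ y : ℕ, Icc 1 y = Ioc 0 y := by
    intro y
    ext k
    simp only [mem_Icc, mem_Ioc]
    omega
  rw [e, e, ← Finset.sum_Ioc_consecutive G (Nat.zero_le y2) h]
  ring

private theorem R2_piece (α β : ℕ → ℂ) (u v a b q c y1 y2 : ℕ) :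
    ‖∑ m' ∈ Ico a b, (∑ k ∈ Icc 1 y1, (if m' < v - u then α (u + 1 + m') * β k * dd q c ((u + 1 + m') * k) else 0) -
      ∑ k ∈ Icc 1 y2, (if m' < v - u then α (u + 1 + m') * β k * dd q c ((u + 1 + m') * k) else 0))‖ =
    ‖rect α β (min (u + a) v) (min (u + b) v) (min y1 y2) (max y1 y2) q c‖ := by
  have key : ∀ z1 z2 : ℕ, z2 ≤ z1 →
      ∑ m' ∈ Ico a b, (∑ k ∈ Icc 1 z1, (if m' < v - u then α (u + 1 + m') * β k * dd q c ((u + 1 + m') * k) else 0) -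
      ∑ k ∈ Icc 1 z2, (if m' < v - u then α (u + 1 + m') * β k * dd q c ((u + 1 + m') * k) else 0)) =
      rect α β (min (u + a) v) (min (u + b) v) z2 z1 q c := by
    intro z1 z2 h
    unfold rect
    rw [← R2_shift u v a b (fun m => ∑ k ∈ Ioc z2 z1, α m * β k * dd q c (m * k))]
    apply Finset.sum_congr rfl
    intro m' _
    rw [R2_icc _ _ _ h]
    by_cases hm : m' < v - u
    · simp only [if_pos hm]
    · simp only [if_neg hm, Finset.sum_const_zero]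
  rcases le_total y2 y1 with h | h
  · rw [min_eq_right h, max_eq_left h, key y1 y2 h]
  · rw [min_eq_left h, max_eq_right h, ← key y2 y1 h, ← norm_neg, ← Finset.sum_neg_distrib]
    congr 1
    apply Finset.sum_congr rfl
    intro m' _
    ring

private theorem R2_disj {ι : Type*} (J : Finset ι) (s : ι → Finset ℕ) (S : Finset ℕ) (φ : ℕ → ℝ)
    (h0 : ∀ m, 0 ≤ φ m) (hs : ∀ j ∈ J, s j ⊆ S) (hd : ∀ i ∈ J, ∀ j ∈ J, i ≠ j → Disjoint (s i) (s j)) :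
    ∑ j ∈ J, ∑ m ∈ s j, φ m ≤ ∑ m ∈ S, φ m := by
  classical
  rw [← Finset.sum_biUnion (by
    intro i hi j hj hij
    exact hd i hi j hj hij)]
  apply Finset.sum_le_sum_of_subset_of_nonneg
  · intro m hm
    rw [mem_biUnion] at hm
    obtain ⟨j, hj, hm⟩ := hm
    exact hs j hj hm
  · intro m _ _
    exact h0 m

private theorem R2_bd (Q L : ℕ) (J : Finset ℕ) (X Y A1 A2 B2 E : ℝ) (x y a1 a2 b2 : ℕ → ℝ)
    (hx : ∀ j ∈ J, x j ≤ X) (hy : ∀ j ∈ J, y j ≤ Y) (hx0 : ∀ j ∈ J, 0 ≤ x j) (hy0 : ∀ j ∈ J, 0 ≤ y j)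
    (h2 : ∀ j, 0 ≤ a2 j) (h3 : ∀ j, 0 ≤ b2 j) (hE : 0 ≤ E)
    (s1 : ∑ j ∈ J, a1 j ≤ A1) (s2 : ∑ j ∈ J, a2 j ≤ A2) (s3 : ∑ j ∈ J, b2 j ≤ B2) :
    ∑ j ∈ J, bd Q L (x j) (y j) (a1 j) (a2 j) (b2 j) E ≤ bd Q L X Y A1 A2 B2 E := by
  have hL0 : (0 : ℝ) ≤ L := Nat.cast_nonneg _
  have hQ0 : (0 : ℝ) ≤ Q := Nat.cast_nonneg _
  have hl0 : (0 : ℝ) ≤ (Nat.log 2 Q : ℝ) + 1 := by positivity
  set W : ℝ := Real.sqrt (X * Y) / L + (Real.sqrt X + Real.sqrt Y) * (Nat.log 2 Q + 1) + Q with hW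
  have hW0 : 0 ≤ W := by positivity
  have e1 : ∀ j ∈ J, bd Q L (x j) (y j) (a1 j) (a2 j) (b2 j) E ≤
      L * E * a1 j + 200 * W * (Real.sqrt (a2 j) * Real.sqrt (b2 j)) := by
    intro j hj
    unfold bd
    have f1 : Real.sqrt (x j * y j) ≤ Real.sqrt (X * Y) :=
      Real.sqrt_le_sqrt (mul_le_mul (hx j hj) (hy j hj) (hy0 j hj) ((hx0 j hj).trans (hx j hj)))
    have f2 : Real.sqrt (x j) ≤ Real.sqrt X := Real.sqrt_le_sqrt (hx j hj)
    have f3 : Real.sqrt (y j) ≤ Real.sqrt Y := Real.sqrt_le_sqrt (hy j hj)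
    have f4 : Real.sqrt (x j * y j) / L + (Real.sqrt (x j) + Real.sqrt (y j)) * (Nat.log 2 Q + 1) + Q ≤ W := by
      rw [hW]
      have g1 : Real.sqrt (x j * y j) / L ≤ Real.sqrt (X * Y) / L := div_le_div_of_nonneg_right f1 hL0
      have g2 : (Real.sqrt (x j) + Real.sqrt (y j)) * ((Nat.log 2 Q : ℝ) + 1) ≤
          (Real.sqrt X + Real.sqrt Y) * (Nat.log 2 Q + 1) := mul_le_mul_of_nonneg_right (add_le_add f2 f3) hl0
      linarith
    rw [← Real.sqrt_mul (h2 j)]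
    have f5 : 200 * Real.sqrt (a2 j * b2 j) *
        (Real.sqrt (x j * y j) / L + (Real.sqrt (x j) + Real.sqrt (y j)) * (Nat.log 2 Q + 1) + Q) ≤
        200 * Real.sqrt (a2 j * b2 j) * W := mul_le_mul_of_nonneg_left f4 (by positivity)
    have f6 : (L : ℝ) * a1 j * E = L * E * a1 j := by ring
    have f7 : 200 * Real.sqrt (a2 j * b2 j) * W = 200 * W * Real.sqrt (a2 j * b2 j) := by ring
    linarith
  refine (Finset.sum_le_sum e1).trans ?_
  rw [Finset.sum_add_distrib, ← Finset.mul_sum, ← Finset.mul_sum]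
  have e2 : ∑ j ∈ J, Real.sqrt (a2 j) * Real.sqrt (b2 j) ≤ Real.sqrt (A2 * B2) := by
    have g1 := Real.sum_sqrt_mul_sqrt_le J (f := a2) (g := b2) (fun j => h2 j) (fun j => h3 j)
    refine g1.trans ?_
    have g2 : 0 ≤ A2 := (Finset.sum_nonneg fun j _ => h2 j).trans s2
    rw [Real.sqrt_mul g2]
    exact mul_le_mul (Real.sqrt_le_sqrt s2) (Real.sqrt_le_sqrt s3) (Real.sqrt_nonneg _) (Real.sqrt_nonneg _)
  unfold bd
  rw [← hW]
  have e3 : (L : ℝ) * E * ∑ j ∈ J, a1 j ≤ L * E * A1 := mul_le_mul_of_nonneg_left s1 (by positivity)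
  have e4 : 200 * W * ∑ j ∈ J, Real.sqrt (a2 j) * Real.sqrt (b2 j) ≤ 200 * W * Real.sqrt (A2 * B2) :=
    mul_le_mul_of_nonneg_left e2 (by positivity)
  have e5 : (L : ℝ) * A1 * E = L * E * A1 := by ring
  have e6 : 200 * Real.sqrt (A2 * B2) * W = 200 * W * Real.sqrt (A2 * B2) := by ring
  linarith

private theorem R2_tS (Q : ℕ) : 0 ≤ tS Q := by
  unfold tS
  exact Finset.sum_nonneg fun s _ => by positivity

private theorem R2_idx (l : ℕ) {i j : ℕ} (hij : i < j) :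
    (i + 1) * 2 ^ l - 1 ≤ (i / 2 + 1) * 2 ^ (l + 1) - 1 ∧ (i / 2 + 1) * 2 ^ (l + 1) - 1 ≤ (j + 1) * 2 ^ l - 1 := by
  have e : (i / 2 + 1) * 2 ^ (l + 1) = (2 * (i / 2) + 2) * 2 ^ l := by
    rw [pow_succ]; ring
  rw [e]
  constructor
  · exact Nat.sub_le_sub_right (Nat.mul_le_mul_right _ (by omega)) 1
  · exact Nat.sub_le_sub_right (Nat.mul_le_mul_right _ (by omega)) 1

private theorem R2_kdisj (g : ℕ → ℕ) (hg : Antitone g ∨ Monotone g) (l i j : ℕ) (hij : i < j) :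
    Disjoint
      (Ioc (min (g ((i + 1) * 2 ^ l - 1)) (g ((i / 2 + 1) * 2 ^ (l + 1) - 1)))
        (max (g ((i + 1) * 2 ^ l - 1)) (g ((i / 2 + 1) * 2 ^ (l + 1) - 1))))
      (Ioc (min (g ((j + 1) * 2 ^ l - 1)) (g ((j / 2 + 1) * 2 ^ (l + 1) - 1)))
        (max (g ((j + 1) * 2 ^ l - 1)) (g ((j / 2 + 1) * 2 ^ (l + 1) - 1)))) := by
  have h1 := (R2_idx l hij).1
  have h2 := (R2_idx l hij).2
  have h3 := (R2_idx l (Nat.lt_succ_self j)).1
  rw [Finset.disjoint_left]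
  intro k hk hk'
  rw [mem_Ioc] at hk hk'
  rcases hg with hg | hg
  · have a1 := hg h1
    have a2 := hg h2
    have a3 := hg h3
    omega
  · have a1 := hg h1
    have a2 := hg h2
    have a3 := hg h3
    omega

private theorem R2_level (Q L : ℕ) (hL : 1 ≤ L) (α β : ℕ → ℂ) (u v Y : ℕ) (huv : u < v) (g : ℕ → ℕ)
    (hg : Antitone g ∨ Monotone g)
    (hY : ∀ m, g m ≤ Y) (c : ℕ → ℕ) (hc : ∀ q, (c q).Coprime q) (E : ℝ) (hE0 : 0 ≤ E)
    (hE : ∀ s ∈ Icc 1 Q, ∀ r ∈ Icc 2 L, ∀ ψ ∈ Prm r, ∀ k0 k1 : ℕ, k0 ≤ k1 → k1 ≤ Y → ‖cs β k0 k1 s ψ‖ ≤ E) (l N : ℕ) :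
    ∑ j ∈ range N, ∑ q ∈ Icc 1 Q, ‖rect α β (min (u + j * 2 ^ l) v) (min (u + (j + 1) * 2 ^ l) v)
        (min (g ((j + 1) * 2 ^ l - 1)) (g ((j / 2 + 1) * 2 ^ (l + 1) - 1)))
        (max (g ((j + 1) * 2 ^ l - 1)) (g ((j / 2 + 1) * 2 ^ (l + 1) - 1))) q (c q)‖ ≤
      tS Q * bd Q L ((v - u : ℝ) + 1) ((Y : ℝ) + 1) (∑ m ∈ Ioc u v, ‖α m‖) (∑ m ∈ Ioc u v, ‖α m‖ ^ 2)
        (∑ k ∈ Ioc 0 Y, ‖β k‖ ^ 2) E := by
  have hmon : ∀ j : ℕ, j * 2 ^ l ≤ (j + 1) * 2 ^ l := fun j => Nat.mul_le_mul_right _ (by omega)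
  have hmax : ∀ j : ℕ, max (g ((j + 1) * 2 ^ l - 1)) (g ((j / 2 + 1) * 2 ^ (l + 1) - 1)) ≤ Y :=
    fun j => max_le (hY _) (hY _)
  have h1 : ∀ j ∈ range N, ∑ q ∈ Icc 1 Q, ‖rect α β (min (u + j * 2 ^ l) v) (min (u + (j + 1) * 2 ^ l) v)
        (min (g ((j + 1) * 2 ^ l - 1)) (g ((j / 2 + 1) * 2 ^ (l + 1) - 1)))
        (max (g ((j + 1) * 2 ^ l - 1)) (g ((j / 2 + 1) * 2 ^ (l + 1) - 1))) q (c q)‖ ≤ _ :=
    fun j _ => rect_bound Q L hL α β _ _ _ _ (min_le_min_right v (Nat.add_le_add_left (hmon j) u)) min_le_max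
      c hc E hE0 (fun s hs r hr ψ hψ => hE s hs r hr ψ hψ _ _ min_le_max (hmax j))
  refine (Finset.sum_le_sum h1).trans ?_
  rw [← Finset.mul_sum]
  refine mul_le_mul_of_nonneg_left ?_ (R2_tS Q)
  have huvR : (u : ℝ) < v := by exact_mod_cast huv
  have ddα : ∀ i ∈ range N, ∀ j ∈ range N, i ≠ j →
      Disjoint (Ioc (min (u + i * 2 ^ l) v) (min (u + (i + 1) * 2 ^ l) v))
        (Ioc (min (u + j * 2 ^ l) v) (min (u + (j + 1) * 2 ^ l) v)) := by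
    have key : ∀ i j : ℕ, i < j → Disjoint (Ioc (min (u + i * 2 ^ l) v) (min (u + (i + 1) * 2 ^ l) v))
        (Ioc (min (u + j * 2 ^ l) v) (min (u + (j + 1) * 2 ^ l) v)) := by
      intro i j hij
      have h2 : (i + 1) * 2 ^ l ≤ j * 2 ^ l := Nat.mul_le_mul_right _ hij
      rw [Finset.disjoint_left]
      intro m hm hm'
      rw [mem_Ioc] at hm hm'
      omega
    intro i _ j _ hij
    rcases lt_or_gt_of_ne hij with h | h
    · exact key i j h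
    · exact (key j i h).symm
  have sub1 : ∀ j ∈ range N, Ioc (min (u + j * 2 ^ l) v) (min (u + (j + 1) * 2 ^ l) v) ⊆ Ioc u v := by
    intro j _ m hm
    rw [mem_Ioc] at hm ⊢
    omega
  have ddβ : ∀ i ∈ range N, ∀ j ∈ range N, i ≠ j →
      Disjoint
      (Ioc (min (g ((i + 1) * 2 ^ l - 1)) (g ((i / 2 + 1) * 2 ^ (l + 1) - 1)))
        (max (g ((i + 1) * 2 ^ l - 1)) (g ((i / 2 + 1) * 2 ^ (l + 1) - 1))))
      (Ioc (min (g ((j + 1) * 2 ^ l - 1)) (g ((j / 2 + 1) * 2 ^ (l + 1) - 1)))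
        (max (g ((j + 1) * 2 ^ l - 1)) (g ((j / 2 + 1) * 2 ^ (l + 1) - 1)))) := by
    intro i _ j _ hij
    rcases lt_or_gt_of_ne hij with h | h
    · exact R2_kdisj g hg l i j h
    · exact (R2_kdisj g hg l j i h).symm
  have sub2 : ∀ j ∈ range N, Ioc (min (g ((j + 1) * 2 ^ l - 1)) (g ((j / 2 + 1) * 2 ^ (l + 1) - 1)))
        (max (g ((j + 1) * 2 ^ l - 1)) (g ((j / 2 + 1) * 2 ^ (l + 1) - 1))) ⊆ Ioc 0 Y := by
    intro j _ m hm
    have := hmax j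
    rw [mem_Ioc] at hm ⊢
    omega
  refine R2_bd Q L (range N) _ _ _ _ _ E _ _ _ _ _ ?_ ?_ ?_ ?_ ?_ ?_ hE0 ?_ ?_ ?_
  · intro j _
    have h2 : u ≤ min (u + j * 2 ^ l) v := le_min (Nat.le_add_right _ _) huv.le
    have h3 : min (u + (j + 1) * 2 ^ l) v ≤ v := min_le_right _ _
    have h2' : (u : ℝ) ≤ ((min (u + j * 2 ^ l) v : ℕ) : ℝ) := by exact_mod_cast h2
    have h3' : ((min (u + (j + 1) * 2 ^ l) v : ℕ) : ℝ) ≤ v := by exact_mod_cast h3
    linarith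
  · intro j _
    have h3' : ((max (g ((j + 1) * 2 ^ l - 1)) (g ((j / 2 + 1) * 2 ^ (l + 1) - 1)) : ℕ) : ℝ) ≤ Y := by
      exact_mod_cast hmax j
    have h4 : (0 : ℝ) ≤ ((min (g ((j + 1) * 2 ^ l - 1)) (g ((j / 2 + 1) * 2 ^ (l + 1) - 1)) : ℕ) : ℝ) := Nat.cast_nonneg _
    linarith
  · intro j _
    have h2 : min (u + j * 2 ^ l) v ≤ min (u + (j + 1) * 2 ^ l) v := min_le_min_right v (Nat.add_le_add_left (hmon j) u)
    have h2' : ((min (u + j * 2 ^ l) v : ℕ) : ℝ) ≤ ((min (u + (j + 1) * 2 ^ l) v : ℕ) : ℝ) := by exact_mod_cast h2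
    linarith
  · intro j _
    have h2 : min (g ((j + 1) * 2 ^ l - 1)) (g ((j / 2 + 1) * 2 ^ (l + 1) - 1)) ≤
      max (g ((j + 1) * 2 ^ l - 1)) (g ((j / 2 + 1) * 2 ^ (l + 1) - 1)) := min_le_max
    have h2' : ((min (g ((j + 1) * 2 ^ l - 1)) (g ((j / 2 + 1) * 2 ^ (l + 1) - 1)) : ℕ) : ℝ) ≤
      ((max (g ((j + 1) * 2 ^ l - 1)) (g ((j / 2 + 1) * 2 ^ (l + 1) - 1)) : ℕ) : ℝ) := by exact_mod_cast h2
    linarith
  · intro j
    exact Finset.sum_nonneg fun m _ => by positivity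
  · intro j
    exact Finset.sum_nonneg fun m _ => by positivity
  · exact R2_disj (range N) _ _ (fun m => ‖α m‖) (fun m => norm_nonneg _) sub1 ddα
  · exact R2_disj (range N) _ _ (fun m => ‖α m‖ ^ 2) (fun m => by positivity) sub1 ddα
  · exact R2_disj (range N) _ _ (fun k => ‖β k‖ ^ 2) (fun m => by positivity) sub2 ddβ

theorem region (Q L : ℕ) (hL : 1 ≤ L) (α β : ℕ → ℂ) (u v Y : ℕ) (huv : u < v) (f : ℕ → ℕ) (hf : Antitone f ∨ Monotone f)
    (hY : ∀ m ∈ Ioc u v, f m ≤ Y) (c : ℕ → ℕ) (hc : ∀ q, (c q).Coprime q) (E : ℝ) (hE0 : 0 ≤ E)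
    (hE : ∀ s ∈ Icc 1 Q, ∀ r ∈ Icc 2 L, ∀ ψ ∈ Prm r, ∀ k0 k1 : ℕ, k0 ≤ k1 → k1 ≤ Y → ‖cs β k0 k1 s ψ‖ ≤ E) :
    ∑ q ∈ Icc 1 Q, ‖regn α β u v f q (c q)‖ ≤
      (Nat.log 2 (v - u) + 3 : ℝ) * (tS Q * bd Q L ((v - u : ℝ) + 1) ((Y : ℝ) + 1) (∑ m ∈ Ioc u v, ‖α m‖) (∑ m ∈ Ioc u v, ‖α m‖ ^ 2)
        (∑ k ∈ Ioc 0 Y, ‖β k‖ ^ 2) E) := by
  set g : ℕ → ℕ := fun m' => f (min (u + 1 + m') v) with hgdef
  have hg : Antitone g ∨ Monotone g := by
    have hmin : Monotone fun m' : ℕ => min (u + 1 + m') v := by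
      intro x y hxy
      exact min_le_min_right v (Nat.add_le_add_left hxy _)
    rcases hf with h | h
    · left
      exact h.comp_monotone hmin
    · right
      exact h.comp hmin
  have hgY : ∀ m', g m' ≤ Y := by
    intro m'
    apply hY
    rw [mem_Ioc]
    omega
  set h : ℕ := Nat.log 2 (v - u) + 1 with hh
  have hlt : v - u < 2 ^ h := Nat.lt_pow_succ_log_self (by norm_num) _
  have huvR : (u : ℝ) < v := by exact_mod_cast huv
  set T : ℝ := tS Q * bd Q L ((v - u : ℝ) + 1) ((Y : ℝ) + 1) (∑ m ∈ Ioc u v, ‖α m‖) (∑ m ∈ Ioc u v, ‖α m‖ ^ 2)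
        (∑ k ∈ Ioc 0 Y, ‖β k‖ ^ 2) E with hT
  -- the decomposition for a fixed modulus
  have dec : ∀ q, ‖regn α β u v f q (c q)‖ ≤ ‖rect α β u v 0 (g (2 ^ h - 1)) q (c q)‖ +
      ∑ l ∈ range h, ∑ j ∈ range (2 ^ (h - l)), ‖rect α β (min (u + j * 2 ^ l) v) (min (u + (j + 1) * 2 ^ l) v)
        (min (g ((j + 1) * 2 ^ l - 1)) (g ((j / 2 + 1) * 2 ^ (l + 1) - 1)))
        (max (g ((j + 1) * 2 ^ l - 1)) (g ((j / 2 + 1) * 2 ^ (l + 1) - 1))) q (c q)‖ := by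
    intro q
    set F : ℕ → ℕ → ℂ := fun m' k => if m' < v - u then α (u + 1 + m') * β k * dd q (c q) ((u + 1 + m') * k) else 0 with hF
    have hmm : min (u + 0) v = u := by omega
    have hmM : min (u + 2 ^ h) v = v := by omega
    have e1 : regn α β u v f q (c q) = ∑ m' ∈ range (2 ^ h), ∑ k ∈ Icc 1 (g m'), F m' k := by
      unfold regn
      have h1 := R2_shift u v 0 (2 ^ h) (fun m => ∑ k ∈ Icc 1 (f m), α m * β k * dd q (c q) (m * k))
      rw [hmm, hmM] at h1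
      rw [← h1, ← Finset.range_eq_Ico]
      apply Finset.sum_congr rfl
      intro m' _
      by_cases hm : m' < v - u
      · have h2 : g m' = f (u + 1 + m') := by
          rw [hgdef]
          simp only
          congr 1
          omega
        rw [if_pos hm, h2]
        apply Finset.sum_congr rfl
        intro k _
        rw [hF]
        simp only [if_pos hm]
      · rw [if_neg hm, hF]
        simp only [if_neg hm, Finset.sum_const_zero]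
    have e2 : ∑ m' ∈ range (2 ^ h), ∑ k ∈ Icc 1 (g (2 ^ h - 1)), F m' k = rect α β u v 0 (g (2 ^ h - 1)) q (c q) := by
      unfold rect
      have h1 := R2_shift u v 0 (2 ^ h) (fun m => ∑ k ∈ Ioc 0 (g (2 ^ h - 1)), α m * β k * dd q (c q) (m * k))
      rw [hmm, hmM] at h1
      rw [← h1, ← Finset.range_eq_Ico]
      apply Finset.sum_congr rfl
      intro m' _
      have h3 : Icc 1 (g (2 ^ h - 1)) = Ioc 0 (g (2 ^ h - 1)) := by
        ext k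
        simp only [mem_Icc, mem_Ioc]
        omega
      rw [h3]
      by_cases hm : m' < v - u
      · rw [if_pos hm]
        apply Finset.sum_congr rfl
        intro k _
        rw [hF]
        simp only [if_pos hm]
      · rw [if_neg hm, hF]
        simp only [if_neg hm, Finset.sum_const_zero]
    rw [e1, tele h g F, e2]
    refine (norm_add_le _ _).trans ?_
    refine add_le_add le_rfl ?_
    refine (norm_sum_le _ _).trans (Finset.sum_le_sum fun l _ => ?_)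
    refine (norm_sum_le _ _).trans (Finset.sum_le_sum fun j _ => ?_)
    exact (R2_piece α β u v (j * 2 ^ l) ((j + 1) * 2 ^ l) q (c q) _ _).le
  have hA := Finset.sum_le_sum (s := Icc 1 Q) fun q _ => dec q
  refine hA.trans ?_
  rw [Finset.sum_add_distrib, Finset.sum_comm]
  have hfirst : ∑ q ∈ Icc 1 Q, ‖rect α β u v 0 (g (2 ^ h - 1)) q (c q)‖ ≤ T := by
    have h1 := rect_bound Q L hL α β u v 0 (g (2 ^ h - 1)) huv.le (Nat.zero_le _) c hc E hE0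
      (fun s hs r hr ψ hψ => hE s hs r hr ψ hψ _ _ (Nat.zero_le _) (hgY _))
    refine h1.trans ?_
    rw [hT]
    refine mul_le_mul_of_nonneg_left ?_ (R2_tS Q)
    have h2 := R2_bd Q L {0} ((v - u : ℝ) + 1) ((Y : ℝ) + 1) (∑ m ∈ Ioc u v, ‖α m‖) (∑ m ∈ Ioc u v, ‖α m‖ ^ 2)
        (∑ k ∈ Ioc 0 Y, ‖β k‖ ^ 2) E (fun _ => (v - u : ℝ) + 1) (fun _ => ((g (2 ^ h - 1) : ℕ) : ℝ) - ((0 : ℕ) : ℝ) + 1)
        (fun _ => ∑ m ∈ Ioc u v, ‖α m‖) (fun _ => ∑ m ∈ Ioc u v, ‖α m‖ ^ 2)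
        (fun _ => ∑ k ∈ Ioc 0 (g (2 ^ h - 1)), ‖β k‖ ^ 2)
    simp only [Finset.sum_singleton] at h2
    refine h2 (fun _ _ => le_rfl) ?_ ?_ ?_ ?_ ?_ hE0 le_rfl le_rfl ?_
    · intro _ _
      have h3 : ((g (2 ^ h - 1) : ℕ) : ℝ) ≤ Y := by exact_mod_cast hgY _
      simp only [Nat.cast_zero]
      linarith
    · intro _ _
      linarith
    · intro _ _
      have h3 : (0 : ℝ) ≤ ((g (2 ^ h - 1) : ℕ) : ℝ) := Nat.cast_nonneg _
      simp only [Nat.cast_zero]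
      linarith
    · intro _
      exact Finset.sum_nonneg fun m _ => by positivity
    · intro _
      exact Finset.sum_nonneg fun m _ => by positivity
    · apply Finset.sum_le_sum_of_subset_of_nonneg
      · intro k hk
        have := hgY (2 ^ h - 1)
        rw [mem_Ioc] at hk ⊢
        omega
      · intro m _ _
        positivity
  have hlev : ∀ l ∈ range h, ∑ q ∈ Icc 1 Q, ∑ j ∈ range (2 ^ (h - l)),
      ‖rect α β (min (u + j * 2 ^ l) v) (min (u + (j + 1) * 2 ^ l) v)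
        (min (g ((j + 1) * 2 ^ l - 1)) (g ((j / 2 + 1) * 2 ^ (l + 1) - 1)))
        (max (g ((j + 1) * 2 ^ l - 1)) (g ((j / 2 + 1) * 2 ^ (l + 1) - 1))) q (c q)‖ ≤ T := by
    intro l _
    rw [Finset.sum_comm]
    exact R2_level Q L hL α β u v Y huv g hg hgY c hc E hE0 hE l _
  have hsum := Finset.sum_le_sum hlev
  rw [Finset.sum_const, card_range, nsmul_eq_mul] at hsum
  have hT0 : 0 ≤ T := (Finset.sum_nonneg fun q _ => norm_nonneg _).trans hfirst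
  have hfin : (h : ℝ) = (Nat.log 2 (v - u) : ℝ) + 1 := by rw [hh]; push_cast; ring
  rw [hfin] at hsum
  nlinarith

end Pool.Agent.LibBW4
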