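import Pool.Agent.LibBW4.Defs2
import Pool.Agent.LibSW40.B5

/-!
Row S1 (MEDIUM): Siegel-Walfisz for `∑ Λ(n) ψ(n)`. `sw_psi` (LibSW40/B5, exponent `K' = 2 K + 3`, `e^x = N`): for primitive `ψ` modulo `r ≥ 2` (not principal) `∑_{n ≤ t} Λ(n) ψ(n) = ∑_{a mod r, (a,r)=1} ψ(a) (ψ(t; r, a) - t/φ(r))` has norm
`≤ r N/(log N)^K'`; take the difference of `t = v` and `t = u`. The condition `(n, s) = 1`, `s ≤ N^D`: the omitted `n = p^k ≤ N`, `p ∣ s`, contribute at most `∑_{p ∣ s} log N ≤ ω(s) log N ≤ 2 D (log N)²`.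
-/

open Finset
open scoped ArithmeticFunction.vonMangoldt

namespace Pool.Agent.LibBW4

private theorem S1_ne {r : ℕ} (hr : 2 ≤ r) {ψ : DirichletCharacter ℂ r} (h : ψ ∈ Prm r) :
    ψ ≠ 1 := by
  classical
  intro h1
  unfold Prm at h
  rw [Finset.mem_filter] at h
  have hr0 : NeZero r := ⟨by omega⟩
  have h2 := h.2
  rw [h1, DirichletCharacter.isPrimitive_def, DirichletCharacter.conductor_one] at h2
  omega

private theorem S1_T {r : ℕ} (hr : 2 ≤ r) {ψ : DirichletCharacter ℂ r} (h : ψ ∈ Prm r) (t : ℕ)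
    (B : ℝ) (hB : ∀ a : ℕ, a.Coprime r →
      |(∑ n ∈ (Ioc 0 t).filter (fun n => n ≡ a [MOD r]), Λ n) - t / (r.totient : ℝ)| ≤ B) :
    ‖∑ n ∈ Ioc 0 t, ((Λ n : ℝ) : ℂ) * ψ (n : ZMod r)‖ ≤ r * B := by
  have hr0 : NeZero r := ⟨by omega⟩
  have hψ := S1_ne hr h
  have h1 : ∑ n ∈ Ioc 0 t, ((Λ n : ℝ) : ℂ) * ψ (n : ZMod r) = ∑ a : ZMod r,
      ψ a * (((∑ n ∈ (Ioc 0 t).filter (fun n => n ≡ a.val [MOD r]), Λ n) -
        t / (r.totient : ℝ) : ℝ) : ℂ) := by
    have h2 : ∀ a : ZMod r, ψ a * (((∑ n ∈ (Ioc 0 t).filter (fun n => n ≡ a.val [MOD r]), Λ n) -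
        t / (r.totient : ℝ) : ℝ) : ℂ) =
        (∑ n ∈ (Ioc 0 t).filter (fun n : ℕ => (n : ZMod r) = a), ((Λ n : ℝ) : ℂ) * ψ (n : ZMod r)) -
          ψ a * ((t / (r.totient : ℝ) : ℝ) : ℂ) := by
      intro a
      rw [Complex.ofReal_sub, mul_sub]
      congr 1
      rw [Complex.ofReal_sum, Finset.mul_sum]
      have h3 : (Ioc 0 t).filter (fun n => n ≡ a.val [MOD r]) =
          (Ioc 0 t).filter (fun n : ℕ => (n : ZMod r) = a) := by
        apply Finset.filter_congr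
        intro n _
        rw [← ZMod.natCast_eq_natCast_iff, ZMod.natCast_zmod_val]
      rw [h3]
      refine Finset.sum_congr rfl fun n hn => ?_
      rw [(Finset.mem_filter.1 hn).2, mul_comm]
    rw [Finset.sum_congr rfl fun a _ => h2 a, Finset.sum_sub_distrib, ← Finset.sum_mul,
      MulChar.sum_eq_zero_of_ne_one hψ, zero_mul, sub_zero]
    exact (Finset.sum_fiberwise _ _ _).symm
  rw [h1]
  refine (norm_sum_le _ _).trans ?_
  have h4 : ∀ a ∈ (Finset.univ : Finset (ZMod r)), ‖ψ a *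
      (((∑ n ∈ (Ioc 0 t).filter (fun n => n ≡ a.val [MOD r]), Λ n) -
        t / (r.totient : ℝ) : ℝ) : ℂ)‖ ≤ B := by
    intro a _
    have hB0 : 0 ≤ B := (abs_nonneg _).trans (hB 1 (Nat.coprime_one_left r))
    rw [norm_mul]
    by_cases ha : IsUnit a
    · have h5 : a.val.Coprime r := by
        rw [← ZMod.isUnit_iff_coprime, ZMod.natCast_zmod_val]
        exact ha
      have h6 := hB a.val h5
      rw [Complex.norm_real, Real.norm_eq_abs]
      have h7 : ‖ψ a‖ ≤ 1 := ψ.norm_le_one a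
      calc ‖ψ a‖ * |_| ≤ 1 * B := mul_le_mul h7 h6 (abs_nonneg _) zero_le_one
        _ = B := one_mul _
    · rw [MulChar.map_nonunit ψ ha, norm_zero, zero_mul]
      exact hB0
  refine (Finset.sum_le_card_nsmul _ _ _ h4).trans (le_of_eq ?_)
  rw [nsmul_eq_mul, Finset.card_univ, ZMod.card]

private theorem S1_omega (s : ℕ) (hs : 1 ≤ s) : (s.primeFactors.card : ℝ) ≤ 2 * Real.log s := by
  have h1 : 2 ^ s.primeFactors.card ≤ s := by
    refine le_trans ?_ (Nat.le_of_dvd (by omega) (Nat.prod_primeFactors_dvd s))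
    exact Finset.pow_card_le_prod _ _ _ fun p hp => (Nat.prime_of_mem_primeFactors hp).two_le
  have h2 : (2 : ℝ) ^ s.primeFactors.card ≤ s := by exact_mod_cast h1
  have h3 := Real.log_le_log (by positivity) h2
  rw [Real.log_pow] at h3
  have h4 : (0.5 : ℝ) ≤ Real.log 2 := by
    have := Real.log_two_gt_d9
    linarith
  have h5 : (0 : ℝ) ≤ s.primeFactors.card := Nat.cast_nonneg _
  nlinarith

private theorem S1_bad (N s : ℕ) (hs : 1 ≤ s) (hN : 1 ≤ N) :
    ∑ m ∈ (Ioc 0 N).filter (fun m => ¬ m.Coprime s), Λ m ≤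
      (s.primeFactors.card : ℝ) * (2 * Real.log N) * Real.log N := by
  have hlogN : 0 ≤ Real.log N := Real.log_natCast_nonneg N
  have h1 : ∑ m ∈ (Ioc 0 N).filter (fun m => ¬ m.Coprime s), Λ m ≤
      ∑ m ∈ s.primeFactors.biUnion (fun p => (Icc 1 (Nat.log 2 N)).image (fun k => p ^ k)) with
        m ≤ N, Λ m := by
    rw [← Finset.sum_filter_ne_zero]
    apply Finset.sum_le_sum_of_subset_of_nonneg
    · intro m hm
      rw [Finset.mem_filter, Finset.mem_filter, Finset.mem_Ioc] at hm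
      obtain ⟨⟨⟨hm0, hmN⟩, hco⟩, hne⟩ := hm
      rw [Finset.mem_filter, Finset.mem_biUnion]
      refine ⟨?_, hmN⟩
      obtain ⟨p, k, hp, hk, rfl⟩ := ArithmeticFunction.vonMangoldt_ne_zero_iff.1 hne
      have hp' : p.Prime := hp.nat_prime
      refine ⟨p, ?_, ?_⟩
      · rw [Nat.mem_primeFactors]
        refine ⟨hp', ?_, by omega⟩
        by_contra hdiv
        exact hco (Nat.Coprime.pow_left k ((Nat.Prime.coprime_iff_not_dvd hp').2 hdiv))
      · rw [Finset.mem_image]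
        refine ⟨k, ?_, rfl⟩
        rw [Finset.mem_Icc]
        refine ⟨hk, ?_⟩
        apply Nat.le_log_of_pow_le (by norm_num)
        exact (Nat.pow_le_pow_left hp'.two_le k).trans hmN
    · intro m _ _
      exact ArithmeticFunction.vonMangoldt_nonneg
  refine h1.trans ?_
  have h2 : ∀ m ∈ (s.primeFactors.biUnion (fun p => (Icc 1 (Nat.log 2 N)).image
      (fun k => p ^ k))).filter (fun m => m ≤ N), Λ m ≤ Real.log N := by
    intro m hm
    have hmN : m ≤ N := (Finset.mem_filter.1 hm).2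
    rcases Nat.eq_zero_or_pos m with h0 | h0
    · rw [h0]
      simpa using hlogN
    · refine ArithmeticFunction.vonMangoldt_le_log.trans ?_
      exact Real.log_le_log (by exact_mod_cast h0) (by exact_mod_cast hmN)
  refine (Finset.sum_le_card_nsmul _ _ _ h2).trans ?_
  rw [nsmul_eq_mul]
  refine mul_le_mul_of_nonneg_right ?_ hlogN
  have h3 : ((s.primeFactors.biUnion (fun p => (Icc 1 (Nat.log 2 N)).image
      (fun k => p ^ k))).filter (fun m => m ≤ N)).card ≤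
      s.primeFactors.card * Nat.log 2 N := by
    refine (Finset.card_filter_le _ _).trans ?_
    refine (Finset.card_biUnion_le_card_mul _ _ (Nat.log 2 N) fun p _ => ?_)
    refine Finset.card_image_le.trans ?_
    rw [Nat.card_Icc]
    omega
  have h4 : (Nat.log 2 N : ℝ) ≤ 2 * Real.log N := by
    have h5 : 2 ^ Nat.log 2 N ≤ N := Nat.pow_log_le_self 2 (by omega)
    have h6 : (2 : ℝ) ^ Nat.log 2 N ≤ N := by exact_mod_cast h5
    have h7 := Real.log_le_log (by positivity) h6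
    rw [Real.log_pow] at h7
    have h8 : (0.5 : ℝ) ≤ Real.log 2 := by
      have := Real.log_two_gt_d9
      linarith
    have h9 : (0 : ℝ) ≤ Nat.log 2 N := Nat.cast_nonneg _
    nlinarith
  calc (((s.primeFactors.biUnion (fun p => (Icc 1 (Nat.log 2 N)).image
      (fun k => p ^ k))).filter (fun m => m ≤ N)).card : ℝ) ≤
        ((s.primeFactors.card * Nat.log 2 N : ℕ) : ℝ) := by exact_mod_cast h3
    _ = s.primeFactors.card * (Nat.log 2 N : ℝ) := by push_cast; ring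
    _ ≤ s.primeFactors.card * (2 * Real.log N) := by gcongr

theorem sw_lam (K D : ℕ) : ∃ N0 : ℕ, ∀ N ≥ N0, ∀ s : ℕ, 1 ≤ s → s ≤ N ^ D → ∀ r : ℕ, 2 ≤ r → (r : ℝ) ≤ Real.log N ^ K →
    ∀ ψ ∈ Prm r, ∀ u v : ℕ, u ≤ v → v ≤ N → ‖cs (fun n => ((Λ n : ℝ) : ℂ)) u v s ψ‖ ≤ N / Real.log N ^ K := by
  have h1 := Pool.Agent.LibSW40.sw_psi (2 * K + 3)
  have h2 : ∀ᶠ x : ℝ in Filter.atTop, 16 * (D : ℝ) * x ^ (K + 3) ≤ Real.exp x := by
    have hb := (Real.isLittleO_pow_exp_atTop (n := K + 3)).bound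
      (c := 1 / (16 * (D : ℝ) + 1)) (by positivity)
    filter_upwards [hb, Filter.eventually_ge_atTop (0 : ℝ)] with x hb hx
    rw [Real.norm_eq_abs, Real.norm_eq_abs, abs_of_nonneg (by positivity),
      abs_of_pos (Real.exp_pos x), one_div, inv_mul_eq_div, le_div_iff₀ (by positivity)] at hb
    have h0 : 0 ≤ x ^ (K + 3) := by positivity
    linarith
  have h3 : ∀ᶠ x : ℝ in Filter.atTop, (2 : ℝ) ≤ x := Filter.eventually_ge_atTop 2
  have hlog : Filter.Tendsto (fun N : ℕ => Real.log N) Filter.atTop Filter.atTop :=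
    Real.tendsto_log_atTop.comp tendsto_natCast_atTop_atTop
  obtain ⟨N0, hN0⟩ := Filter.eventually_atTop.1 ((hlog.eventually (h1.and (h2.and h3))).and
    (Filter.eventually_ge_atTop 1))
  refine ⟨N0, ?_⟩
  intro N hN s hs1 hsN r hr hrN ψ hψ u v huv hvN
  obtain ⟨⟨e1, e2, e3⟩, e4⟩ := hN0 N hN
  set x := Real.log N with hx
  have hNpos : (0 : ℝ) < N := by exact_mod_cast e4
  have hexp : Real.exp x = N := Real.exp_log hNpos
  rw [hexp] at e1 e2
  have hx1 : 1 ≤ x := by linarith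
  have hT : ∀ t : ℕ, t ≤ N → ‖∑ n ∈ Ioc 0 t, ((Λ n : ℝ) : ℂ) * ψ (n : ZMod r)‖ ≤
      N * (x ^ (K + 3))⁻¹ := by
    intro t ht
    have h4 := S1_T hr hψ t (N * (x ^ (2 * K + 3))⁻¹) (fun a ha => by
      have h5 := e1 r a (by omega) (hrN.trans (pow_le_pow_right₀ hx1 (by omega))) ha t
        (Nat.cast_nonneg t) (by exact_mod_cast ht)
      rwa [Nat.floor_natCast] at h5)
    refine h4.trans ?_
    have h5 : (x ^ (2 * K + 3)) = x ^ K * x ^ (K + 3) := by
      rw [← pow_add]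
      congr 1
      ring
    rw [h5]
    have h6 : 0 < x ^ K := by positivity
    have h7 : 0 < x ^ (K + 3) := by positivity
    calc (r : ℝ) * (N * (x ^ K * x ^ (K + 3))⁻¹) ≤ x ^ K * (N * (x ^ K * x ^ (K + 3))⁻¹) := by
          gcongr
      _ = N * (x ^ (K + 3))⁻¹ := by field_simp
  have hsplit : cs (fun n => ((Λ n : ℝ) : ℂ)) u v s ψ =
      (∑ n ∈ Ioc 0 v, ((Λ n : ℝ) : ℂ) * ψ (n : ZMod r)) -
        (∑ n ∈ Ioc 0 u, ((Λ n : ℝ) : ℂ) * ψ (n : ZMod r)) -
        ∑ n ∈ (Ioc u v).filter (fun m => ¬ m.Coprime s), ((Λ n : ℝ) : ℂ) * ψ (n : ZMod r) := by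
    rw [← Finset.sum_Ioc_consecutive _ (Nat.zero_le u) huv,
      ← Finset.sum_filter_add_sum_filter_not (Ioc u v) (fun m => m.Coprime s)]
    unfold cs
    ring
  have hbad : ‖∑ n ∈ (Ioc u v).filter (fun m => ¬ m.Coprime s),
      ((Λ n : ℝ) : ℂ) * ψ (n : ZMod r)‖ ≤ 4 * D * x ^ 3 * 1 := by
    refine (norm_sum_le _ _).trans ?_
    have h4 : ∑ n ∈ (Ioc u v).filter (fun m => ¬ m.Coprime s),
        ‖((Λ n : ℝ) : ℂ) * ψ (n : ZMod r)‖ ≤
        ∑ m ∈ (Ioc 0 N).filter (fun m => ¬ m.Coprime s), Λ m := by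
      refine (Finset.sum_le_sum (g := fun n => Λ n) fun n _ => ?_).trans
        (Finset.sum_le_sum_of_subset_of_nonneg ?_ fun _ _ _ =>
          ArithmeticFunction.vonMangoldt_nonneg)
      · rw [norm_mul, Complex.norm_real, Real.norm_eq_abs,
          abs_of_nonneg ArithmeticFunction.vonMangoldt_nonneg]
        exact mul_le_of_le_one_right ArithmeticFunction.vonMangoldt_nonneg (ψ.norm_le_one _)
      · intro m hm
        rw [Finset.mem_filter, Finset.mem_Ioc] at hm ⊢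
        omega
    refine h4.trans ((S1_bad N s hs1 e4).trans ?_)
    have h5 := S1_omega s hs1
    have h6 : Real.log s ≤ D * x := by
      have h7 : (s : ℝ) ≤ (N : ℝ) ^ D := by exact_mod_cast hsN
      have h8 := Real.log_le_log (by exact_mod_cast hs1) h7
      rwa [Real.log_pow] at h8
    have h7 : (s.primeFactors.card : ℝ) ≤ 2 * (D * x) := by linarith
    calc (s.primeFactors.card : ℝ) * (2 * Real.log N) * Real.log N ≤
          (2 * (D * x)) * (2 * x) * x := by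
          rw [← hx]
          gcongr
      _ = 4 * D * x ^ 3 * 1 := by ring
  rw [hsplit]
  have h7 : 0 < x ^ (K + 3) := by positivity
  have h8 : 0 < x ^ K := by positivity
  have hfin : N * (x ^ (K + 3))⁻¹ + N * (x ^ (K + 3))⁻¹ + 4 * D * x ^ 3 * 1 ≤ N / x ^ K := by
    have h9 : x ^ (K + 3) = x ^ K * x ^ 3 := pow_add x K 3
    have h10 : (8 : ℝ) ≤ x ^ 3 := by
      calc (8 : ℝ) = 2 ^ 3 := by norm_num
        _ ≤ x ^ 3 := by gcongr
    have h11 : N * (x ^ (K + 3))⁻¹ ≤ N / x ^ K / 8 := by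
      rw [h9, mul_inv, ← mul_assoc, div_eq_mul_inv, div_eq_mul_inv]
      have h12 : (x ^ 3)⁻¹ ≤ (8 : ℝ)⁻¹ := inv_anti₀ (by norm_num) h10
      gcongr
    have h12 : 4 * D * x ^ 3 * 1 ≤ N / x ^ K / 4 := by
      rw [le_div_iff₀ (by norm_num), le_div_iff₀ h8]
      calc 4 * D * x ^ 3 * 1 * 4 * x ^ K = 16 * D * x ^ (K + 3) := by rw [h9]; ring
        _ ≤ N := e2
    have h13 : 0 ≤ N / x ^ K := by positivity
    linarith
  refine (norm_sub_le _ _).trans ((add_le_add (norm_sub_le _ _) le_rfl).trans ?_)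
  refine le_trans (add_le_add (add_le_add (hT v hvN) (hT u (huv.trans hvN))) hbad) hfin

end Pool.Agent.LibBW4
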