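import Pool.Agent.LibBW4.A0

/-!
Row V1 (MEDIUM): type I. For fixed `d ≤ D` (`(d, q) = 1`, otherwise nothing counts since `dd q c (d k) = 0`: `c` is prime to `q`) the sum over `k ∈ (u/d, v/d]` of `f k dd q c (d k)` is `g(a0) - (1/φ(q)) ∑_{(a,q)=1} g(a)`, `g(a) = ∑_{k ≡ a} f k`, `a0 = c d⁻¹`;
`|g(a) - g(a')| ≤ F` because `f ≥ 0` is monotone and the two classes interlace. So the difference to the mean is `≤ F` (`2 F` is enough).
-/

open Finset

namespace Pool.Agent.LibBW4

private theorem V1_inter {q K1 K2 N a a' : ℕ} {f : ℕ → ℝ} {F : ℝ} (hq : 1 ≤ q)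
    (hf : MonotoneOn f (Set.Ici 1)) (hf0 : ∀ k, 1 ≤ k → 0 ≤ f k)
    (hF : ∀ k, 1 ≤ k → k ≤ N → f k ≤ F) (hF0 : 0 ≤ F) (hK : K2 ≤ N) :
    ∑ k ∈ (Ioc K1 K2).filter (fun k => k ≡ a [MOD q]), f k ≤
      ∑ k ∈ (Ioc K1 K2).filter (fun k => k ≡ a' [MOD q]), f k + F := by
  classical
  obtain ⟨t, ht, hat⟩ : ∃ t, t < q ∧ a + t ≡ a' [MOD q] := by
    refine ⟨(a' + (q - a % q)) % q, Nat.mod_lt _ hq, ?_⟩
    have h1 : a % q < q := Nat.mod_lt _ hq
    have h2 : a + (a' + (q - a % q)) % q ≡ a % q + (a' + (q - a % q)) [MOD q] :=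
      Nat.ModEq.add (Nat.mod_modEq a q).symm (Nat.mod_modEq _ q)
    refine h2.trans ?_
    have h3 : a % q + (a' + (q - a % q)) = a' + q := by omega
    rw [h3]
    exact Nat.add_modEq_right
  rw [← Finset.sum_filter_add_sum_filter_not ((Ioc K1 K2).filter (fun k => k ≡ a [MOD q]))
    (fun k => k + t ≤ K2)]
  have hA : ∑ k ∈ ((Ioc K1 K2).filter (fun k => k ≡ a [MOD q])).filter (fun k => k + t ≤ K2), f k ≤
      ∑ k ∈ (Ioc K1 K2).filter (fun k => k ≡ a' [MOD q]), f k := by
    calc ∑ k ∈ ((Ioc K1 K2).filter (fun k => k ≡ a [MOD q])).filter (fun k => k + t ≤ K2), f k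
        ≤ ∑ k ∈ ((Ioc K1 K2).filter (fun k => k ≡ a [MOD q])).filter (fun k => k + t ≤ K2),
            f (k + t) := by
          refine Finset.sum_le_sum fun k hk => ?_
          simp only [Finset.mem_filter, Finset.mem_Ioc] at hk
          exact hf (by simp only [Set.mem_Ici]; omega) (by simp only [Set.mem_Ici]; omega)
            (Nat.le_add_right k t)
      _ = ∑ k ∈ (((Ioc K1 K2).filter (fun k => k ≡ a [MOD q])).filter
            (fun k => k + t ≤ K2)).image (fun k => k + t), f k := by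
          rw [Finset.sum_image]
          intro x _ y _ hxy
          exact Nat.add_right_cancel hxy
      _ ≤ ∑ k ∈ (Ioc K1 K2).filter (fun k => k ≡ a' [MOD q]), f k := by
          refine Finset.sum_le_sum_of_subset_of_nonneg ?_ ?_
          · intro k hk
            rw [Finset.mem_image] at hk
            obtain ⟨j, hj, rfl⟩ := hk
            simp only [Finset.mem_filter, Finset.mem_Ioc] at hj ⊢
            exact ⟨⟨by omega, hj.2⟩, (hj.1.2.add_right t).trans hat⟩
          · intro k hk _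
            simp only [Finset.mem_filter, Finset.mem_Ioc] at hk
            exact hf0 k (by omega)
  have hB : ∑ k ∈ ((Ioc K1 K2).filter (fun k => k ≡ a [MOD q])).filter (fun k => ¬ k + t ≤ K2), f k ≤
      F := by
    rcases Finset.eq_empty_or_nonempty (((Ioc K1 K2).filter (fun k => k ≡ a [MOD q])).filter
      (fun k => ¬ k + t ≤ K2)) with h0 | ⟨k, hk⟩
    · rw [h0, Finset.sum_empty]
      exact hF0
    · have h1 : ((Ioc K1 K2).filter (fun k => k ≡ a [MOD q])).filter (fun k => ¬ k + t ≤ K2) = {k} := by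
        rw [Finset.eq_singleton_iff_unique_mem]
        refine ⟨hk, fun j hj => ?_⟩
        simp only [Finset.mem_filter, Finset.mem_Ioc, not_le] at hk hj
        refine Nat.ModEq.eq_of_abs_lt (m := q) (hj.1.2.trans hk.1.2.symm) ?_
        rw [abs_lt]
        constructor <;> omega
      rw [h1, Finset.sum_singleton]
      simp only [Finset.mem_filter, Finset.mem_Ioc] at hk
      exact hF k (by omega) (by omega)
  linarith

private theorem V1_reindex (d u v : ℕ) (hd : 1 ≤ d) (f : ℕ → ℝ) (p : ℕ → Prop) [DecidablePred p] :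
    ∑ m ∈ (Ioc u v).filter p, (if d ∣ m then f (m / d) else 0) =
      ∑ k ∈ (Ioc (u / d) (v / d)).filter (fun k => p (d * k)), f k := by
  classical
  rw [← Finset.sum_filter]
  refine Finset.sum_nbij' (fun m => m / d) (fun k => d * k) ?_ ?_ ?_ ?_ ?_
  · intro m hm
    simp only [Finset.mem_filter, Finset.mem_Ioc] at hm ⊢
    obtain ⟨⟨⟨h1, h2⟩, h3⟩, k, rfl⟩ := hm
    rw [Nat.mul_div_cancel_left _ hd]
    refine ⟨⟨?_, ?_⟩, h3⟩
    · rw [Nat.div_lt_iff_lt_mul hd, mul_comm]
      exact h1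
    · rw [Nat.le_div_iff_mul_le hd, mul_comm]
      exact h2
  · intro k hk
    simp only [Finset.mem_filter, Finset.mem_Ioc] at hk ⊢
    obtain ⟨⟨h1, h2⟩, h3⟩ := hk
    rw [Nat.div_lt_iff_lt_mul hd, mul_comm] at h1
    rw [Nat.le_div_iff_mul_le hd, mul_comm] at h2
    exact ⟨⟨⟨h1, h2⟩, h3⟩, Nat.dvd_mul_right d k⟩
  · intro m hm
    simp only [Finset.mem_filter] at hm
    exact Nat.mul_div_cancel' hm.2
  · intro k _
    exact Nat.mul_div_cancel_left k hd
  · intro m _
    rfl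

private theorem V1_one (d N q c u v : ℕ) (f : ℕ → ℝ) (F : ℝ) (hd : 1 ≤ d) (hq : 1 ≤ q)
    (hc : c.Coprime q) (hf : MonotoneOn f (Set.Ici 1)) (hf0 : ∀ k, 1 ≤ k → 0 ≤ f k)
    (hF : ∀ k, 1 ≤ k → k ≤ N → f k ≤ F) (hF0 : 0 ≤ F) (hv : v ≤ N) :
    |∑ m ∈ (Ioc u v).filter (fun m => m ≡ c [MOD q]), (if d ∣ m then f (m / d) else 0) -
      (∑ m ∈ (Ioc u v).filter (fun m => m.Coprime q), (if d ∣ m then f (m / d) else 0)) /
        (q.totient : ℝ)| ≤ F := by
  classical
  have hφ : (0 : ℝ) < (q.totient : ℝ) := by exact_mod_cast Nat.totient_pos.2 hq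
  rw [V1_reindex d u v hd f, V1_reindex d u v hd f]
  by_cases hdq : d.Coprime q
  · -- the class of c / d
    obtain ⟨e, he⟩ : ∃ e, d * e ≡ 1 [MOD q] := by
      rcases Nat.lt_or_ge 1 q with h1 | h1
      · obtain ⟨e, -, he⟩ := Nat.exists_mul_mod_eq_one_of_coprime hdq h1
        exact ⟨e, by rw [Nat.ModEq, he, Nat.mod_eq_of_lt h1]⟩
      · have : q = 1 := le_antisymm h1 hq
        subst this
        exact ⟨0, Nat.modEq_one⟩
    have hec : d * (e * c) ≡ c [MOD q] := by
      have h1 := he.mul_right c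
      rw [one_mul, mul_assoc] at h1
      exact h1
    have hs1 : (Ioc (u / d) (v / d)).filter (fun k => d * k ≡ c [MOD q]) =
        (Ioc (u / d) (v / d)).filter (fun k => k ≡ e * c [MOD q]) := by
      refine Finset.filter_congr fun k _ => ⟨fun h => ?_, fun h => (h.mul_left d).trans hec⟩
      exact Nat.ModEq.cancel_left_of_coprime (by rw [Nat.gcd_comm]; exact hdq) (h.trans hec.symm)
    have hs2 : (Ioc (u / d) (v / d)).filter (fun k => (d * k).Coprime q) =
        (Ioc (u / d) (v / d)).filter (fun k => k.Coprime q) := by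
      refine Finset.filter_congr fun k _ => ?_
      rw [Nat.coprime_mul_iff_left]
      exact ⟨fun h => h.2, fun h => ⟨hdq, h⟩⟩
    rw [hs1, hs2]
    have hfib : ∑ k ∈ (Ioc (u / d) (v / d)).filter (fun k => k.Coprime q), f k =
        ∑ a ∈ (range q).filter (fun a => q.Coprime a),
          ∑ k ∈ (Ioc (u / d) (v / d)).filter (fun k => k ≡ a [MOD q]), f k := by
      rw [← Finset.sum_fiberwise_of_maps_to (t := (range q).filter (fun a => q.Coprime a))
        (g := fun k => k % q)]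
      · refine Finset.sum_congr rfl fun a ha => ?_
        refine Finset.sum_congr ?_ fun _ _ => rfl
        simp only [Finset.mem_filter, Finset.mem_range] at ha
        ext k
        simp only [Finset.mem_filter]
        constructor
        · rintro ⟨⟨h1, h2⟩, h3⟩
          exact ⟨h1, by rw [Nat.ModEq, h3, Nat.mod_eq_of_lt ha.1]⟩
        · rintro ⟨h1, h2⟩
          refine ⟨⟨h1, ?_⟩, ?_⟩
          · have h3 := h2.gcd_eq
            rw [Nat.coprime_iff_gcd_eq_one, h3]
            exact ha.2.symm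
          · rw [Nat.ModEq, Nat.mod_eq_of_lt ha.1] at h2
            exact h2
      · intro k hk
        simp only [Finset.mem_filter] at hk
        simp only [Finset.mem_filter, Finset.mem_range]
        refine ⟨Nat.mod_lt _ hq, ?_⟩
        rw [Nat.coprime_comm, Nat.coprime_iff_gcd_eq_one, (Nat.mod_modEq k q).gcd_eq]
        exact hk.2
    rw [hfib]
    have hcard : ((range q).filter (fun a => q.Coprime a)).card = q.totient :=
      (Nat.totient_eq_card_coprime q).symm
    have hvd : v / d ≤ N := (Nat.div_le_self v d).trans hv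
    have h5 : ∑ k ∈ (Ioc (u / d) (v / d)).filter (fun k => k ≡ e * c [MOD q]), f k -
        (∑ a ∈ (range q).filter (fun a => q.Coprime a),
          ∑ k ∈ (Ioc (u / d) (v / d)).filter (fun k => k ≡ a [MOD q]), f k) / (q.totient : ℝ) =
        (∑ a ∈ (range q).filter (fun a => q.Coprime a),
          (∑ k ∈ (Ioc (u / d) (v / d)).filter (fun k => k ≡ e * c [MOD q]), f k -
          ∑ k ∈ (Ioc (u / d) (v / d)).filter (fun k => k ≡ a [MOD q]), f k)) / (q.totient : ℝ) := by
      rw [Finset.sum_sub_distrib, Finset.sum_const, hcard, nsmul_eq_mul, sub_div,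
        mul_div_cancel_left₀ _ hφ.ne']
    rw [h5, abs_div, abs_of_pos hφ, div_le_iff₀ hφ]
    refine (Finset.abs_sum_le_sum_abs _ _).trans ?_
    refine (Finset.sum_le_card_nsmul _ _ F fun a _ => ?_).trans (le_of_eq ?_)
    · rw [abs_le]
      have h6 := V1_inter (K1 := u / d) (a := e * c) (a' := a) hq hf hf0 hF hF0 hvd
      have h7 := V1_inter (K1 := u / d) (a := a) (a' := e * c) hq hf hf0 hF hF0 hvd
      constructor <;> linarith
    · rw [hcard, nsmul_eq_mul, mul_comm]
  · have hs1 : (Ioc (u / d) (v / d)).filter (fun k => d * k ≡ c [MOD q]) = ∅ := by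
      refine Finset.filter_eq_empty_iff.2 fun k _ h => hdq ?_
      have h1 : (d * k).Coprime q := by
        rw [Nat.coprime_iff_gcd_eq_one, h.gcd_eq]
        exact hc
      exact (Nat.coprime_mul_iff_left.1 h1).1
    have hs2 : (Ioc (u / d) (v / d)).filter (fun k => (d * k).Coprime q) = ∅ :=
      Finset.filter_eq_empty_iff.2 fun k _ h => hdq (Nat.coprime_mul_iff_left.1 h).1
    rw [hs1, hs2, Finset.sum_empty, zero_div, sub_zero, abs_zero]
    exact hF0

theorem typeI (D N q c u v : ℕ) (γ f : ℕ → ℝ) (G F : ℝ) (hq : 1 ≤ q) (hc : c.Coprime q) (hG : 0 ≤ G) (hγ : ∀ d, 1 ≤ d → d ≤ D → |γ d| ≤ G)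
    (hf : MonotoneOn f (Set.Ici 1)) (hf0 : ∀ k, 1 ≤ k → 0 ≤ f k) (hF : ∀ k, 1 ≤ k → k ≤ N → f k ≤ F) (hF0 : 0 ≤ F) (hv : v ≤ N) :
    bvD (fun n => ∑ d ∈ n.divisors.filter (fun d => d ≤ D), γ d * f (n / d)) u v q c ≤ 2 * D * G * F := by
  classical
  have hdiv : ∀ (p : ℕ → Prop) [DecidablePred p],
      ∑ n ∈ (Ioc u v).filter p, ∑ d ∈ n.divisors.filter (fun d => d ≤ D), γ d * f (n / d) =
      ∑ d ∈ Icc 1 D, γ d * ∑ n ∈ (Ioc u v).filter p, (if d ∣ n then f (n / d) else 0) := by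
    intro p _
    simp only [Finset.mul_sum]
    rw [Finset.sum_comm]
    refine Finset.sum_congr rfl fun n hn => ?_
    have hn1 : n ≠ 0 := by
      simp only [Finset.mem_filter, Finset.mem_Ioc] at hn
      omega
    have h1 : n.divisors.filter (fun d => d ≤ D) = (Icc 1 D).filter (fun d => d ∣ n) := by
      ext d
      simp only [Finset.mem_filter, Nat.mem_divisors, Finset.mem_Icc]
      constructor
      · rintro ⟨⟨h2, -⟩, h3⟩
        exact ⟨⟨Nat.pos_of_dvd_of_pos h2 (Nat.pos_of_ne_zero hn1), h3⟩, h2⟩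
      · rintro ⟨⟨-, h3⟩, h2⟩
        exact ⟨⟨h2, hn1⟩, h3⟩
    rw [h1, Finset.sum_filter]
    refine Finset.sum_congr rfl fun d _ => ?_
    split_ifs
    · rfl
    · rw [mul_zero]
  unfold bvD
  rw [hdiv, hdiv, Finset.sum_div, ← Finset.sum_sub_distrib]
  have h2 : ∑ d ∈ Icc 1 D, (γ d * ∑ n ∈ (Ioc u v).filter (fun m => m ≡ c [MOD q]),
        (if d ∣ n then f (n / d) else 0) -
      γ d * (∑ n ∈ (Ioc u v).filter (fun m => m.Coprime q), (if d ∣ n then f (n / d) else 0)) /
        (q.totient : ℝ)) =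
      ∑ d ∈ Icc 1 D, γ d * (∑ n ∈ (Ioc u v).filter (fun m => m ≡ c [MOD q]),
        (if d ∣ n then f (n / d) else 0) -
      (∑ n ∈ (Ioc u v).filter (fun m => m.Coprime q), (if d ∣ n then f (n / d) else 0)) /
        (q.totient : ℝ)) :=
    Finset.sum_congr rfl fun d _ => by rw [mul_sub, mul_div_assoc]
  rw [h2]
  refine (Finset.abs_sum_le_sum_abs _ _).trans ?_
  refine (Finset.sum_le_card_nsmul _ _ (G * F) fun d hd => ?_).trans ?_
  · rw [abs_mul]
    rw [Finset.mem_Icc] at hd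
    exact mul_le_mul (hγ d hd.1 hd.2) (V1_one d N q c u v f F hd.1 hq hc hf hf0 hF hF0 hv)
      (abs_nonneg _) hG
  · rw [Nat.card_Icc, Nat.add_sub_cancel, nsmul_eq_mul]
    have h3 : (0 : ℝ) ≤ (D : ℝ) * (G * F) := mul_nonneg (Nat.cast_nonneg D) (mul_nonneg hG hF0)
    nlinarith

end Pool.Agent.LibBW4
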