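import Pool.Agent.LibBW4.A0
import Pool.Agent.LibBW4.GD
import Pool.Agent.LibBW4.S1
import Pool.Agent.LibHG31.V1

/-!
Row V2 (MEDIUM): type II. `α m = aaf U m` for `m > U`, `β k = Λ k` for `k > U`, else `0`. `∑_{n ∈ (u,v]} T(n) dd q c n = regn α β U b (v / ·) - regn α β U b (u / ·)`, `b = N/U` (for `m > N/U` no `k > U` counts), both functions antitone. GD with `η = ε/2` or so
(`U = ⌊N^ε⌋ ≥ N^η`, `N/U ≤ N^(1-η)` for large `N`), `D = 4`: `∑_{m ≤ x} τ(m)² ≤ x (1 + log x)³ ≤ x (log N)^4` (T1, `abs_aaf_le`), `Λ k ≤ log k ≤ log N`; the Siegel-Walfisz hypothesis from S1 (`N := Y`, `N^(η/2) ≤ Y` gives `s ≤ N ≤ Y^D'`, `D' ≥ 2/η`), the truncation `k > U` replaces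
`(k0, k1]` by `(max k0 U, max k1 U]` or the empty set.
-/

open Finset
open scoped ArithmeticFunction.vonMangoldt

namespace Pool.Agent.LibBW4

open Pool.Agent.LibHG31

private theorem V2_reg (F G : ℕ → ℝ) (U N u v q c : ℕ) (hU : 1 ≤ U) (huv : u ≤ v) (hvN : v ≤ N) :
    ∑ n ∈ Ioc u v, ((∑ p ∈ n.divisorsAntidiagonal.filter (fun p => U < p.1 ∧ U < p.2), F p.1 * G p.2 : ℝ) : ℂ) *
        dd q c n =
      regn (fun m => if U < m then (F m : ℂ) else 0) (fun k => if U < k then (G k : ℂ) else 0) U (N / U)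
        (fun m => v / max m 1) q c -
      regn (fun m => if U < m then (F m : ℂ) else 0) (fun k => if U < k then (G k : ℂ) else 0) U (N / U)
        (fun m => u / max m 1) q c := by
  have h1 : ∑ n ∈ Ioc u v, ((∑ p ∈ n.divisorsAntidiagonal.filter (fun p => U < p.1 ∧ U < p.2), F p.1 * G p.2 : ℝ) : ℂ) *
        dd q c n = ∑ x ∈ (Ioc u v).sigma (fun n => n.divisorsAntidiagonal),
        (if U < x.2.1 then (F x.2.1 : ℂ) else 0) * (if U < x.2.2 then (G x.2.2 : ℂ) else 0) * dd q c x.1 := by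
    rw [Finset.sum_sigma]
    refine Finset.sum_congr rfl fun n hn => ?_
    rw [Finset.sum_filter]
    push_cast
    rw [Finset.sum_mul]
    refine Finset.sum_congr rfl fun p hp => ?_
    by_cases h2 : U < p.1
    · by_cases h3 : U < p.2
      · simp only [h2, h3, and_self, if_true]
        push_cast
        ring
      · simp only [h2, h3, and_false, if_false, mul_zero, zero_mul, Complex.ofReal_zero]
    · simp only [h2, false_and, if_false, zero_mul, Complex.ofReal_zero]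
  have h2 : regn (fun m => if U < m then (F m : ℂ) else 0) (fun k => if U < k then (G k : ℂ) else 0) U (N / U)
        (fun m => v / max m 1) q c -
      regn (fun m => if U < m then (F m : ℂ) else 0) (fun k => if U < k then (G k : ℂ) else 0) U (N / U)
        (fun m => u / max m 1) q c = ∑ x ∈ (Ioc U (N / U)).sigma (fun m => Ioc (u / m) (v / m)),
        (if U < x.1 then (F x.1 : ℂ) else 0) * (if U < x.2 then (G x.2 : ℂ) else 0) * dd q c (x.1 * x.2) := by
    unfold regn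
    rw [← Finset.sum_sub_distrib, Finset.sum_sigma]
    refine Finset.sum_congr rfl fun m hm => ?_
    rw [Finset.mem_Ioc] at hm
    have hm1 : max m 1 = m := max_eq_left (by omega)
    simp only [hm1]
    have e1 : ∀ t : ℕ, Icc 1 t = Ioc 0 t := fun t => rfl
    rw [e1, e1, ← Finset.sum_Ioc_consecutive _ (Nat.zero_le _) (Nat.div_le_div_right huv)]
    ring
  rw [h1, h2]
  refine Finset.sum_bij_ne_zero (fun x _ _ => ⟨x.2.1, x.2.2⟩) ?_ ?_ ?_ ?_
  · rintro ⟨n, m, k⟩ h3 h4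
    simp only [Finset.mem_sigma, Finset.mem_Ioc, Nat.mem_divisorsAntidiagonal] at h3 ⊢
    obtain ⟨⟨h5, h6⟩, h7, h8⟩ := h3
    have hm : U < m := by
      by_contra h
      exact h4 (by simp only [h, if_false, zero_mul])
    have hk : U < k := by
      by_contra h
      exact h4 (by simp only [h, if_false, zero_mul, mul_zero])
    have hm0 : 0 < m := by omega
    refine ⟨⟨hm, ?_⟩, ?_, ?_⟩
    · rw [Nat.le_div_iff_mul_le (by omega)]
      have : m * U ≤ m * k := Nat.mul_le_mul_left _ hk.le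
      omega
    · rw [Nat.div_lt_iff_lt_mul hm0, mul_comm]
      omega
    · rw [Nat.le_div_iff_mul_le hm0, mul_comm]
      omega
  · rintro ⟨n, m, k⟩ h3 h4 ⟨n', m', k'⟩ h3' h4' h5
    simp only [Finset.mem_sigma, Finset.mem_Ioc, Nat.mem_divisorsAntidiagonal] at h3 h3'
    simp only [Sigma.mk.injEq, heq_eq_eq] at h5
    obtain ⟨rfl, rfl⟩ := h5
    have : n = n' := by rw [← h3.2.1, ← h3'.2.1]
    subst this
    rfl
  · rintro ⟨m, k⟩ h3 h4
    simp only [Finset.mem_sigma, Finset.mem_Ioc] at h3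
    obtain ⟨⟨h5, h6⟩, h7, h8⟩ := h3
    have hm0 : 0 < m := by omega
    rw [Nat.div_lt_iff_lt_mul hm0, mul_comm] at h7
    rw [Nat.le_div_iff_mul_le hm0, mul_comm] at h8
    refine ⟨⟨m * k, m, k⟩, ?_, h4, rfl⟩
    simp only [Finset.mem_sigma, Finset.mem_Ioc, Nat.mem_divisorsAntidiagonal]
    exact ⟨⟨h7, h8⟩, trivial, by omega⟩
  · rintro ⟨n, m, k⟩ h3 h4
    simp only [Finset.mem_sigma, Finset.mem_Ioc, Nat.mem_divisorsAntidiagonal] at h3
    simp only [h3.2.1]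

private theorem V2_anti (v : ℕ) : Antitone fun m => v / max m 1 := by
  intro a b h
  exact Nat.div_le_div_left (max_le_max h le_rfl) (by omega)

private theorem V2_cs (G : ℕ → ℝ) (U k0 k1 s : ℕ) {r : ℕ} (ψ : DirichletCharacter ℂ r) (h : k0 ≤ k1) :
    cs (fun k => if U < k then (G k : ℂ) else 0) k0 k1 s ψ = cs (fun k => (G k : ℂ)) (max k0 U) (max k1 U) s ψ := by
  unfold cs
  rw [Finset.sum_filter, Finset.sum_filter]
  have h1 : ∀ k ∈ Ioc k0 k1, (if k.Coprime s then (if U < k then (G k : ℂ) else 0) * ψ (k : ZMod r) else 0) ≠ 0 → U < k := by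
    intro k _ hk
    by_contra h2
    apply hk
    simp only [h2, if_false, zero_mul, ite_self]
  rw [← Finset.sum_filter_of_ne h1]
  have h2 : (Ioc k0 k1).filter (fun k => U < k) = Ioc (max k0 U) (max k1 U) := by
    ext k
    simp only [Finset.mem_filter, Finset.mem_Ioc]
    omega
  rw [h2]
  refine Finset.sum_congr rfl fun k hk => ?_
  rw [Finset.mem_Ioc] at hk
  have h3 : U < k := by omega
  simp only [h3, if_true]

theorem typeII (A : ℕ) (θ ε : ℝ) (hθ : θ < 1 / 2) (hε : 0 < ε) (hε2 : ε < 1 / 4) : ∃ N0 : ℕ, ∀ N ≥ N0, ∀ u v : ℕ, u ≤ v → v ≤ N →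
    ∀ c : ℕ → ℕ, (∀ q, (c q).Coprime q) →
      ∑ q ∈ Icc 1 ⌊(N : ℝ) ^ θ⌋₊, bvD (fun n => ∑ p ∈ n.divisorsAntidiagonal.filter (fun p => ⌊(N : ℝ) ^ ε⌋₊ < p.1 ∧ ⌊(N : ℝ) ^ ε⌋₊ < p.2),
        aaf ⌊(N : ℝ) ^ ε⌋₊ p.1 * Λ p.2) u v q (c q) ≤ N / Real.log N ^ A := by
  have hη : 0 < ε / 2 := by linarith
  obtain ⟨K, N1, hbil⟩ := bilinear (A + 1) 4 θ (ε / 2) hθ hη
  obtain ⟨D', hD'⟩ := exists_nat_ge (4 / ε)
  obtain ⟨N2, hsw⟩ := sw_lam K D'
  have hlim : Filter.Tendsto (fun N : ℕ => (N : ℝ) ^ (ε / 4)) Filter.atTop Filter.atTop :=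
    (tendsto_rpow_atTop (by linarith)).comp tendsto_natCast_atTop_atTop
  obtain ⟨N3, hN3⟩ := (Filter.tendsto_atTop.1 hlim ((N2 : ℝ) + 4)).exists_forall_of_atTop
  obtain ⟨N4, hN4⟩ := (Filter.tendsto_atTop.1 (Real.tendsto_log_atTop.comp tendsto_natCast_atTop_atTop)
    (3 : ℝ)).exists_forall_of_atTop
  refine ⟨max (max N1 N3) (max N4 1), fun N hN u v huv hvN c hc => ?_⟩
  have g1 : N1 ≤ N := (le_max_left _ _).trans ((le_max_left _ _).trans hN)
  have g3 : N3 ≤ N := (le_max_right _ _).trans ((le_max_left _ _).trans hN)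
  have g4 : N4 ≤ N := (le_max_left _ _).trans ((le_max_right _ _).trans hN)
  have g5 : 1 ≤ N := (le_max_right _ _).trans ((le_max_right _ _).trans hN)
  have hN1' : (1 : ℝ) ≤ N := by exact_mod_cast g5
  have hN0' : (0 : ℝ) < N := by linarith
  have hbig : (N2 : ℝ) + 4 ≤ (N : ℝ) ^ (ε / 4) := hN3 N g3
  have hlog : (3 : ℝ) ≤ Real.log N := hN4 N g4
  set U : ℕ := ⌊(N : ℝ) ^ ε⌋₊ with hUdef
  have hx4 : (4 : ℝ) ≤ (N : ℝ) ^ (ε / 4) := le_trans (by linarith [(Nat.cast_nonneg N2 : (0 : ℝ) ≤ N2)]) hbig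
  have hx2 : (N : ℝ) ^ (ε / 2) = (N : ℝ) ^ (ε / 4) * (N : ℝ) ^ (ε / 4) := by
    rw [← Real.rpow_add hN0']; congr 1; ring
  have hx1 : (N : ℝ) ^ ε = (N : ℝ) ^ (ε / 2) * (N : ℝ) ^ (ε / 2) := by
    rw [← Real.rpow_add hN0']; congr 1; ring
  have hx2' : (4 : ℝ) ≤ (N : ℝ) ^ (ε / 2) := by rw [hx2]; nlinarith
  have hU1 : (N : ℝ) ^ (ε / 2) ≤ U := by
    have h1 : (N : ℝ) ^ ε - 1 < U := Nat.sub_one_lt_floor _
    rw [hx1] at h1
    nlinarith
  have hU2 : (U : ℝ) ≤ (N : ℝ) ^ ε := Nat.floor_le (by positivity)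
  have hUpos : 1 ≤ U := by
    have : (1 : ℝ) ≤ U := by linarith
    exact_mod_cast this
  have hUpos' : (0 : ℝ) < U := by exact_mod_cast hUpos
  have hUb : U ≤ N / U := by
    rw [Nat.le_div_iff_mul_le hUpos]
    have h1 : (U : ℝ) * U ≤ (N : ℝ) := by
      calc (U : ℝ) * U ≤ (N : ℝ) ^ ε * (N : ℝ) ^ ε := by gcongr
        _ = (N : ℝ) ^ (ε + ε) := by rw [Real.rpow_add hN0']
        _ ≤ (N : ℝ) ^ (1 : ℝ) := Real.rpow_le_rpow_of_exponent_le hN1' (by linarith)
        _ = N := Real.rpow_one _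
    exact_mod_cast h1
  have hb : ((N / U : ℕ) : ℝ) ≤ (N : ℝ) ^ (1 - ε / 2) := by
    calc ((N / U : ℕ) : ℝ) ≤ (N : ℝ) / U := Nat.cast_div_le
      _ ≤ (N : ℝ) / (N : ℝ) ^ (ε / 2) := by gcongr
      _ = (N : ℝ) ^ (1 - ε / 2) := by rw [Real.rpow_sub hN0', Real.rpow_one]
  have hα : ∀ x : ℕ, 1 ≤ x → x ≤ N →
      ∑ m ∈ Icc 1 x, ‖(fun m : ℕ => if U < m then ((aaf U m : ℝ) : ℂ) else 0) m‖ ^ 2 ≤ x * Real.log N ^ 4 := by
    intro x hx1 hxN
    have e1 : ∑ m ∈ Icc 1 x, ‖(fun m : ℕ => if U < m then ((aaf U m : ℝ) : ℂ) else 0) m‖ ^ 2 ≤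
        ∑ m ∈ Icc 1 x, (m.divisors.card : ℝ) ^ 2 := by
      refine Finset.sum_le_sum fun m _ => ?_
      have e2 : ‖(fun m : ℕ => if U < m then ((aaf U m : ℝ) : ℂ) else 0) m‖ ≤ (m.divisors.card : ℝ) := by
        show ‖(if U < m then ((aaf U m : ℝ) : ℂ) else 0)‖ ≤ _
        split_ifs
        · rw [Complex.norm_real, Real.norm_eq_abs]
          exact abs_aaf_le U m
        · rw [norm_zero]
          positivity
      gcongr
    have hx0 : (0 : ℝ) < x := by exact_mod_cast hx1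
    have e3 : Real.log x ≤ Real.log N := Real.log_le_log hx0 (by exact_mod_cast hxN)
    have e4 : 0 ≤ Real.log x := Real.log_natCast_nonneg x
    calc _ ≤ ∑ m ∈ Icc 1 x, (m.divisors.card : ℝ) ^ 2 := e1
      _ ≤ x * (1 + Real.log x) ^ 3 := sum_tau_sq x
      _ ≤ x * (1 + Real.log N) ^ 3 := by gcongr
      _ ≤ x * Real.log N ^ 4 := by
          refine mul_le_mul_of_nonneg_left ?_ hx0.le
          set L := Real.log (N : ℝ)
          have e5 : 1 + L ≤ 4 / 3 * L := by linarith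
          have e6 : (1 + L) ^ 3 ≤ (4 / 3 * L) ^ 3 := by
            have : 0 ≤ 1 + L := by linarith
            gcongr
          have e7 : (4 / 3 * L) ^ 3 ≤ L ^ 4 := by
            have : 0 ≤ L ^ 3 := by positivity
            nlinarith
          linarith
  have hβ : ∀ k, k ≤ N → ‖(fun k : ℕ => if U < k then ((Λ k : ℝ) : ℂ) else 0) k‖ ≤ Real.log N := by
    intro k hk
    show ‖(if U < k then ((Λ k : ℝ) : ℂ) else 0)‖ ≤ _
    split_ifs with h
    · rw [Complex.norm_real, Real.norm_eq_abs, abs_of_nonneg ArithmeticFunction.vonMangoldt_nonneg]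
      refine ArithmeticFunction.vonMangoldt_le_log.trans ?_
      exact Real.log_le_log (by exact_mod_cast (by omega : 0 < k)) (by exact_mod_cast hk)
    · rw [norm_zero]
      linarith
  have hψ : ∀ Y : ℕ, (N : ℝ) ^ (ε / 2 / 2) ≤ Y → Y ≤ N → ∀ s : ℕ, 1 ≤ s → s ≤ N → ∀ r : ℕ, 2 ≤ r →
      (r : ℝ) ≤ Real.log Y ^ K → ∀ ψ ∈ Prm r, ∀ k0 k1 : ℕ, k0 ≤ k1 → k1 ≤ Y →
        ‖cs (fun k : ℕ => if U < k then ((Λ k : ℝ) : ℂ) else 0) k0 k1 s ψ‖ ≤ Y / Real.log Y ^ K := by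
    intro Y hY hYN s hs hsN r hr hrK ψ hψ k0 k1 hk hk1
    have e0 : ε / 2 / 2 = ε / 4 := by ring
    rw [e0] at hY
    have hY2 : N2 ≤ Y := by
      have : (N2 : ℝ) ≤ Y := by linarith
      exact_mod_cast this
    have hY0 : (0 : ℝ) < Y := by linarith
    have hsY : s ≤ Y ^ D' := by
      refine hsN.trans ?_
      have e1 : (N : ℝ) ≤ (Y : ℝ) ^ D' := by
        calc (N : ℝ) = (N : ℝ) ^ (1 : ℝ) := (Real.rpow_one _).symm
          _ ≤ (N : ℝ) ^ (ε / 4 * D') := by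
              refine Real.rpow_le_rpow_of_exponent_le hN1' ?_
              rw [div_le_iff₀ hε] at hD'
              linarith
          _ = ((N : ℝ) ^ (ε / 4)) ^ D' := by
              rw [Real.rpow_mul hN0'.le, Real.rpow_natCast]
          _ ≤ (Y : ℝ) ^ D' := by gcongr
      exact_mod_cast e1
    rw [V2_cs _ _ _ _ _ _ hk]
    by_cases hkU : k1 ≤ U
    · have e1 : Ioc (max k0 U) (max k1 U) = ∅ := by
        rw [Finset.Ioc_eq_empty_iff]
        omega
      unfold cs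
      rw [e1, Finset.filter_empty, Finset.sum_empty, norm_zero]
      have := Real.log_natCast_nonneg Y
      positivity
    · have e2 : max k1 U = k1 := by omega
      rw [e2]
      exact hsw Y hY2 s hs hsY r hr hrK ψ hψ (max k0 U) k1 (by omega) hk1
  have hmain : ∀ w : ℕ, w ≤ N → ∑ q ∈ Icc 1 ⌊(N : ℝ) ^ θ⌋₊,
      ‖regn (fun m => if U < m then ((aaf U m : ℝ) : ℂ) else 0) (fun k => if U < k then ((Λ k : ℝ) : ℂ) else 0) U (N / U)
        (fun m => w / max m 1) q (c q)‖ ≤ N / Real.log N ^ (A + 1) := by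
    intro w hw
    refine hbil N g1 _ _ hα hβ hψ U (N / U) hU1 hUb hb _ (Or.inl (V2_anti w)) ?_ c hc
    intro m hm
    rw [Finset.mem_Ioc] at hm
    have e1 : max m 1 = m := by omega
    simp only [e1]
    exact (Nat.mul_div_le w m).trans hw
  have hfin : ∀ q : ℕ, bvD (fun n => ∑ p ∈ n.divisorsAntidiagonal.filter (fun p => U < p.1 ∧ U < p.2),
        aaf U p.1 * Λ p.2) u v q (c q) ≤
      ‖regn (fun m => if U < m then ((aaf U m : ℝ) : ℂ) else 0) (fun k => if U < k then ((Λ k : ℝ) : ℂ) else 0) U (N / U)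
        (fun m => v / max m 1) q (c q)‖ +
      ‖regn (fun m => if U < m then ((aaf U m : ℝ) : ℂ) else 0) (fun k => if U < k then ((Λ k : ℝ) : ℂ) else 0) U (N / U)
        (fun m => u / max m 1) q (c q)‖ := by
    intro q
    rw [bvD_eq, V2_reg (aaf U) (fun k => Λ k) U N u v q (c q) hUpos huv hvN]
    exact norm_sub_le _ _
  calc _ ≤ ∑ q ∈ Icc 1 ⌊(N : ℝ) ^ θ⌋₊,
        (‖regn (fun m => if U < m then ((aaf U m : ℝ) : ℂ) else 0) (fun k => if U < k then ((Λ k : ℝ) : ℂ) else 0) U (N / U)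
        (fun m => v / max m 1) q (c q)‖ +
      ‖regn (fun m => if U < m then ((aaf U m : ℝ) : ℂ) else 0) (fun k => if U < k then ((Λ k : ℝ) : ℂ) else 0) U (N / U)
        (fun m => u / max m 1) q (c q)‖) := Finset.sum_le_sum fun q _ => hfin q
    _ ≤ N / Real.log N ^ (A + 1) + N / Real.log N ^ (A + 1) := by
        rw [Finset.sum_add_distrib]
        exact add_le_add (hmain v hvN) (hmain u (huv.trans hvN))
    _ ≤ N / Real.log N ^ A := by
        rw [pow_succ, ← div_div]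
        have e0 : (0 : ℝ) ≤ N / Real.log N ^ A := by positivity
        have e1 : N / Real.log N ^ A / Real.log N ≤ N / Real.log N ^ A / 3 :=
          div_le_div_of_nonneg_left e0 (by norm_num) hlog
        linarith

end Pool.Agent.LibBW4
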