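import Pool.Agent.LibBW4.V1
import Pool.Agent.LibBW4.V2

/-!
Row V3 (MEDIUM): Bombieri-Vinogradov for `Λ`.
-/

open Finset
open scoped ArithmeticFunction.vonMangoldt

namespace Pool.Agent.LibBW4

open Pool.Agent.LibHG31

private theorem V3_large (A : ℕ) : ∃ N0 : ℕ, ∀ N : ℕ, N0 ≤ N → 2 ≤ Real.log N ∧
    12 * Real.log N ^ (A + 1) ≤ (N : ℝ) ^ (1 / 2 : ℝ) := by
  have h1 := (isLittleO_log_rpow_rpow_atTop ((A + 1 : ℕ) : ℝ) (by norm_num : (0 : ℝ) < 1 / 2)).bound
    (by norm_num : (0 : ℝ) < 1 / 12)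
  have h2 := Real.tendsto_log_atTop.eventually_ge_atTop 2
  have h3 := (h1.and h2).and (Filter.eventually_ge_atTop (1 : ℝ))
  have h4 := tendsto_natCast_atTop_atTop (R := ℝ) |>.eventually h3
  obtain ⟨N0, hN0⟩ := Filter.eventually_atTop.mp h4
  refine ⟨N0, fun N hN => ?_⟩
  obtain ⟨⟨h5, h6⟩, h7⟩ := hN0 N hN
  refine ⟨h6, ?_⟩
  rw [Real.rpow_natCast, Real.norm_of_nonneg (by positivity), Real.norm_of_nonneg (by positivity)] at h5
  linarith

private theorem V3_bvD_nonneg (a : ℕ → ℝ) (u v q c : ℕ) : 0 ≤ bvD a u v q c := by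
  unfold bvD
  exact abs_nonneg _

/-- the pointwise bound for the part to which Vaughan's identity does not apply -/
private theorem V3_small (N U u w q c : ℕ) (hw : w ≤ N) (hwU : u < w → w ≤ U) :
    bvD (fun n => Λ n) u w q c ≤ 2 * (U * Real.log N) := by
  refine (bvD_triv _ _ _ _ _).trans ?_
  have hlog0 : 0 ≤ Real.log N := Real.log_natCast_nonneg N
  refine mul_le_mul_of_nonneg_left ?_ (by norm_num)
  have h1 : ∑ m ∈ Ioc u w, |Λ m| ≤ ∑ _m ∈ Ioc u w, Real.log N := by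
    refine Finset.sum_le_sum fun m hm => ?_
    rw [Finset.mem_Ioc] at hm
    rw [abs_of_nonneg ArithmeticFunction.vonMangoldt_nonneg]
    refine ArithmeticFunction.vonMangoldt_le_log.trans ?_
    exact Real.log_le_log (by exact_mod_cast (by omega : 0 < m)) (by exact_mod_cast (by omega : m ≤ N))
  refine h1.trans ?_
  rw [Finset.sum_const, nsmul_eq_mul, Nat.card_Ioc]
  refine mul_le_mul_of_nonneg_right ?_ hlog0
  have : w - u ≤ U := by
    rcases Nat.lt_or_ge u w with h | h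
    · have := hwU h; omega
    · omega
  exact_mod_cast this

private theorem V3_T1 (U n : ℕ) : ∑ p ∈ n.divisorsAntidiagonal.filter (fun p => p.1 ≤ U),
        ((ArithmeticFunction.moebius p.1 : ℤ) : ℝ) * Real.log p.2 =
      ∑ d ∈ n.divisors.filter (fun d => d ≤ U), ((ArithmeticFunction.moebius d : ℤ) : ℝ) *
        (fun k : ℕ => Real.log k) (n / d) := by
  rw [Finset.sum_filter, Finset.sum_filter,
    Nat.sum_divisorsAntidiagonal (fun d e => if d ≤ U then ((ArithmeticFunction.moebius d : ℤ) : ℝ) * Real.log e else 0)]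

private theorem V3_T2 (U n : ℕ) : ∑ d ∈ n.divisors, ccf U d =
      ∑ d ∈ n.divisors.filter (fun d => d ≤ U ^ 2), ccf U d * (fun _ : ℕ => (1 : ℝ)) (n / d) := by
  rw [Finset.sum_filter]
  refine Finset.sum_congr rfl fun d _ => ?_
  split_ifs with h
  · rw [mul_one]
  · exact ccf_eq_zero U d (by omega)

private theorem V3_e1 (N U w v q c : ℕ) (hv : v ≤ N) (hq : 1 ≤ q) (hc : c.Coprime q) :
    bvD (fun n => ∑ p ∈ n.divisorsAntidiagonal.filter (fun p => p.1 ≤ U),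
        ((ArithmeticFunction.moebius p.1 : ℤ) : ℝ) * Real.log p.2) w v q c ≤ 2 * (U : ℝ) * 1 * Real.log N := by
  have hlog0 : 0 ≤ Real.log N := Real.log_natCast_nonneg N
  have e : (fun n : ℕ => ∑ p ∈ n.divisorsAntidiagonal.filter (fun p => p.1 ≤ U),
        ((ArithmeticFunction.moebius p.1 : ℤ) : ℝ) * Real.log p.2) =
      (fun n : ℕ => ∑ d ∈ n.divisors.filter (fun d => d ≤ U), ((ArithmeticFunction.moebius d : ℤ) : ℝ) *
        (fun k : ℕ => Real.log k) (n / d)) := by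
    funext n
    exact V3_T1 U n
  rw [e]
  refine typeI U N q c w v (fun d => ((ArithmeticFunction.moebius d : ℤ) : ℝ)) (fun k : ℕ => Real.log k)
    1 (Real.log N) hq hc (by norm_num) ?_ ?_ ?_ ?_ hlog0 hv
  · intro d _ _
    have h := ArithmeticFunction.abs_moebius_le_one (n := d)
    exact_mod_cast h
  · intro a ha b hb hab
    exact Real.log_le_log (by
      have : 1 ≤ a := ha
      exact_mod_cast (by omega : 0 < a)) (by exact_mod_cast hab)
  · intro k _
    exact Real.log_natCast_nonneg k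
  · intro k hk hkN
    exact Real.log_le_log (by exact_mod_cast (by omega : 0 < k)) (by exact_mod_cast hkN)

private theorem V3_e2 (N U w v q c : ℕ) (hUN : U ^ 2 ≤ N) (hv : v ≤ N) (hq : 1 ≤ q) (hc : c.Coprime q) :
    bvD (fun n => ∑ d ∈ n.divisors, ccf U d) w v q c ≤ 2 * ((U ^ 2 : ℕ) : ℝ) * Real.log N * 1 := by
  have hlog0 : 0 ≤ Real.log N := Real.log_natCast_nonneg N
  have e : (fun n : ℕ => ∑ d ∈ n.divisors, ccf U d) =
      (fun n : ℕ => ∑ d ∈ n.divisors.filter (fun d => d ≤ U ^ 2), ccf U d * (fun _ : ℕ => (1 : ℝ)) (n / d)) := by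
    funext n
    exact V3_T2 U n
  rw [e]
  refine typeI (U ^ 2) N q c w v (fun d => ccf U d) (fun _ : ℕ => (1 : ℝ)) (Real.log N) 1 hq hc hlog0 ?_ ?_ ?_ ?_
    (by norm_num) hv
  · intro d hd hdU
    refine (abs_ccf_le U d hd).trans ?_
    exact Real.log_le_log (by exact_mod_cast (by omega : 0 < d)) (by exact_mod_cast (hdU.trans hUN))
  · intro a _ b _ _
    exact le_rfl
  · intro k _
    exact zero_le_one
  · intro k _ _
    exact le_rfl

private theorem V3_sub3 (a T1 T2 T3 : ℕ → ℝ) (w v q c : ℕ) (h : ∀ n ∈ Ioc w v, a n = T1 n - T2 n - T3 n) :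
    bvD a w v q c ≤ bvD T1 w v q c + bvD T2 w v q c + bvD T3 w v q c := by
  have h1 : bvD a w v q c = bvD (fun n => (fun n => T1 n - T2 n) n - T3 n) w v q c :=
    bvD_congr _ _ _ _ _ _ h
  have h2 := bvD_sub (fun n => T1 n - T2 n) T3 w v q c
  have h3 := bvD_sub T1 T2 w v q c
  rw [h1]
  linarith

private theorem V3_mid (N U w v q c : ℕ) (hU : 1 ≤ U) (hUN : U ^ 2 ≤ N) (hv : v ≤ N)
    (hwU : w < v → U ≤ w) (hq : 1 ≤ q) (hc : c.Coprime q) :
    bvD (fun n => Λ n) w v q c ≤ 4 * (U ^ 2 * Real.log N) +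
      bvD (fun n => ∑ p ∈ n.divisorsAntidiagonal.filter (fun p => U < p.1 ∧ U < p.2),
        aaf U p.1 * Λ p.2) w v q c := by
  have hlog0 : 0 ≤ Real.log N := Real.log_natCast_nonneg N
  have h1 := V3_sub3 (fun n => Λ n) (fun n => ∑ p ∈ n.divisorsAntidiagonal.filter (fun p => p.1 ≤ U),
        ((ArithmeticFunction.moebius p.1 : ℤ) : ℝ) * Real.log p.2) (fun n => ∑ d ∈ n.divisors, ccf U d)
      (fun n => ∑ p ∈ n.divisorsAntidiagonal.filter (fun p => U < p.1 ∧ U < p.2), aaf U p.1 * Λ p.2) w v q c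
      (by
        intro n hn
        rw [Finset.mem_Ioc] at hn
        have := hwU (by omega)
        exact vaughan U n hU (by omega))
  have e1 := V3_e1 N U w v q c hv hq hc
  have e2 := V3_e2 N U w v q c hUN hv hq hc
  have hUU : (U : ℝ) ≤ (U : ℝ) ^ 2 := by
    have : (1 : ℝ) ≤ U := by exact_mod_cast hU
    nlinarith
  have h2 := mul_le_mul_of_nonneg_right hUU hlog0
  refine h1.trans ?_
  generalize bvD (fun n => ∑ p ∈ n.divisorsAntidiagonal.filter (fun p => p.1 ≤ U),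
        ((ArithmeticFunction.moebius p.1 : ℤ) : ℝ) * Real.log p.2) w v q c = x1 at e1 ⊢
  generalize bvD (fun n => ∑ d ∈ n.divisors, ccf U d) w v q c = x2 at e2 ⊢
  generalize bvD (fun n => ∑ p ∈ n.divisorsAntidiagonal.filter (fun p => U < p.1 ∧ U < p.2),
        aaf U p.1 * Λ p.2) w v q c = x3
  push_cast at e2
  linarith

theorem bv_lam (A : ℕ) (θ : ℝ) (hθ : θ < 1 / 2) : ∃ N0 : ℕ, ∀ N ≥ N0, ∀ u v : ℕ, v ≤ N →
    ∀ c : ℕ → ℕ, (∀ q, (c q).Coprime q) →
      ∑ q ∈ Icc 1 ⌊(N : ℝ) ^ θ⌋₊, bvD (fun n => Λ n) u v q (c q) ≤ N / Real.log N ^ A := by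
  obtain ⟨ε, hε⟩ : ∃ ε : ℝ, ε = min (1 / 8) ((1 / 2 - θ) / 4) := ⟨_, rfl⟩
  have hε0 : 0 < ε := by rw [hε]; exact lt_min (by norm_num) (by linarith)
  have hε1 : ε ≤ 1 / 8 := by rw [hε]; exact min_le_left _ _
  have hε2 : ε ≤ (1 / 2 - θ) / 4 := by rw [hε]; exact min_le_right _ _
  obtain ⟨N1, hN1⟩ := typeII (A + 1) θ ε hθ hε0 (by linarith)
  obtain ⟨N2, hN2⟩ := V3_large A
  refine ⟨max N1 (max N2 1), fun N hN u v hv c hc => ?_⟩
  have hNN1 : N1 ≤ N := le_trans (le_max_left _ _) hN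
  have hNN2 : N2 ≤ N := le_trans (le_trans (le_max_left _ _) (le_max_right _ _)) hN
  have hNN3 : 1 ≤ N := le_trans (le_trans (le_max_right _ _) (le_max_right _ _)) hN
  obtain ⟨hlog2, hpow⟩ := hN2 N hNN2
  have hNr : (1 : ℝ) ≤ N := by exact_mod_cast hNN3
  have hlog0 : 0 < Real.log N := by linarith
  have hrhs : 0 ≤ N / Real.log N ^ A := by positivity
  rcases Nat.lt_or_ge v u with hvu | huv
  · refine le_trans (le_of_eq ?_) hrhs
    refine Finset.sum_eq_zero fun q _ => ?_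
    unfold bvD
    rw [Finset.Ioc_eq_empty (by omega)]
    simp
  have hII := hN1 N hNN1
  obtain ⟨U, hU⟩ : ∃ U : ℕ, U = ⌊(N : ℝ) ^ ε⌋₊ := ⟨_, rfl⟩
  rw [← hU] at hII
  have hU1 : 1 ≤ U := by
    rw [hU, Nat.one_le_floor_iff]
    exact Real.one_le_rpow hNr hε0.le
  have hUε : (U : ℝ) ≤ (N : ℝ) ^ ε := by
    rw [hU]; exact Nat.floor_le (by positivity)
  have hU2 : (U : ℝ) ^ 2 ≤ (N : ℝ) ^ (2 * ε) := by
    calc (U : ℝ) ^ 2 ≤ ((N : ℝ) ^ ε) ^ 2 := pow_le_pow_left₀ (by positivity) hUε 2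
      _ = (N : ℝ) ^ (2 * ε) := by
        rw [← Real.rpow_natCast, ← Real.rpow_mul (by positivity)]
        congr 1
        push_cast
        ring
  have hUN : U ^ 2 ≤ N := by
    have : (N : ℝ) ^ (2 * ε) ≤ (N : ℝ) ^ (1 : ℝ) := Real.rpow_le_rpow_of_exponent_le hNr (by linarith)
    rw [Real.rpow_one] at this
    exact_mod_cast hU2.trans this
  obtain ⟨w, hw⟩ : ∃ w : ℕ, w = min (max u U) v := ⟨_, rfl⟩
  have huw : u ≤ w := by rw [hw]; exact le_min (le_max_left _ _) huv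
  have hwv : w ≤ v := by rw [hw]; exact min_le_right _ _
  have hII' := hII w v hwv hv c hc
  obtain ⟨Q, hQ⟩ : ∃ Q : ℕ, Q = ⌊(N : ℝ) ^ θ⌋₊ := ⟨_, rfl⟩
  rw [← hQ] at hII' ⊢
  have hQθ : (Q : ℝ) ≤ (N : ℝ) ^ θ := by rw [hQ]; exact Nat.floor_le (by positivity)
  have hpt : ∀ q ∈ Icc 1 Q, bvD (fun n => Λ n) u v q (c q) ≤ 6 * (U ^ 2 * Real.log N) +
      bvD (fun n => ∑ p ∈ n.divisorsAntidiagonal.filter (fun p => U < p.1 ∧ U < p.2),
        aaf U p.1 * Λ p.2) w v q (c q) := by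
    intro q hq
    rw [Finset.mem_Icc] at hq
    have h1 := bvD_split (fun n => Λ n) u w v q (c q) huw hwv
    have h2 := V3_small N U u w q (c q) (hwv.trans hv) (by
      intro h
      rw [hw] at h ⊢
      rcases Nat.le_total u U with h3 | h3
      · rw [max_eq_right h3] at h ⊢
        exact min_le_left _ _
      · rw [max_eq_left h3] at h
        exact absurd (lt_of_lt_of_le h (min_le_left _ _)) (lt_irrefl _))
    have h3 := V3_mid N U w v q (c q) hU1 hUN hv (by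
      intro h
      rw [hw] at h ⊢
      rw [min_lt_iff] at h
      rcases h with h | h
      · rw [min_eq_left h.le]
        exact le_max_right _ _
      · exact absurd h (lt_irrefl _)) hq.1 (hc q)
    have hUU : (U : ℝ) ≤ (U : ℝ) ^ 2 := by
      have : (1 : ℝ) ≤ U := by exact_mod_cast hU1
      nlinarith
    have h4 := mul_le_mul_of_nonneg_right hUU hlog0.le
    generalize bvD (fun n => ∑ p ∈ n.divisorsAntidiagonal.filter (fun p => U < p.1 ∧ U < p.2),
        aaf U p.1 * Λ p.2) w v q (c q) = x3 at h3 ⊢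
    linarith
  refine (Finset.sum_le_sum hpt).trans ?_
  rw [Finset.sum_add_distrib, Finset.sum_const, nsmul_eq_mul, Nat.card_Icc, Nat.add_sub_cancel]
  -- numbers
  have hs : (Q : ℝ) * (6 * (U ^ 2 * Real.log N)) ≤ 6 * ((N : ℝ) ^ (1 / 2 : ℝ) * Real.log N) := by
    have h1 : (Q : ℝ) * (U : ℝ) ^ 2 ≤ (N : ℝ) ^ (1 / 2 : ℝ) := by
      calc (Q : ℝ) * (U : ℝ) ^ 2 ≤ (N : ℝ) ^ θ * (N : ℝ) ^ (2 * ε) :=
            mul_le_mul hQθ hU2 (by positivity) (by positivity)
        _ = (N : ℝ) ^ (θ + 2 * ε) := by rw [← Real.rpow_add (by linarith)]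
        _ ≤ (N : ℝ) ^ (1 / 2 : ℝ) := Real.rpow_le_rpow_of_exponent_le hNr (by linarith)
    have h2 := mul_le_mul_of_nonneg_right h1 hlog0.le
    linarith
  have hhalf : (N : ℝ) ^ (1 / 2 : ℝ) * (N : ℝ) ^ (1 / 2 : ℝ) = N := by
    rw [← Real.rpow_add (by linarith)]
    norm_num
  have hLA : 0 < Real.log N ^ A := by positivity
  have h5 : 6 * ((N : ℝ) ^ (1 / 2 : ℝ) * Real.log N) ≤ N / Real.log N ^ A / 2 := by
    rw [le_div_iff₀ (by norm_num), le_div_iff₀ hLA]
    have h6 := mul_le_mul_of_nonneg_left hpow (by positivity : 0 ≤ (N : ℝ) ^ (1 / 2 : ℝ))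
    rw [hhalf, pow_succ] at h6
    linarith
  have h7 : N / Real.log N ^ (A + 1) ≤ N / Real.log N ^ A / 2 := by
    rw [div_div]
    refine div_le_div_of_nonneg_left (by positivity) (by positivity) ?_
    rw [pow_succ]
    exact mul_le_mul_of_nonneg_left hlog2 hLA.le
  linarith

end Pool.Agent.LibBW4
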