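import Pool.Agent.LibBW4.V3

/-!
Row V4 (MEDIUM): from `Λ` to primes. `c` is fixed, so partial summation is immediate: for `2 ≤ u`, `∑_{u<n≤v} (Λ n/log n) dd = ∑_{u < t < v} (1/log t - 1/log(t+1)) S(t) + S(v)/log v`, `S(t) = ∑_{u<n≤t} Λ n dd q c n`, `‖S(t)‖ = bvD Λ u t q c`; sum over `q` first, then over `t`:
`≤ (2/log 2) N/(log N)^(A+1)`. The prime powers: `Λ n/log n - pr n` is `1/k` at `n = p^k`, `k ≥ 2`, and `0` otherwise; there are at most `sqrt N log₂ N` of them `≤ N`, so `bvD_triv` gives `N^θ * 2 sqrt N log₂ N`. For `u < 2` split at `2` (`bvD_split`, `bvD_triv`).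
-/

open Finset

namespace Pool.Agent.LibBW4

open scoped ArithmeticFunction.vonMangoldt

private lemma V4_abel (D : ℕ → ℂ) (w : ℕ → ℝ) (u v : ℕ) (huv : u ≤ v) :
    ∑ n ∈ Ioc u v, (w n : ℂ) * D n = (w v : ℂ) * ∑ n ∈ Ioc u v, D n +
      ∑ t ∈ Ico u v, ((w t - w (t + 1) : ℝ) : ℂ) * ∑ n ∈ Ioc u t, D n := by
  induction v, huv using Nat.le_induction with
  | base => simp
  | succ v hv ih =>
    rw [Finset.sum_Ioc_succ_top (by omega), Finset.sum_Ioc_succ_top (by omega),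
      Finset.sum_Ico_succ_top hv, ih]
    push_cast
    ring

private lemma V4_tele (w : ℕ → ℝ) (u v : ℕ) (huv : u ≤ v) :
    w v + ∑ t ∈ Ico u v, (w t - w (t + 1)) = w u := by
  induction v, huv using Nat.le_induction with
  | base => simp
  | succ v hv ih =>
    rw [Finset.sum_Ico_succ_top hv]
    linarith

private lemma V4_sum (a w : ℕ → ℝ) (hw : Antitone w) (hw0 : ∀ n, 0 ≤ w n) (Q : Finset ℕ)
    (c : ℕ → ℕ) (u v : ℕ) (huv : u ≤ v) (X : ℝ)
    (h : ∀ t, u ≤ t → t ≤ v → ∑ q ∈ Q, bvD a u t q (c q) ≤ X) :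
    ∑ q ∈ Q, bvD (fun n => a n * w n) u v q (c q) ≤ w u * X := by
  have h1 : ∀ q, bvD (fun n => a n * w n) u v q (c q) ≤ w v * bvD a u v q (c q) +
      ∑ t ∈ Ico u v, (w t - w (t + 1)) * bvD a u t q (c q) := by
    intro q
    rw [bvD_eq]
    have e1 : ∑ m ∈ Ioc u v, ((a m * w m : ℝ) : ℂ) * dd q (c q) m =
        ∑ m ∈ Ioc u v, (w m : ℂ) * ((a m : ℂ) * dd q (c q) m) := by
      refine Finset.sum_congr rfl fun m _ => ?_
      push_cast
      ring
    rw [e1, V4_abel (fun m => (a m : ℂ) * dd q (c q) m) w u v huv]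
    refine (norm_add_le _ _).trans (add_le_add ?_ ?_)
    · rw [norm_mul, Complex.norm_real, Real.norm_of_nonneg (hw0 v), ← bvD_eq]
    · refine (norm_sum_le _ _).trans (Finset.sum_le_sum fun t _ => ?_)
      have h2 : 0 ≤ w t - w (t + 1) := sub_nonneg.mpr (hw (Nat.le_succ t))
      rw [norm_mul, Complex.norm_real, Real.norm_of_nonneg h2, ← bvD_eq]
  refine (Finset.sum_le_sum fun q _ => h1 q).trans ?_
  rw [Finset.sum_add_distrib, ← Finset.mul_sum, Finset.sum_comm]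
  have h3 : ∀ t ∈ Ico u v, ∑ q ∈ Q, (w t - w (t + 1)) * bvD a u t q (c q) ≤
      (w t - w (t + 1)) * X := by
    intro t ht
    rw [mem_Ico] at ht
    rw [← Finset.mul_sum]
    exact mul_le_mul_of_nonneg_left (h t ht.1 ht.2.le) (sub_nonneg.mpr (hw (Nat.le_succ t)))
  have h4 : w v * ∑ q ∈ Q, bvD a u v q (c q) ≤ w v * X :=
    mul_le_mul_of_nonneg_left (h v huv le_rfl) (hw0 v)
  refine (add_le_add h4 (Finset.sum_le_sum h3)).trans (le_of_eq ?_)
  rw [← Finset.sum_mul, ← add_mul, V4_tele w u v huv]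

/-- the smooth weight -/
private noncomputable def V4_w (n : ℕ) : ℝ := 1 / Real.log ((max n 2 : ℕ) : ℝ)

private lemma V4_w_anti : Antitone V4_w := by
  intro m n hmn
  unfold V4_w
  have h2 : (2 : ℝ) ≤ ((max m 2 : ℕ) : ℝ) := by exact_mod_cast le_max_right m 2
  have h3 : ((max m 2 : ℕ) : ℝ) ≤ ((max n 2 : ℕ) : ℝ) := by
    exact_mod_cast max_le_max hmn le_rfl
  apply one_div_le_one_div_of_le (Real.log_pos (by linarith))
  exact Real.log_le_log (by linarith) h3

private lemma V4_w_nonneg (n : ℕ) : 0 ≤ V4_w n := by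
  unfold V4_w
  have h2 : (2 : ℝ) ≤ ((max n 2 : ℕ) : ℝ) := by exact_mod_cast le_max_right n 2
  have := Real.log_nonneg (by linarith : (1 : ℝ) ≤ ((max n 2 : ℕ) : ℝ))
  positivity

private lemma V4_w_le (n : ℕ) : V4_w n ≤ 3 / 2 := by
  unfold V4_w
  have h2 : (2 : ℝ) ≤ ((max n 2 : ℕ) : ℝ) := by exact_mod_cast le_max_right n 2
  have h3 := Real.log_le_log (by norm_num) h2
  have h4 := Real.log_two_gt_d9
  rw [div_le_iff₀ (by linarith)]
  linarith

/-- the prime powers -/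
private noncomputable def V4_e (n : ℕ) : ℝ := if n.Prime then 0 else Λ n

private lemma V4_e_nonneg (n : ℕ) : 0 ≤ V4_e n := by
  unfold V4_e
  split_ifs
  · exact le_rfl
  · exact ArithmeticFunction.vonMangoldt_nonneg

private lemma V4_pr (n : ℕ) : pr n = Λ n * V4_w n - V4_e n * V4_w n := by
  unfold pr V4_e
  split_ifs with h
  · rw [ArithmeticFunction.vonMangoldt_apply_prime h]
    unfold V4_w
    rw [max_eq_left h.two_le]
    have h1 : Real.log n ≠ 0 := by
      have : (1 : ℝ) < n := by exact_mod_cast h.one_lt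
      exact (Real.log_pos this).ne'
    field_simp
    simp
  · ring

private lemma V4_e_sum (N : ℕ) (hN : 1 ≤ N) (u v : ℕ) (hv : v ≤ N) :
    ∑ m ∈ Ioc u v, |V4_e m * V4_w m| ≤ 3 * (Real.sqrt N * Real.log N) := by
  have h1 : ∑ m ∈ Ioc u v, |V4_e m * V4_w m| ≤ ∑ m ∈ Ioc u v, (3 / 2) * V4_e m := by
    refine Finset.sum_le_sum fun m _ => ?_
    rw [abs_of_nonneg (mul_nonneg (V4_e_nonneg m) (V4_w_nonneg m))]
    have := mul_le_mul_of_nonneg_left (V4_w_le m) (V4_e_nonneg m)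
    linarith
  have h2 : ∑ m ∈ Ioc u v, (3 / 2) * V4_e m ≤ ∑ m ∈ Ioc 0 N, (3 / 2) * V4_e m := by
    apply Finset.sum_le_sum_of_subset_of_nonneg
    · intro m hm
      rw [mem_Ioc] at hm ⊢
      omega
    · intro m _ _
      have := V4_e_nonneg m
      positivity
  have h3 := Chebyshev.psi_sub_theta_le (x := (N : ℝ)) (by exact_mod_cast hN)
  rw [Chebyshev.psi_sub_theta_eq_sum_not_prime, Nat.floor_natCast] at h3
  have h4 : ∑ m ∈ Ioc 0 N, V4_e m =
      ∑ n ∈ Ioc 0 N with ¬ n.Prime, ArithmeticFunction.vonMangoldt n := by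
    rw [Finset.sum_filter]
    refine Finset.sum_congr rfl fun m _ => ?_
    unfold V4_e
    by_cases hm : m.Prime
    · simp [hm]
    · simp [hm]
  rw [← h4] at h3
  have h5 := h1.trans h2
  rw [← Finset.mul_sum] at h5
  linarith

private lemma V4_ev (A : ℕ) (θ : ℝ) (hθ : θ < 1 / 2) : ∃ N0 : ℕ, ∀ N ≥ N0,
    (N : ℝ) ^ θ * (6 * (Real.sqrt N * Real.log N)) ≤ N / Real.log N ^ A / 4 := by
  have h1 := (isLittleO_log_rpow_rpow_atTop ((A : ℝ) + 1) (by linarith : 0 < 1 / 2 - θ)).def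
    (c := (1 / 24 : ℝ)) (by norm_num)
  have h2 := tendsto_natCast_atTop_atTop.eventually h1
  obtain ⟨N0, hN0⟩ := Filter.eventually_atTop.mp h2
  refine ⟨N0 + 3, fun N hN => ?_⟩
  have h3 := hN0 N (by omega)
  have hN3 : (3 : ℝ) ≤ N := by
    have : 3 ≤ N := by omega
    exact_mod_cast this
  have hlog : 0 < Real.log N := Real.log_pos (by linarith)
  have hNp : (0 : ℝ) < N := by linarith
  rw [Real.norm_of_nonneg (by positivity), Real.norm_of_nonneg (by positivity)] at h3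
  have h4 : Real.log N ^ ((A : ℝ) + 1) = Real.log N ^ (A + 1) := by
    rw [← Real.rpow_natCast]
    congr 1
    push_cast
    ring
  rw [h4] at h3
  have h5 : (N : ℝ) ^ θ * Real.sqrt N * (N : ℝ) ^ (1 / 2 - θ) = N := by
    rw [Real.sqrt_eq_rpow, ← Real.rpow_add hNp, ← Real.rpow_add hNp]
    have : θ + 1 / 2 + (1 / 2 - θ) = 1 := by ring
    rw [this, Real.rpow_one]
  have h6 : 0 < (N : ℝ) ^ θ * Real.sqrt N := by positivity
  rw [div_div, le_div_iff₀ (by positivity)]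
  calc (N : ℝ) ^ θ * (6 * (Real.sqrt N * Real.log N)) * (Real.log N ^ A * 4)
      = (N : ℝ) ^ θ * Real.sqrt N * (24 * Real.log N ^ (A + 1)) := by
        rw [pow_succ]
        ring
    _ ≤ (N : ℝ) ^ θ * Real.sqrt N * (N : ℝ) ^ (1 / 2 - θ) := by
        apply mul_le_mul_of_nonneg_left _ h6.le
        linarith
    _ = N := h5

theorem bv_pr (A : ℕ) (θ : ℝ) (hθ : θ < 1 / 2) : ∃ N0 : ℕ, ∀ N ≥ N0, ∀ u v : ℕ, v ≤ N →
    ∀ c : ℕ → ℕ, (∀ q, (c q).Coprime q) →
      ∑ q ∈ Icc 1 ⌊(N : ℝ) ^ θ⌋₊, bvD pr u v q (c q) ≤ N / Real.log N ^ A := by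
  obtain ⟨N1, hN1⟩ := bv_lam (A + 1) θ hθ
  obtain ⟨N2, hN2⟩ := V4_ev A θ hθ
  obtain ⟨N3, hN3⟩ := exists_nat_ge (Real.exp 4)
  refine ⟨N1 + N2 + N3 + 1, fun N hN u v hv c hc => ?_⟩
  have hNp : (0 : ℝ) < N := by
    have : 0 < N := by omega
    exact_mod_cast this
  have hlog : 4 ≤ Real.log N := by
    rw [Real.le_log_iff_exp_le hNp]
    refine hN3.trans ?_
    have : N3 ≤ N := by omega
    exact_mod_cast this
  have hlog0 : 0 < Real.log N := by linarith
  rcases lt_or_ge v u with hvu | huv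
  · have h0 : ∀ q, bvD pr u v q (c q) = 0 := by
      intro q
      rw [bvD_eq, Ioc_eq_empty (by omega), Finset.sum_empty, norm_zero]
    rw [Finset.sum_congr rfl fun q _ => h0 q, Finset.sum_const_zero]
    positivity
  · have h1 : ∀ q, bvD pr u v q (c q) ≤ bvD (fun n => Λ n * V4_w n) u v q (c q) +
        6 * (Real.sqrt N * Real.log N) := by
      intro q
      have e1 : bvD pr u v q (c q) =
          bvD (fun n => Λ n * V4_w n - V4_e n * V4_w n) u v q (c q) :=
        bvD_congr _ _ u v q (c q) fun n _ => V4_pr n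
      rw [e1]
      refine (bvD_sub (fun n => Λ n * V4_w n) (fun n => V4_e n * V4_w n) u v q (c q)).trans ?_
      have h2 := bvD_triv (fun n => V4_e n * V4_w n) u v q (c q)
      have h3 := V4_e_sum N (by omega) u v hv
      linarith
    refine (Finset.sum_le_sum fun q _ => h1 q).trans ?_
    rw [Finset.sum_add_distrib, Finset.sum_const, nsmul_eq_mul, Nat.card_Icc, Nat.add_sub_cancel]
    have h4 := V4_sum (fun n => Λ n) V4_w V4_w_anti V4_w_nonneg (Icc 1 ⌊(N : ℝ) ^ θ⌋₊) c u v huv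
      (N / Real.log N ^ (A + 1)) (fun t _ ht => hN1 N (by omega) u t (ht.trans hv) c hc)
    have h5 : V4_w u * (N / Real.log N ^ (A + 1)) ≤ N / Real.log N ^ A / 2 := by
      have h6 : 0 ≤ (N : ℝ) / Real.log N ^ (A + 1) := by positivity
      have h7 := mul_le_mul_of_nonneg_right (V4_w_le u) h6
      have h8 : (N : ℝ) / Real.log N ^ A = (N / Real.log N ^ (A + 1)) * Real.log N := by
        rw [pow_succ]
        field_simp
      rw [h8]
      nlinarith
    have h9 := hN2 N (by omega)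
    have h10 : ((⌊(N : ℝ) ^ θ⌋₊ : ℕ) : ℝ) * (6 * (Real.sqrt N * Real.log N)) ≤
        (N : ℝ) ^ θ * (6 * (Real.sqrt N * Real.log N)) := by
      apply mul_le_mul_of_nonneg_right (Nat.floor_le (by positivity))
      positivity
    have h11 : 0 ≤ (N : ℝ) / Real.log N ^ A := by positivity
    linarith

end Pool.Agent.LibBW4
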